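import Mathlib
set_option maxSynthPendingDepth 3
set_option autoImplicit false
open Set Filter Topology

namespace BidQ
universe u v w
variable {𝕜 : Type} [RCLike 𝕜]

/-- countable norming sequences for separable sets of functionals -/
lemma exists_norming {P : Type u} [NormedAddCommGroup P] [NormedSpace 𝕜 P]
    (S : Set (StrongDual 𝕜 P)) (hS : TopologicalSpace.IsSeparable S) :
    ∃ p : ℕ → P, (∀ n, ‖p n‖ ≤ 1) ∧
      ∀ f ∈ S, ∀ c : ℝ, (∀ n, ‖f (p n)‖ ≤ c) → ‖f‖ ≤ c := by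
  obtain ⟨t, ht, hSt⟩ := hS
  rcases t.eq_empty_or_nonempty with rfl | hne
  · refine ⟨fun _ => 0, by simp, fun f hf => ?_⟩
    simpa using hSt hf
  obtain ⟨f, hf⟩ := ht.exists_eq_range hne
  have h1 : ∀ k m : ℕ, ∃ x : P, ‖x‖ < 1 ∧ ‖f k‖ - 1 / ((m : ℝ) + 1) < ‖f k x‖ := by
    intro k m
    apply ContinuousLinearMap.exists_lt_apply_of_lt_opNorm
    have : (0 : ℝ) < 1 / ((m : ℝ) + 1) := by positivity
    linarith
  choose x hx1 hx2 using h1
  refine ⟨fun n => x n.unpair.1 n.unpair.2, fun n => (hx1 _ _).le, ?_⟩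
  intro g hg c hc
  apply le_of_forall_pos_le_add
  intro ε hε
  have hg' := Metric.mem_closure_iff.1 (hSt hg) (ε / 3) (by positivity)
  obtain ⟨_, hfk, hdist⟩ := hg'
  rw [hf] at hfk
  obtain ⟨k, rfl⟩ := hfk
  obtain ⟨m, hm⟩ := exists_nat_one_div_lt (show 0 < ε / 3 by positivity)
  have h2 := hx2 k m
  have h3 := hc (Nat.pair k m)
  simp only [Nat.unpair_pair] at h3
  rw [dist_eq_norm] at hdist
  have h4 : ‖f k (x k m)‖ ≤ ‖g (x k m)‖ + ‖g - f k‖ := by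
    have h5 : f k (x k m) = g (x k m) - (g - f k) (x k m) := by simp
    rw [h5]
    refine (norm_sub_le _ _).trans ?_
    gcongr
    exact ((g - f k).le_opNorm _).trans (mul_le_of_le_one_right (norm_nonneg _) (hx1 k m).le)
  have h6 : ‖g‖ ≤ ‖f k‖ + ‖g - f k‖ := by
    calc ‖g‖ = ‖f k + (g - f k)‖ := by rw [add_sub_cancel]
      _ ≤ _ := norm_add_le _ _
  linarith

/-- sampling operator -/
noncomputable def samp {P : Type u} [NormedAddCommGroup P] [NormedSpace 𝕜 P] (p : ℕ → P)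
    (hp : ∀ n, ‖p n‖ ≤ 1) : StrongDual 𝕜 P →L[𝕜] BoundedContinuousFunction ℕ 𝕜 :=
  LinearMap.mkContinuous
    { toFun := fun f => BoundedContinuousFunction.ofNormedAddCommGroupDiscrete
        (fun n => f (p n)) ‖f‖
        (fun n => (f.le_opNorm _).trans (mul_le_of_le_one_right (norm_nonneg _) (hp n)))
      map_add' := fun f g => by ext n; simp
      map_smul' := fun c f => by ext n; simp } 1 (fun f => by
        rw [one_mul]
        refine (BoundedContinuousFunction.norm_le (norm_nonneg _)).2 fun n => ?_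
        exact (f.le_opNorm _).trans (mul_le_of_le_one_right (norm_nonneg _) (hp n)))

lemma samp_apply {P : Type u} [NormedAddCommGroup P] [NormedSpace 𝕜 P] (p : ℕ → P)
    (hp : ∀ n, ‖p n‖ ≤ 1) (f : StrongDual 𝕜 P) (n : ℕ) : samp p hp f n = f (p n) := rfl

lemma norm_samp_le {P : Type u} [NormedAddCommGroup P] [NormedSpace 𝕜 P] (p : ℕ → P)
    (hp : ∀ n, ‖p n‖ ≤ 1) (f : StrongDual 𝕜 P) : ‖samp p hp f‖ ≤ ‖f‖ := by
  refine (BoundedContinuousFunction.norm_le (norm_nonneg _)).2 fun n => ?_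
  exact (f.le_opNorm _).trans (mul_le_of_le_one_right (norm_nonneg _) (hp n))

/-- Hahn–Banach with control through a norming sequence -/
lemma hb {P : Type u} [NormedAddCommGroup P] [NormedSpace 𝕜 P]
    (S : Submodule 𝕜 (StrongDual 𝕜 P)) (p : ℕ → P) (hp : ∀ n, ‖p n‖ ≤ 1)
    (hn : ∀ f ∈ S, ∀ c : ℝ, (∀ n, ‖f (p n)‖ ≤ c) → ‖f‖ ≤ c)
    (θ : StrongDual 𝕜 (StrongDual 𝕜 P)) :
    ∃ Ψ : StrongDual 𝕜 (StrongDual 𝕜 P), (∀ f ∈ S, Ψ f = θ f) ∧
      ∀ f, ∀ c : ℝ, (∀ n, ‖f (p n)‖ ≤ c) → ‖Ψ f‖ ≤ ‖θ‖ * c := by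
  let ρS : S →ₗᵢ[𝕜] BoundedContinuousFunction ℕ 𝕜 :=
    { toLinearMap := (samp p hp).toLinearMap.comp S.subtype
      norm_map' := fun f => by
        apply le_antisymm (norm_samp_le p hp f.1)
        exact hn f.1 f.2 _ (fun n => (samp p hp f.1).norm_coe_le_norm n) }
  let g : StrongDual 𝕜 ρS.range :=
    (θ.comp S.subtypeL).comp (ρS.equivRange.symm.toContinuousLinearEquiv : _ →L[𝕜] S)
  have hg : ‖g‖ ≤ ‖θ‖ := by
    apply ContinuousLinearMap.opNorm_le_bound _ (norm_nonneg _)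
    intro x
    refine (θ.le_opNorm _).trans ?_
    gcongr
    exact (ρS.equivRange.symm.norm_map x).le
  obtain ⟨G, hG, hGn⟩ := exists_extension_norm_eq ρS.range g
  refine ⟨G.comp (samp p hp), ?_, ?_⟩
  · intro f hf
    have h1 := hG (ρS.equivRange ⟨f, hf⟩)
    have h2 : g (ρS.equivRange ⟨f, hf⟩) = θ f := by
      show θ (ρS.equivRange.symm (ρS.equivRange ⟨f, hf⟩) : StrongDual 𝕜 P) = θ f
      rw [LinearIsometryEquiv.symm_apply_apply]
    rw [h2] at h1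
    exact h1
  · intro f c hc
    have hc0 : 0 ≤ c := (norm_nonneg _).trans (hc 0)
    have h1 : ‖samp p hp f‖ ≤ c := (BoundedContinuousFunction.norm_le hc0).2 hc
    calc ‖G (samp p hp f)‖ ≤ ‖G‖ * ‖samp p hp f‖ := G.le_opNorm _
      _ ≤ ‖θ‖ * c := by
        rw [hGn]
        gcongr

/-- factorisation through a quotient map -/
lemma factor {E : Type u} [NormedAddCommGroup E] [NormedSpace 𝕜 E]
    {X : Type v} [NormedAddCommGroup X] [NormedSpace 𝕜 X]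
    {F : Type w} [NormedAddCommGroup F] [NormedSpace 𝕜 F]
    (q : E →L[𝕜] X) {C : ℝ} (hC : 0 ≤ C) (hq : ∀ x, ∃ w, q w = x ∧ ‖w‖ ≤ C * ‖x‖)
    (T : E →L[𝕜] F) (hT : ∀ w, q w = 0 → T w = 0) :
    ∃ φ : X →L[𝕜] F, (∀ w, φ (q w) = T w) ∧ ‖φ‖ ≤ C * ‖T‖ := by
  choose r hr1 hr2 using hq
  have key : ∀ w w', q w = q w' → T w = T w' := by
    intro w w' h
    have := hT (w - w') (by rw [map_sub, h, sub_self])
    rw [map_sub, sub_eq_zero] at this
    exact this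
  let φ₀ : X →ₗ[𝕜] F :=
    { toFun := fun x => T (r x)
      map_add' := fun x y => by
        rw [← map_add]
        apply key
        rw [map_add, hr1, hr1, hr1]
      map_smul' := fun c x => by
        rw [RingHom.id_apply, ← map_smul]
        apply key
        rw [map_smul, hr1, hr1] }
  have hb : ∀ x, ‖φ₀ x‖ ≤ (C * ‖T‖) * ‖x‖ := by
    intro x
    calc ‖T (r x)‖ ≤ ‖T‖ * ‖r x‖ := T.le_opNorm _
      _ ≤ ‖T‖ * (C * ‖x‖) := by gcongr; exact hr2 x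
      _ = (C * ‖T‖) * ‖x‖ := by ring
  refine ⟨φ₀.mkContinuous (C * ‖T‖) hb, ?_, ?_⟩
  · intro w
    exact key _ _ (hr1 _)
  · exact LinearMap.mkContinuous_norm_le _ (by positivity) _

/-- distance to a span through annihilating functionals -/
lemma exists_near {Y : Type u} [NormedAddCommGroup Y] [NormedSpace 𝕜 Y] (S : Set Y) (y : Y)
    {ε ε' : ℝ} (hε : ε < ε')
    (h : ∀ f : StrongDual 𝕜 Y, (∀ s ∈ S, f s = 0) → ‖f‖ ≤ 1 → ‖f y‖ ≤ ε) :
    ∃ z ∈ Submodule.span 𝕜 S, ‖y - z‖ < ε' := by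
  obtain ⟨g, hg1, hg2⟩ := exists_dual_vector'' 𝕜
    (Submodule.Quotient.mk y : Y ⧸ (Submodule.span 𝕜 S))
  have hle : ∀ x : Y, ‖(Submodule.Quotient.mk x : Y ⧸ (Submodule.span 𝕜 S))‖ ≤ ‖x‖ :=
    fun x => Submodule.Quotient.norm_mk_le _ x
  let f : StrongDual 𝕜 Y := (g.toLinearMap.comp (Submodule.span 𝕜 S).mkQ).mkContinuous 1
    (fun x => by
      calc ‖g ((Submodule.span 𝕜 S).mkQ x)‖ ≤ ‖g‖ * ‖(Submodule.span 𝕜 S).mkQ x‖ :=
            g.le_opNorm _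
        _ ≤ 1 * ‖x‖ := by gcongr; exact hle x)
  have hf : ∀ x, f x = g (Submodule.Quotient.mk x) := fun x => rfl
  have h1 := h f (fun s hs => by
    rw [hf, (Submodule.Quotient.mk_eq_zero _).2 (Submodule.subset_span hs), map_zero])
    (LinearMap.mkContinuous_norm_le _ zero_le_one _)
  rw [hf, hg2] at h1
  simp only [RCLike.norm_ofReal, abs_norm] at h1
  obtain ⟨m, hm1, hm2⟩ := Submodule.Quotient.norm_mk_lt
    (Submodule.Quotient.mk y : Y ⧸ (Submodule.span 𝕜 S)) (sub_pos.2 hε)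
  refine ⟨y - m, ?_, ?_⟩
  · rw [← Submodule.Quotient.mk_eq_zero, Submodule.Quotient.mk_sub, hm1, sub_self]
  · rw [sub_sub_cancel]
    linarith

/-- membership in the biannihilator of `S` -/
def InBi {Y : Type u} [NormedAddCommGroup Y] [NormedSpace 𝕜 Y] (S : Set Y)
    (w : StrongDual 𝕜 (StrongDual 𝕜 Y)) : Prop :=
  ∀ f : StrongDual 𝕜 Y, (∀ s ∈ S, f s = 0) → w f = 0

/-- countably determined elements of the bidual -/
def Cd {Y : Type u} [NormedAddCommGroup Y] [NormedSpace 𝕜 Y]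
    (w : StrongDual 𝕜 (StrongDual 𝕜 Y)) : Prop :=
  ∃ S : Set Y, S.Countable ∧ InBi S w

/-- `N` contains a norming sequence for the span of `G` -/
def Norming {Y : Type u} [NormedAddCommGroup Y] [NormedSpace 𝕜 Y] (N : Set Y)
    (G : Set (StrongDual 𝕜 Y)) : Prop :=
  ∃ p : ℕ → Y, (∀ n, p n ∈ N) ∧ (∀ n, ‖p n‖ ≤ 1) ∧
    ∀ f ∈ Submodule.span 𝕜 G, ∀ c : ℝ, (∀ n, ‖f (p n)‖ ≤ c) → ‖f‖ ≤ c

section
variable {Y : Type u} [NormedAddCommGroup Y] [NormedSpace 𝕜 Y]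

lemma InBi.mono {S S' : Set Y} (h : S ⊆ S') {w : StrongDual 𝕜 (StrongDual 𝕜 Y)}
    (hw : InBi S w) : InBi S' w := fun f hf => hw f fun s hs => hf s (h hs)

lemma Norming.mono {N N' : Set Y} {G : Set (StrongDual 𝕜 Y)} (hN : N ⊆ N')
    (h : Norming N G) : Norming N' G := by
  obtain ⟨p, h1, h2, h3⟩ := h
  exact ⟨p, fun n => hN (h1 n), h2, h3⟩

lemma exists_normingSet (G : Set (StrongDual 𝕜 Y)) (hG : G.Countable) :
    ∃ N : Set Y, N.Countable ∧ Norming N G := by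
  obtain ⟨p, hp1, hp2⟩ := exists_norming (Submodule.span 𝕜 G : Set (StrongDual 𝕜 Y))
    hG.isSeparable.span
  exact ⟨range p, countable_range p, p, fun n => mem_range_self n, hp1, hp2⟩

lemma Norming.iUnion {N : ℕ → Set Y} {G : ℕ → Set (StrongDual 𝕜 Y)} (hG : Monotone G)
    (h : ∀ k, Norming (N k) (G k)) : Norming (⋃ k, N k) (⋃ k, G k) := by
  choose p h1 h2 h3 using h
  refine ⟨fun n => p n.unpair.1 n.unpair.2, fun n => mem_iUnion.2 ⟨_, h1 _ _⟩, fun n => h2 _ _, ?_⟩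
  intro f hf c hc
  rw [Submodule.span_iUnion, Submodule.mem_iSup_of_directed] at hf
  · obtain ⟨k, hk⟩ := hf
    apply h3 k f hk c
    intro n
    have := hc (Nat.pair k n)
    simpa using this
  · intro i j
    exact ⟨max i j, Submodule.span_mono (hG (le_max_left i j)),
      Submodule.span_mono (hG (le_max_right i j))⟩

/-- Lemma B -/
lemma lemB {N : Set Y} {G : Set (StrongDual 𝕜 Y)} (h : Norming N G)
    (θ : StrongDual 𝕜 (StrongDual 𝕜 Y)) :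
    ∃ z : StrongDual 𝕜 (StrongDual 𝕜 Y), InBi N z ∧ ∀ g ∈ G, z g = θ g := by
  obtain ⟨p, h1, h2, h3⟩ := h
  obtain ⟨Ψ, hΨ1, hΨ2⟩ := hb (Submodule.span 𝕜 G) p h2 h3 θ
  refine ⟨Ψ, ?_, fun g hg => hΨ1 g (Submodule.subset_span hg)⟩
  intro f hf
  have := hΨ2 f 0 (fun n => by rw [hf _ (h1 n), norm_zero])
  rw [mul_zero] at this
  exact norm_le_zero_iff.1 this

/-- Lemma A -/
lemma lemA {X : Type v} [NormedAddCommGroup X] [NormedSpace 𝕜 X]
    (q : StrongDual 𝕜 (StrongDual 𝕜 Y) →L[𝕜] X) {C : ℝ} (hC : 0 ≤ C)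
    (hq : ∀ x, ∃ w, q w = x ∧ ‖w‖ ≤ C * ‖x‖)
    (hker : ∀ w, q w = 0 ↔ w ∈ range (NormedSpace.inclusionInDoubleDual 𝕜 Y))
    (D : Set X) (hD : D.Countable)
    (hDcd : ∀ d ∈ D, ∃ w : StrongDual 𝕜 (StrongDual 𝕜 Y), Cd w ∧ q w = d)
    (Φ : StrongDual 𝕜 X) :
    ∃ φ : StrongDual 𝕜 X, ‖φ‖ ≤ C * (2 * (‖Φ‖ * ‖q‖)) ∧ (∀ d ∈ D, φ d = Φ d) ∧
      ∃ G : Set (StrongDual 𝕜 Y), G.Countable ∧
        ∀ w : StrongDual 𝕜 (StrongDual 𝕜 Y), (∀ g ∈ G, w g = 0) → φ (q w) = 0 := by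
  classical
  choose! wd hcd hwd using hDcd
  choose! Sd hSdc hSd using hcd
  set S : Set Y := ⋃ d ∈ D, Sd d with hS
  have hSc : S.Countable := hD.biUnion fun d hd => hSdc d hd
  let J := NormedSpace.inclusionInDoubleDual 𝕜 Y
  set A : Set (StrongDual 𝕜 (StrongDual 𝕜 Y)) := (wd '' D) ∪ (J '' S) with hA
  have hAc : A.Countable := (hD.image _).union (hSc.image _)
  obtain ⟨p, hp1, hp2⟩ := exists_norming (P := StrongDual 𝕜 Y)
    (Submodule.span 𝕜 A : Set (StrongDual 𝕜 (StrongDual 𝕜 Y))) hAc.isSeparable.span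
  obtain ⟨Ψ, hΨ1, hΨ2⟩ := hb (P := StrongDual 𝕜 Y) (Submodule.span 𝕜 A) p hp1 hp2 (Φ.comp q)
  have hΨn : ‖Ψ‖ ≤ ‖Φ.comp q‖ := by
    apply ContinuousLinearMap.opNorm_le_bound _ (norm_nonneg _)
    intro f
    apply hΨ2
    intro n
    exact (f.le_opNorm _).trans (mul_le_of_le_one_right (norm_nonneg _) (hp1 n))
  have hΦq : ‖Φ.comp q‖ ≤ ‖Φ‖ * ‖q‖ := ContinuousLinearMap.opNorm_comp_le _ _
  let ys : StrongDual 𝕜 Y := Ψ.comp J
  have hysn : ‖ys‖ ≤ ‖Ψ‖ := by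
    apply ContinuousLinearMap.opNorm_le_bound _ (norm_nonneg _)
    intro y
    refine (Ψ.le_opNorm _).trans ?_
    gcongr
    exact NormedSpace.double_dual_bound 𝕜 Y y
  have hys : ∀ s ∈ S, ys s = 0 := by
    intro s hs
    have h1 : Ψ (J s) = (Φ.comp q) (J s) :=
      hΨ1 _ (Submodule.subset_span (Or.inr ⟨s, hs, rfl⟩))
    have h2 : q (J s) = 0 := (hker _).2 ⟨s, rfl⟩
    show Ψ (J s) = 0
    rw [h1]
    show Φ (q (J s)) = 0
    rw [h2, map_zero]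
  let T : StrongDual 𝕜 (StrongDual 𝕜 (StrongDual 𝕜 Y)) :=
    Ψ - NormedSpace.inclusionInDoubleDual 𝕜 (StrongDual 𝕜 Y) ys
  have hT : ∀ w, T w = Ψ w - w ys := fun w => rfl
  have hTn : ‖T‖ ≤ 2 * (‖Φ‖ * ‖q‖) := by
    have h1 : ‖NormedSpace.inclusionInDoubleDual 𝕜 (StrongDual 𝕜 Y) ys‖ ≤ ‖ys‖ :=
      NormedSpace.double_dual_bound 𝕜 _ ys
    calc ‖T‖ ≤ ‖Ψ‖ + ‖NormedSpace.inclusionInDoubleDual 𝕜 (StrongDual 𝕜 Y) ys‖ := norm_sub_le _ _
      _ ≤ 2 * (‖Φ‖ * ‖q‖) := by linarith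
  have hTker : ∀ w, q w = 0 → T w = 0 := by
    intro w hw
    obtain ⟨y, rfl⟩ := (hker w).1 hw
    rw [hT]
    show Ψ (J y) - ys y = 0
    exact sub_self _
  obtain ⟨φ, hφ1, hφ2⟩ := factor q hC hq T hTker
  refine ⟨φ, ?_, ?_, range p ∪ {ys}, (countable_range p).union (countable_singleton _), ?_⟩
  · refine hφ2.trans ?_
    gcongr
  · intro d hd
    rw [← hwd d hd, hφ1, hT]
    have h1 : Ψ (wd d) = (Φ.comp q) (wd d) :=
      hΨ1 _ (Submodule.subset_span (Or.inl ⟨d, hd, rfl⟩))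
    have h2 : (wd d) ys = 0 := by
      apply hSd d hd
      intro s hs
      exact hys s (mem_biUnion hd hs)
    rw [h1, h2, sub_zero]
    rfl
  · intro w hw
    rw [hφ1, hT]
    have h1 : w ys = 0 := hw ys (Or.inr rfl)
    have h2 : ‖Ψ w‖ ≤ ‖Φ.comp q‖ * 0 := hΨ2 w 0 (fun n => by
      rw [hw (p n) (Or.inl ⟨n, rfl⟩), norm_zero])
    rw [mul_zero] at h2
    rw [h1, norm_le_zero_iff.1 h2, sub_zero]

end

end BidQ
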