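import Mathlib
set_option maxSynthPendingDepth 3
set_option autoImplicit false
open Set Filter Topology

namespace BidQ
variable {𝕜 : Type} [RCLike 𝕜]

/-- branches of the dyadic tree -/
abbrev Br : Type := ℕ → Bool

/-- code of the node `b|k` -/
def nd (b : Br) (k : ℕ) : ℕ := Encodable.encode ((List.range k).map b)

/-- bounded sequences -/
abbrev L (𝕜 : Type) [RCLike 𝕜] : Type := BoundedContinuousFunction ℕ 𝕜

open Classical in
/-- indicator function of a set of natural numbers as an element of `L` -/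
noncomputable def ind (𝕜 : Type) [RCLike 𝕜] (S : Set ℕ) : L 𝕜 :=
  BoundedContinuousFunction.ofNormedAddCommGroupDiscrete (fun n => if n ∈ S then (1 : 𝕜) else 0) 1
    (fun n => by split_ifs <;> simp)

open Classical in
lemma ind_apply (S : Set ℕ) (n : ℕ) : ind 𝕜 S n = if n ∈ S then 1 else 0 := rfl

/-- unit vectors -/
noncomputable def e (𝕜 : Type) [RCLike 𝕜] (n : ℕ) : L 𝕜 := ind 𝕜 {n}

/-- indicators of branches -/
noncomputable def ch (𝕜 : Type) [RCLike 𝕜] (b : Br) : L 𝕜 := ind 𝕜 (range (nd b))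

/-- the space `X_B` as a subspace of `ℓ_∞` -/
noncomputable def XB (𝕜 : Type) [RCLike 𝕜] (B : Set Br) : Submodule 𝕜 (L 𝕜) :=
  (Submodule.span 𝕜 (range (e 𝕜) ∪ ch 𝕜 '' B)).topologicalClosure

end BidQ

/-! TARGETS: prove everything below this line -/
namespace BidQ
variable {𝕜 : Type} [RCLike 𝕜]

/-- TARGETS: prove all of the following. -/
theorem nd_inj {b b' : Br} {k k' : ℕ} (h : nd b k = nd b' k') : k = k' ∧ ∀ i < k, b i = b' i := by
  have h1 : (List.range k).map b = (List.range k').map b' := Encodable.encode_injective h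
  have h2 : k = k' := by
    have := congrArg List.length h1
    simpa using this
  subst h2
  refine ⟨rfl, fun i hi => ?_⟩
  exact List.map_inj_left.1 h1 i (List.mem_range.2 hi)

theorem nd_injective (b : Br) : Function.Injective (nd b) := fun _ _ h => (nd_inj h).1

theorem nd_disj {b b' : Br} (h : b ≠ b') : ∃ m, ∀ k ≥ m, ∀ k', nd b k ≠ nd b' k' := by
  obtain ⟨i, hi⟩ := Function.ne_iff.1 h
  exact ⟨i + 1, fun k hk k' hkk => hi ((nd_inj hkk).2 i (by omega))⟩

/-- limit along a branch (along a free ultrafilter) -/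
theorem exists_ab (b : Br) : ∃ a : StrongDual 𝕜 (L 𝕜), ‖a‖ ≤ 1 ∧
    ∀ x : L 𝕜, Tendsto (fun k => x (nd b k)) (Filter.hyperfilter ℕ : Filter ℕ) (𝓝 (a x)) := by
  have hex : ∀ x : L 𝕜, ∃ l : 𝕜,
      Tendsto (fun k => x (nd b k)) (Filter.hyperfilter ℕ : Filter ℕ) (𝓝 l) := by
    intro x
    obtain ⟨l, _, hl⟩ := (isCompact_closedBall (0 : 𝕜) ‖x‖).ultrafilter_le_nhds
      ((Filter.hyperfilter ℕ).map (fun k => x (nd b k))) (by
        rw [Filter.le_principal_iff, Ultrafilter.coe_map, Filter.mem_map]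
        refine Filter.univ_mem' fun k => ?_
        simp only [mem_preimage, mem_closedBall_zero_iff]
        exact x.norm_coe_le_norm _)
    exact ⟨l, hl⟩
  choose A hA using hex
  let F : L 𝕜 →ₗ[𝕜] 𝕜 :=
    { toFun := A
      map_add' := fun x y => tendsto_nhds_unique (hA (x + y)) ((hA x).add (hA y))
      map_smul' := fun c x => tendsto_nhds_unique (hA (c • x)) ((hA x).const_smul c) }
  refine ⟨F.mkContinuous 1 (fun x => ?_), LinearMap.mkContinuous_norm_le _ zero_le_one _, hA⟩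
  rw [one_mul]
  exact le_of_tendsto (hA x).norm (Filter.Eventually.of_forall fun k => x.norm_coe_le_norm _)

noncomputable def ab (𝕜 : Type) [RCLike 𝕜] (b : Br) : StrongDual 𝕜 (L 𝕜) :=
  Classical.choose (exists_ab b)

theorem norm_ab_le (b : Br) : ‖ab 𝕜 b‖ ≤ 1 := (Classical.choose_spec (exists_ab (𝕜 := 𝕜) b)).1

theorem tendsto_ab (b : Br) (x : L 𝕜) :
    Tendsto (fun k => x (nd b k)) (Filter.hyperfilter ℕ : Filter ℕ) (𝓝 (ab 𝕜 b x)) :=
  (Classical.choose_spec (exists_ab (𝕜 := 𝕜) b)).2 x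

theorem ab_e (b : Br) (n : ℕ) : ab 𝕜 b (e 𝕜 n) = 0 := by
  refine tendsto_nhds_unique (tendsto_ab b (e 𝕜 n)) ?_
  refine (tendsto_const_nhds (x := (0 : 𝕜))).congr' ?_
  have hfin : {k | nd b k = n}.Finite :=
    Set.Subsingleton.finite fun x hx y hy => nd_injective b (hx.trans hy.symm)
  have hmem : {k | nd b k = n}ᶜ ∈ (Filter.hyperfilter ℕ : Filter ℕ) :=
    Filter.hyperfilter_le_cofinite hfin.compl_mem_cofinite
  filter_upwards [hmem] with k hk
  rw [e, ind_apply, if_neg]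
  exact hk

open Classical in
theorem ab_ch (b b' : Br) : ab 𝕜 b (ch 𝕜 b') = if b = b' then 1 else 0 := by
  refine tendsto_nhds_unique (tendsto_ab b (ch 𝕜 b')) ?_
  by_cases h : b = b'
  · subst h
    rw [if_pos rfl]
    refine (tendsto_const_nhds (x := (1 : 𝕜))).congr fun k => ?_
    rw [ch, ind_apply, if_pos ⟨k, rfl⟩]
  · rw [if_neg h]
    refine (tendsto_const_nhds (x := (0 : 𝕜))).congr' ?_
    obtain ⟨m, hm⟩ := nd_disj h
    have hmem : {k | k < m}ᶜ ∈ (Filter.hyperfilter ℕ : Filter ℕ) :=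
      Filter.hyperfilter_le_cofinite (Set.finite_lt_nat m).compl_mem_cofinite
    filter_upwards [hmem] with k hk
    rw [ch, ind_apply, if_neg]
    rintro ⟨k', hk'⟩
    have hk2 : ¬ k < m := hk
    exact hm k (not_lt.1 hk2) k' hk'.symm

theorem ab_eq_zero {B : Set Br} {b : Br} (hb : b ∉ B) {x : L 𝕜} (hx : x ∈ XB 𝕜 B) :
    ab 𝕜 b x = 0 := by
  have hle : XB 𝕜 B ≤ LinearMap.ker (ab 𝕜 b : L 𝕜 →ₗ[𝕜] 𝕜) := by
    refine Submodule.topologicalClosure_minimal _ ?_ ?_
    · rw [Submodule.span_le]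
      rintro _ (⟨n, rfl⟩ | ⟨b', hb', rfl⟩)
      · exact ab_e b n
      · show ab 𝕜 b (ch 𝕜 b') = 0
        rw [ab_ch, if_neg]
        rintro rfl
        exact hb hb'
    · exact (ab 𝕜 b).isClosed_ker
  exact hle hx

theorem aux663_fin {y : L 𝕜} (hy : y ∈ Submodule.span 𝕜 (range (e 𝕜) ∪ ch 𝕜 '' univ)) :
    {b : Br | ab 𝕜 b y ≠ 0}.Finite := by
  induction hy using Submodule.span_induction with
  | mem x hx =>
    rcases hx with ⟨n, rfl⟩ | ⟨b', _, rfl⟩
    · refine Set.Finite.subset Set.finite_empty fun b hb => hb (ab_e b n)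
    · refine Set.Finite.subset (Set.finite_singleton b') fun b hb => ?_
      by_contra hne
      apply hb
      have hne' : b ≠ b' := fun h => hne h
      rw [ab_ch, if_neg hne']
  | zero => refine Set.Finite.subset Set.finite_empty fun b hb => hb (map_zero _)
  | add x y _ _ hx hy =>
    refine (hx.union hy).subset fun b hb => ?_
    by_contra hne
    rw [Set.mem_union, not_or] at hne
    have h1 : ab 𝕜 b x = 0 := by_contra fun h => hne.1 h
    have h2 : ab 𝕜 b y = 0 := by_contra fun h => hne.2 h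
    apply hb
    rw [map_add, h1, h2, add_zero]
  | smul c x _ hx =>
    refine hx.subset fun b hb h => hb ?_
    rw [map_smul, h, smul_zero]

theorem finite_big {x : L 𝕜} (hx : x ∈ XB 𝕜 univ) {ε : ℝ} (hε : 0 < ε) :
    {b : Br | ε ≤ ‖ab 𝕜 b x‖}.Finite := by
  have hx' : x ∈ closure ((Submodule.span 𝕜 (range (e 𝕜) ∪ ch 𝕜 '' univ) : Submodule 𝕜 (L 𝕜)) :
    Set (L 𝕜)) := hx
  obtain ⟨y, hy, hxy⟩ := Metric.mem_closure_iff.1 hx' ε hε
  refine (aux663_fin hy).subset fun b hb h0 => ?_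
  have hb' : ε ≤ ‖ab 𝕜 b x‖ := hb
  have h1 : ab 𝕜 b x = ab 𝕜 b (x - y) := by rw [map_sub, h0, sub_zero]
  have h2 : ‖ab 𝕜 b (x - y)‖ ≤ 1 * ‖x - y‖ :=
    (ContinuousLinearMap.le_opNorm _ _).trans
      (mul_le_mul_of_nonneg_right (norm_ab_le b) (norm_nonneg _))
  rw [dist_eq_norm] at hxy
  rw [h1] at hb'
  linarith

theorem countable_supp {x : L 𝕜} (hx : x ∈ XB 𝕜 univ) : {b : Br | ab 𝕜 b x ≠ 0}.Countable := by
  have hsub : {b : Br | ab 𝕜 b x ≠ 0} ⊆ ⋃ n : ℕ, {b : Br | 1 / ((n : ℝ) + 1) ≤ ‖ab 𝕜 b x‖} := by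
    intro b hb
    have hpos : 0 < ‖ab 𝕜 b x‖ := norm_pos_iff.2 hb
    obtain ⟨n, hn⟩ := exists_nat_one_div_lt hpos
    exact mem_iUnion.2 ⟨n, hn.le⟩
  refine Set.Countable.mono hsub (Set.countable_iUnion fun n => ?_)
  exact (finite_big hx (by positivity)).countable

theorem XB_mono {B B' : Set Br} (h : B ⊆ B') : XB 𝕜 B ≤ XB 𝕜 B' :=
  Submodule.topologicalClosure_mono
    (Submodule.span_mono (union_subset_union_right _ (image_mono h)))

theorem ch_mem_iff (B : Set Br) (b : Br) : ch 𝕜 b ∈ XB 𝕜 B ↔ b ∈ B := by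
  constructor
  · intro h
    by_contra hb
    have h1 := ab_eq_zero hb h
    rw [ab_ch, if_pos rfl] at h1
    exact one_ne_zero h1
  · intro hb
    exact Submodule.le_topologicalClosure _ (Submodule.subset_span (Or.inr ⟨b, hb, rfl⟩))

end BidQ
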