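import Pool.Agent.H251.V2
set_option maxSynthPendingDepth 3
set_option autoImplicit false
open Set Filter Topology

namespace BidQ
variable {𝕜 : Type} [RCLike 𝕜]

open Classical in
theorem sum_e_apply (F : Finset ℕ) (c : ℕ → 𝕜) (m : ℕ) :
    (∑ n ∈ F, c n • e 𝕜 n) m = if m ∈ F then c m else 0 := by
  rw [BoundedContinuousFunction.coe_sum, Finset.sum_apply]
  have h1 : ∀ n ∈ F, (c n • e 𝕜 n) m = if m = n then c n else 0 := by
    intro n _
    rw [BoundedContinuousFunction.smul_apply, e, ind_apply, smul_eq_mul]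
    by_cases h : m = n
    · simp [h]
    · simp [h]
  rw [Finset.sum_congr rfl h1]
  simp

theorem norm_sum_e_le (F : Finset ℕ) (c : ℕ → 𝕜) (hc : ∀ n ∈ F, ‖c n‖ ≤ 1) :
    ‖∑ n ∈ F, c n • e 𝕜 n‖ ≤ 1 := by
  classical
  rw [BoundedContinuousFunction.norm_le zero_le_one]
  intro m
  rw [sum_e_apply]
  split_ifs with h
  · exact hc m h
  · simp

/-- the `α`-part of a functional is in `ℓ₁` -/
theorem sum_al_le (φ : StrongDual 𝕜 (L 𝕜)) (F : Finset ℕ) : ∑ n ∈ F, ‖φ (e 𝕜 n)‖ ≤ ‖φ‖ := by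
  have h : ∀ n, ∃ c : 𝕜, ‖c‖ = 1 ∧ (‖φ (e 𝕜 n)‖ : 𝕜) = c * φ (e 𝕜 n) := fun n =>
    RCLike.exists_norm_eq_mul_self _
  choose c hc1 hc2 using h
  have h1 : φ (∑ n ∈ F, c n • e 𝕜 n) = ((∑ n ∈ F, ‖φ (e 𝕜 n)‖ : ℝ) : 𝕜) := by
    rw [map_sum]
    push_cast
    refine Finset.sum_congr rfl fun n _ => ?_
    rw [map_smul, smul_eq_mul]
    exact (hc2 n).symm
  have h2 := φ.le_opNorm (∑ n ∈ F, c n • e 𝕜 n)
  rw [h1] at h2
  have h3 := norm_sum_e_le F c (fun n _ => (hc1 n).le)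
  have h4 : (0 : ℝ) ≤ ∑ n ∈ F, ‖φ (e 𝕜 n)‖ := Finset.sum_nonneg fun _ _ => norm_nonneg _
  rw [RCLike.norm_ofReal, abs_of_nonneg h4] at h2
  calc _ ≤ ‖φ‖ * ‖∑ n ∈ F, c n • e 𝕜 n‖ := h2
    _ ≤ ‖φ‖ * 1 := mul_le_mul_of_nonneg_left h3 (norm_nonneg _)
    _ = ‖φ‖ := mul_one _

theorem summable_al (φ : StrongDual 𝕜 (L 𝕜)) : Summable (fun n => ‖φ (e 𝕜 n)‖) :=
  summable_of_sum_le (fun _ => norm_nonneg _) (sum_al_le φ)

/-- the `β`-part of a functional -/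
noncomputable def be (φ : StrongDual 𝕜 (L 𝕜)) (b : Br) : 𝕜 := φ (ch 𝕜 b) - ∑' k, φ (e 𝕜 (nd b k))

theorem summable_nd (φ : StrongDual 𝕜 (L 𝕜)) (b : Br) : Summable (fun k => φ (e 𝕜 (nd b k))) :=
  (summable_al φ).of_norm.comp_injective (nd_injective b)

/-- tail of a branch -/
noncomputable def tl (𝕜 : Type) [RCLike 𝕜] (b : Br) (N : ℕ) : L 𝕜 :=
  ch 𝕜 b - ∑ k ∈ Finset.range N, e 𝕜 (nd b k)

open Classical in
theorem tl_apply (b : Br) (N n : ℕ) :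
    tl 𝕜 b N n = if ∃ k, N ≤ k ∧ nd b k = n then 1 else 0 := by
  have h1 : (∑ k ∈ Finset.range N, e 𝕜 (nd b k)) n = if ∃ k, k < N ∧ nd b k = n then 1 else 0 := by
    rw [BoundedContinuousFunction.coe_sum, Finset.sum_apply]
    have h1 : ∀ k ∈ Finset.range N, (e 𝕜 (nd b k)) n = if nd b k = n then 1 else 0 := by
      intro k _
      rw [e, ind_apply]
      by_cases h : nd b k = n
      · simp [h]
      · rw [if_neg h, if_neg]
        intro h'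
        exact h h'.symm
    rw [Finset.sum_congr rfl h1]
    by_cases h : ∃ k, k < N ∧ nd b k = n
    · obtain ⟨k, hk, rfl⟩ := h
      rw [if_pos ⟨k, hk, rfl⟩]
      rw [Finset.sum_eq_single_of_mem k (Finset.mem_range.2 hk)]
      · simp
      · intro j _ hj
        rw [if_neg]
        intro h'
        exact hj (nd_injective b h')
    · rw [if_neg h]
      refine Finset.sum_eq_zero fun k hk => ?_
      rw [if_neg]
      intro h'
      exact h ⟨k, Finset.mem_range.1 hk, h'⟩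
  have h2 : tl 𝕜 b N n = ch 𝕜 b n - (∑ k ∈ Finset.range N, e 𝕜 (nd b k)) n := rfl
  rw [h2, h1, ch, ind_apply]
  by_cases hr : n ∈ range (nd b)
  · obtain ⟨k, rfl⟩ := hr
    rw [if_pos ⟨k, rfl⟩]
    by_cases hk : k < N
    · rw [if_pos ⟨k, hk, rfl⟩, if_neg, sub_self]
      rintro ⟨j, hj, hj'⟩
      have := nd_injective b hj'
      omega
    · rw [if_neg, if_pos ⟨k, not_lt.1 hk, rfl⟩, sub_zero]
      rintro ⟨j, hj, hj'⟩
      have := nd_injective b hj'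
      omega
  · rw [if_neg hr, if_neg, if_neg, sub_zero]
    · rintro ⟨j, _, hj'⟩
      exact hr ⟨j, hj'⟩
    · rintro ⟨j, _, hj'⟩
      exact hr ⟨j, hj'⟩

theorem exists_tail_disj (F : Finset Br) : ∃ m, ∀ b ∈ F, ∀ b' ∈ F, b ≠ b' → ∀ k ≥ m, ∀ k',
    nd b k ≠ nd b' k' := by
  classical
  have h : ∀ p : Br × Br, ∃ m, p.1 ≠ p.2 → ∀ k ≥ m, ∀ k', nd p.1 k ≠ nd p.2 k' := by
    intro p
    by_cases hp : p.1 = p.2
    · exact ⟨0, fun h => absurd hp h⟩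
    · obtain ⟨m, hm⟩ := nd_disj hp
      exact ⟨m, fun _ => hm⟩
  choose m hm using h
  refine ⟨(F ×ˢ F).sup m, fun b hb b' hb' hne k hk k' => ?_⟩
  refine hm (b, b') hne k (le_trans ?_ hk) k'
  exact Finset.le_sup (f := m) (Finset.mem_product.2 ⟨hb, hb'⟩)

theorem sum_be_le (φ : StrongDual 𝕜 (L 𝕜)) (F : Finset Br) : ∑ b ∈ F, ‖be φ b‖ ≤ ‖φ‖ := by
  classical
  have h : ∀ b, ∃ c : 𝕜, ‖c‖ = 1 ∧ (‖be φ b‖ : 𝕜) = c * be φ b := fun n =>
    RCLike.exists_norm_eq_mul_self _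
  choose c hc1 hc2 using h
  obtain ⟨m, hm⟩ := exists_tail_disj F
  have hnorm : ∀ N ≥ m, ‖∑ b ∈ F, c b • tl 𝕜 b N‖ ≤ 1 := by
    intro N hN
    rw [BoundedContinuousFunction.norm_le zero_le_one]
    intro n
    rw [BoundedContinuousFunction.coe_sum, Finset.sum_apply]
    by_cases hex : ∃ b ∈ F, ∃ k, N ≤ k ∧ nd b k = n
    · obtain ⟨b, hb, k, hk, hkn⟩ := hex
      rw [Finset.sum_eq_single_of_mem b hb]
      · rw [BoundedContinuousFunction.smul_apply, tl_apply, if_pos ⟨k, hk, hkn⟩, smul_eq_mul, mul_one,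
          hc1]
      · intro b' hb' hne
        rw [BoundedContinuousFunction.smul_apply, tl_apply, if_neg, smul_eq_mul, mul_zero]
        rintro ⟨k', hk', hk'n⟩
        exact hm b hb b' hb' hne.symm k (hN.trans hk) k' (hkn.trans hk'n.symm)
    · rw [Finset.sum_eq_zero]
      · simp
      · intro b hb
        rw [BoundedContinuousFunction.smul_apply, tl_apply, if_neg, smul_eq_mul, mul_zero]
        rintro ⟨k, hk, hkn⟩
        exact hex ⟨b, hb, k, hk, hkn⟩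
  have hval : ∀ N, φ (∑ b ∈ F, c b • tl 𝕜 b N) =
      ∑ b ∈ F, c b * (φ (ch 𝕜 b) - ∑ k ∈ Finset.range N, φ (e 𝕜 (nd b k))) := by
    intro N
    rw [map_sum]
    refine Finset.sum_congr rfl fun b _ => ?_
    rw [map_smul, smul_eq_mul, tl, map_sub, map_sum]
  have hlim : Tendsto (fun N => φ (∑ b ∈ F, c b • tl 𝕜 b N)) atTop
      (𝓝 (∑ b ∈ F, c b * be φ b)) := by
    simp only [hval]
    refine tendsto_finsetSum _ fun b _ => ?_
    refine Tendsto.const_mul _ ?_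
    exact tendsto_const_nhds.sub (summable_nd φ b).hasSum.tendsto_sum_nat
  have hle : ‖∑ b ∈ F, c b * be φ b‖ ≤ ‖φ‖ := by
    refine le_of_tendsto hlim.norm ?_
    filter_upwards [eventually_ge_atTop m] with N hN
    calc ‖φ (∑ b ∈ F, c b • tl 𝕜 b N)‖ ≤ ‖φ‖ * ‖∑ b ∈ F, c b • tl 𝕜 b N‖ := φ.le_opNorm _
      _ ≤ ‖φ‖ * 1 := mul_le_mul_of_nonneg_left (hnorm N hN) (norm_nonneg _)
      _ = ‖φ‖ := mul_one _
  have h1 : ∑ b ∈ F, c b * be φ b = ((∑ b ∈ F, ‖be φ b‖ : ℝ) : 𝕜) := by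
    push_cast
    exact Finset.sum_congr rfl fun b _ => (hc2 b).symm
  have h4 : (0 : ℝ) ≤ ∑ b ∈ F, ‖be φ b‖ := Finset.sum_nonneg fun _ _ => norm_nonneg _
  rwa [h1, RCLike.norm_ofReal, abs_of_nonneg h4] at hle

theorem summable_be (φ : StrongDual 𝕜 (L 𝕜)) : Summable (fun b => ‖be φ b‖) :=
  summable_of_sum_le (fun _ => norm_nonneg _) (sum_be_le φ)

theorem norm_ab_apply_le (b : Br) (x : L 𝕜) : ‖ab 𝕜 b x‖ ≤ ‖x‖ := by
  calc ‖ab 𝕜 b x‖ ≤ ‖ab 𝕜 b‖ * ‖x‖ := (ab 𝕜 b).le_opNorm x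
    _ ≤ 1 * ‖x‖ := mul_le_mul_of_nonneg_right (norm_ab_le b) (norm_nonneg _)
    _ = ‖x‖ := one_mul _

theorem summable_r1 (φ : StrongDual 𝕜 (L 𝕜)) (x : L 𝕜) : Summable (fun n => φ (e 𝕜 n) * x n) := by
  refine Summable.of_norm_bounded ((summable_al φ).mul_right ‖x‖) fun n => ?_
  rw [norm_mul]
  exact mul_le_mul_of_nonneg_left (x.norm_coe_le_norm n) (norm_nonneg _)

theorem summable_r2 (φ : StrongDual 𝕜 (L 𝕜)) (x : L 𝕜) :
    Summable (fun b => be φ b * ab 𝕜 b x) := by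
  refine Summable.of_norm_bounded ((summable_be φ).mul_right ‖x‖) fun b => ?_
  rw [norm_mul]
  exact mul_le_mul_of_nonneg_left (norm_ab_apply_le b x) (norm_nonneg _)

/-- right side of the representation -/
noncomputable def rr (φ : StrongDual 𝕜 (L 𝕜)) : L 𝕜 →ₗ[𝕜] 𝕜 where
  toFun x := ∑' n, φ (e 𝕜 n) * x n + ∑' b, be φ b * ab 𝕜 b x
  map_add' x y := by
    have h1 : ∑' n, φ (e 𝕜 n) * (x + y) n = ∑' n, φ (e 𝕜 n) * x n + ∑' n, φ (e 𝕜 n) * y n := by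
      rw [← (summable_r1 φ x).tsum_add (summable_r1 φ y)]
      refine tsum_congr fun n => ?_
      rw [BoundedContinuousFunction.coe_add, Pi.add_apply, mul_add]
    have h2 : ∑' b, be φ b * ab 𝕜 b (x + y) =
        ∑' b, be φ b * ab 𝕜 b x + ∑' b, be φ b * ab 𝕜 b y := by
      rw [← (summable_r2 φ x).tsum_add (summable_r2 φ y)]
      refine tsum_congr fun b => ?_
      rw [map_add, mul_add]
    rw [h1, h2]
    ring
  map_smul' c x := by
    have h1 : ∑' n, φ (e 𝕜 n) * (c • x) n = c * ∑' n, φ (e 𝕜 n) * x n := by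
      rw [← tsum_mul_left]
      refine tsum_congr fun n => ?_
      rw [BoundedContinuousFunction.smul_apply, smul_eq_mul]
      ring
    have h2 : ∑' b, be φ b * ab 𝕜 b (c • x) = c * ∑' b, be φ b * ab 𝕜 b x := by
      rw [← tsum_mul_left]
      refine tsum_congr fun b => ?_
      rw [map_smul, smul_eq_mul]
      ring
    rw [h1, h2, RingHom.id_apply, smul_eq_mul]
    ring

theorem norm_rr_le (φ : StrongDual 𝕜 (L 𝕜)) (x : L 𝕜) :
    ‖rr φ x‖ ≤ (∑' n, ‖φ (e 𝕜 n)‖ + ∑' b, ‖be φ b‖) * ‖x‖ := by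
  have h1 : ‖∑' n, φ (e 𝕜 n) * x n‖ ≤ (∑' n, ‖φ (e 𝕜 n)‖) * ‖x‖ := by
    rw [← tsum_mul_right]
    refine tsum_of_norm_bounded ((summable_al φ).mul_right ‖x‖).hasSum fun n => ?_
    rw [norm_mul]
    exact mul_le_mul_of_nonneg_left (x.norm_coe_le_norm n) (norm_nonneg _)
  have h2 : ‖∑' b, be φ b * ab 𝕜 b x‖ ≤ (∑' b, ‖be φ b‖) * ‖x‖ := by
    rw [← tsum_mul_right]
    refine tsum_of_norm_bounded ((summable_be φ).mul_right ‖x‖).hasSum fun b => ?_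
    rw [norm_mul]
    exact mul_le_mul_of_nonneg_left (norm_ab_apply_le b x) (norm_nonneg _)
  rw [add_mul]
  exact (norm_add_le _ _).trans (add_le_add h1 h2)

theorem rr_e (φ : StrongDual 𝕜 (L 𝕜)) (n : ℕ) : rr φ (e 𝕜 n) = φ (e 𝕜 n) := by
  classical
  show ∑' m, φ (e 𝕜 m) * e 𝕜 n m + ∑' b, be φ b * ab 𝕜 b (e 𝕜 n) = φ (e 𝕜 n)
  have h1 : ∑' m, φ (e 𝕜 m) * e 𝕜 n m = φ (e 𝕜 n) := by
    rw [tsum_eq_single n]
    · rw [e, ind_apply]; simp
    · intro m hm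
      have : e 𝕜 n m = 0 := by
        rw [e, ind_apply, if_neg]
        exact hm
      rw [this, mul_zero]
  have h2 : ∑' b, be φ b * ab 𝕜 b (e 𝕜 n) = 0 := by
    simp only [ab_e, mul_zero, tsum_zero]
  rw [h1, h2, add_zero]

theorem rr_ch (φ : StrongDual 𝕜 (L 𝕜)) (b' : Br) : rr φ (ch 𝕜 b') = φ (ch 𝕜 b') := by
  classical
  show ∑' m, φ (e 𝕜 m) * ch 𝕜 b' m + ∑' b, be φ b * ab 𝕜 b (ch 𝕜 b') = φ (ch 𝕜 b')
  have h1 : ∑' m, φ (e 𝕜 m) * ch 𝕜 b' m = ∑' k, φ (e 𝕜 (nd b' k)) := by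
    rw [← (nd_injective b').tsum_eq (f := fun m => φ (e 𝕜 m) * ch 𝕜 b' m)]
    · refine tsum_congr fun k => ?_
      rw [ch, ind_apply, if_pos ⟨k, rfl⟩, mul_one]
    · intro m hm
      by_contra hcon
      apply hm
      show φ (e 𝕜 m) * ch 𝕜 b' m = 0
      rw [ch, ind_apply, if_neg hcon, mul_zero]
  have h2 : ∑' b, be φ b * ab 𝕜 b (ch 𝕜 b') = be φ b' := by
    rw [tsum_eq_single b']
    · rw [ab_ch, if_pos rfl, mul_one]
    · intro b hb
      rw [ab_ch, if_neg hb, mul_zero]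
  rw [h1, h2, be]
  ring

/-- representation of functionals on `X_B` -/
theorem rep (φ : StrongDual 𝕜 (L 𝕜)) {x : L 𝕜} (hx : x ∈ XB 𝕜 univ) :
    φ x = ∑' n, φ (e 𝕜 n) * x n + ∑' b, be φ b * ab 𝕜 b x := by
  let R : StrongDual 𝕜 (L 𝕜) := (rr φ).mkContinuous _ (norm_rr_le φ)
  have hR : ∀ x, R x = ∑' n, φ (e 𝕜 n) * x n + ∑' b, be φ b * ab 𝕜 b x := fun x => rfl
  have hR' : ∀ x, R x = rr φ x := fun x => rfl
  let K : Submodule 𝕜 (L 𝕜) := LinearMap.ker ((φ - R : StrongDual 𝕜 (L 𝕜)) : L 𝕜 →ₗ[𝕜] 𝕜)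
  have hK : ∀ x, x ∈ K ↔ φ x = R x := by
    intro x
    rw [LinearMap.mem_ker]
    show (φ x - R x = 0) ↔ _
    exact sub_eq_zero
  have hKc : IsClosed (K : Set (L 𝕜)) := by
    have : (K : Set (L 𝕜)) = {x | φ x = R x} := by
      ext x; exact hK x
    rw [this]
    exact isClosed_eq φ.continuous R.continuous
  have hle : XB 𝕜 univ ≤ K := by
    refine Submodule.topologicalClosure_minimal _ ?_ hKc
    rw [Submodule.span_le]
    rintro y (⟨n, rfl⟩ | ⟨b, _, rfl⟩)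
    · exact (hK _).2 (by rw [hR', rr_e])
    · exact (hK _).2 (by rw [hR', rr_ch])
  rw [← hR]
  exact (hK x).1 (hle hx)

end BidQ
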