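import Pool.Agent.H251.V1
set_option maxSynthPendingDepth 3
set_option autoImplicit false
open Set Filter Topology

namespace BidQ
universe u v w
variable {𝕜 : Type} [RCLike 𝕜]

/-- The property of `X` that makes the reduction work -/
def PropS (𝕜 : Type) [RCLike 𝕜] {X : Type v} [NormedAddCommGroup X] [NormedSpace 𝕜 X]
    (ev : ℕ → StrongDual 𝕜 X) : Prop :=
  ∀ V : Set X, ∃ D ⊆ V, D.Countable ∧ ∀ (φ : ℕ → StrongDual 𝕜 X) (C : ℝ), (∀ n, ‖φ n‖ ≤ C) →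
      (∀ n, ∀ d ∈ D, φ n d = ev n d) →
      TopologicalSpace.IsSeparable {v | v ∈ V ∧ ∀ n, φ n v = 0}

/-- `X` is isomorphic to `Y** / Y` -/
def Rep (𝕜 : Type) [RCLike 𝕜] (X : Type v) [NormedAddCommGroup X] [NormedSpace 𝕜 X]
    (Y : Type u) [NormedAddCommGroup Y] [NormedSpace 𝕜 Y] : Prop :=
  ∃ q : StrongDual 𝕜 (StrongDual 𝕜 Y) →L[𝕜] X, Function.Surjective q ∧
    ∀ w, q w = 0 ↔ w ∈ range (NormedSpace.inclusionInDoubleDual 𝕜 Y)

section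
variable {Y : Type u} [NormedAddCommGroup Y] [NormedSpace 𝕜 Y]

lemma exists_delta (y₂ : StrongDual 𝕜 (StrongDual 𝕜 Y)) (h : ¬ Cd y₂) :
    ∃ c : ℝ, 0 < c ∧ ∀ S : Set Y, S.Countable → ∃ f : StrongDual 𝕜 Y, (∀ s ∈ S, f s = 0) ∧
      ‖f‖ ≤ 1 ∧ c ≤ ‖y₂ f‖ := by
  by_contra hcon
  push Not at hcon
  have h1 : ∀ n : ℕ, ∃ S : Set Y, S.Countable ∧ ∀ f : StrongDual 𝕜 Y, (∀ s ∈ S, f s = 0) →
      ‖f‖ ≤ 1 → ‖y₂ f‖ < 1 / ((n : ℝ) + 1) := fun n => hcon _ (by positivity)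
  choose S hS1 hS2 using h1
  apply h
  refine ⟨⋃ n, S n, countable_iUnion hS1, ?_⟩
  intro f hf
  have h2 : ∀ g : StrongDual 𝕜 Y, (∀ s ∈ ⋃ n, S n, g s = 0) → ‖g‖ ≤ 1 → y₂ g = 0 := by
    intro g hg hg1
    have h3 : ∀ n : ℕ, ‖y₂ g‖ < 1 / ((n : ℝ) + 1) := fun n =>
      hS2 n g (fun s hs => hg s (mem_iUnion.2 ⟨n, hs⟩)) hg1
    by_contra h4
    have h5 : 0 < ‖y₂ g‖ := norm_pos_iff.2 h4
    obtain ⟨n, hn⟩ := exists_nat_one_div_lt h5
    exact absurd (h3 n) (not_lt.2 hn.le)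
  by_cases hf0 : f = 0
  · rw [hf0, map_zero]
  · have hfn : 0 < ‖f‖ := norm_pos_iff.2 hf0
    have h3 := h2 (((‖f‖⁻¹ : ℝ) : 𝕜) • f) (fun s hs => by simp [hf s hs]) (by
      rw [norm_smul, RCLike.norm_ofReal, abs_of_pos (inv_pos.2 hfn), inv_mul_cancel₀ hfn.ne'])
    rw [map_smul, smul_eq_zero] at h3
    rcases h3 with h3 | h3
    · exfalso
      have : (‖f‖⁻¹ : ℝ) = 0 := by exact_mod_cast h3
      exact hfn.ne' (inv_eq_zero.1 this)
    · exact h3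

/-- the recursive construction -/
lemma exists_chain (y₂ : StrongDual 𝕜 (StrongDual 𝕜 Y)) {c : ℝ}
    (hc : ∀ S : Set Y, S.Countable → ∃ f : StrongDual 𝕜 Y, (∀ s ∈ S, f s = 0) ∧
      ‖f‖ ≤ 1 ∧ c ≤ ‖y₂ f‖) (S₀ : Set Y) (hS₀ : S₀.Countable)
    (G₀ : Set (StrongDual 𝕜 Y)) (hG₀ : G₀.Countable) :
    ∃ (S : ℕ → Set Y) (G : ℕ → Set (StrongDual 𝕜 Y)) (f : ℕ → StrongDual 𝕜 Y),
      (∀ k, (S k).Countable) ∧ Monotone S ∧ Monotone G ∧ S 0 = S₀ ∧ G 0 = G₀ ∧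
      (∀ k, ∀ s ∈ S k, f k s = 0) ∧ (∀ k, ‖f k‖ ≤ 1) ∧ (∀ k, c ≤ ‖y₂ (f k)‖) ∧
      (∀ k, f k ∈ G (k + 1)) ∧ ∀ k, Norming (S (k + 1)) (G (k + 1)) := by
  choose! F hF1 hF2 hF3 using hc
  have hN : ∀ G : Set (StrongDual 𝕜 Y), G.Countable → ∃ N : Set Y, N.Countable ∧ Norming N G :=
    exists_normingSet
  choose! N hN1 hN2 using hN
  let St : ℕ → Set Y × Set (StrongDual 𝕜 Y) := fun n => Nat.rec (S₀, G₀)
    (fun _ x => (x.1 ∪ N (insert (F x.1) x.2), insert (F x.1) x.2)) n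
  have hSt : ∀ k, St (k + 1) = ((St k).1 ∪ N (insert (F (St k).1) (St k).2),
      insert (F (St k).1) (St k).2) := fun k => rfl
  have hcount : ∀ k, (St k).1.Countable ∧ (St k).2.Countable := by
    intro k
    induction k with
    | zero => exact ⟨hS₀, hG₀⟩
    | succ k ih =>
      rw [hSt]
      exact ⟨ih.1.union (hN1 _ (ih.2.insert _)), ih.2.insert _⟩
  refine ⟨fun k => (St k).1, fun k => (St k).2, fun k => F (St k).1, fun k => (hcount k).1,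
    ?_, ?_, rfl, rfl, ?_, ?_, ?_, ?_, ?_⟩
  · apply monotone_nat_of_le_succ
    intro k
    rw [hSt]
    exact subset_union_left
  · apply monotone_nat_of_le_succ
    intro k
    rw [hSt]
    exact subset_insert _ _
  · exact fun k => hF1 _ (hcount k).1
  · exact fun k => hF2 _ (hcount k).1
  · exact fun k => hF3 _ (hcount k).1
  · intro k
    show F (St k).1 ∈ (St (k + 1)).2
    rw [hSt]
    exact mem_insert _ _
  · intro k
    show Norming (St (k + 1)).1 (St (k + 1)).2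
    rw [hSt]
    exact (hN2 _ ((hcount k).2.insert _)).mono subset_union_right

variable {X : Type v} [NormedAddCommGroup X] [NormedSpace 𝕜 X]

/-- countably many conditions force countable determination -/
lemma cd_of (q : StrongDual 𝕜 (StrongDual 𝕜 Y) →L[𝕜] X) {C : ℝ} (hC : 0 ≤ C)
    (hq : ∀ x, ∃ w, q w = x ∧ ‖w‖ ≤ C * ‖x‖)
    (hker : ∀ w, q w = 0 ↔ w ∈ range (NormedSpace.inclusionInDoubleDual 𝕜 Y))
    (S₀ : Set Y) (hS₀ : S₀.Countable) (G₀ : Set (StrongDual 𝕜 Y)) (hG₀ : G₀.Countable)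
    (hK : ∀ z : StrongDual 𝕜 (StrongDual 𝕜 Y), Cd z → (∀ g ∈ G₀, z g = 0) → ∀ ε > 0,
      ∃ w : StrongDual 𝕜 (StrongDual 𝕜 Y), InBi S₀ w ∧ ‖q z - q w‖ < ε)
    (y₂ : StrongDual 𝕜 (StrongDual 𝕜 Y)) (hy₂ : ∀ g ∈ G₀, y₂ g = 0) : Cd y₂ := by
  by_contra hcd
  obtain ⟨c, hc0, hc⟩ := exists_delta y₂ hcd
  obtain ⟨S, G, f, h1, h2, h3, h4, h5, h6, h7, h8, h9, h10⟩ := exists_chain y₂ hc S₀ hS₀ G₀ hG₀
  have hnorm : Norming (⋃ k, S k) (⋃ k, G k) := by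
    have := Norming.iUnion (N := fun k => S (k + 1)) (G := fun k => G (k + 1))
      (fun i j hij => h3 (Nat.succ_le_succ hij)) h10
    have e1 : (⋃ k, G (k + 1)) = ⋃ k, G k := by
      apply Subset.antisymm
      · exact iUnion_subset fun k => subset_iUnion G (k + 1)
      · exact iUnion_subset fun k => (h3 (Nat.le_succ k)).trans
          (subset_iUnion (fun k => G (k + 1)) k)
    rw [← e1]
    exact this.mono (iUnion_subset fun k => subset_iUnion S (k + 1))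
  obtain ⟨z, hz1, hz2⟩ := lemB hnorm y₂
  have hzcd : Cd z := ⟨_, countable_iUnion h1, hz1⟩
  have hz0 : ∀ g ∈ G₀, z g = 0 := by
    intro g hg
    rw [hz2 g (mem_iUnion.2 ⟨0, by rw [h5]; exact hg⟩)]
    exact hy₂ g hg
  have hzf : ∀ k, z (f k) = y₂ (f k) := fun k => hz2 _ (mem_iUnion.2 ⟨k + 1, h9 k⟩)
  -- choose ε
  obtain ⟨w, hw1, hw2⟩ := hK z hzcd hz0 (c / (8 * (C + 1))) (by positivity)
  obtain ⟨r, hr1, hr2⟩ := hq (q z - q w)
  have hrn : ‖r‖ ≤ c / 8 := by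
    calc ‖r‖ ≤ C * ‖q z - q w‖ := hr2
      _ ≤ (C + 1) * (c / (8 * (C + 1))) := by
        gcongr
        linarith
      _ = c / 8 := by field_simp
  obtain ⟨y, hy⟩ := (hker (z - w - r)).1 (by rw [map_sub, map_sub, hr1, sub_self])
  have hyf : ∀ g : StrongDual 𝕜 Y, g y = z g - w g - r g := by
    intro g
    have := congrArg (fun T => T g) hy
    exact this
  have hnear := exists_near (⋃ k, S k) y (ε := c / 8) (ε' := c / 4) (by linarith) (by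
    intro g hg hg1
    rw [hyf, hz1 g hg, hw1 g (fun s hs => hg s (mem_iUnion.2 ⟨0, by rw [h4]; exact hs⟩))]
    rw [sub_zero, zero_sub, norm_neg]
    exact (r.le_opNorm _).trans ((mul_le_of_le_one_right (norm_nonneg _) hg1).trans hrn))
  obtain ⟨x, hx, hxy⟩ := hnear
  rw [Submodule.span_iUnion, Submodule.mem_iSup_of_directed] at hx
  · obtain ⟨k, hk⟩ := hx
    have hfx : f k x = 0 := by
      have : Submodule.span 𝕜 (S k) ≤ LinearMap.ker (f k).toLinearMap := by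
        rw [Submodule.span_le]
        intro s hs
        exact h6 k s hs
      exact this hk
    have h11 : z (f k) = f k (y - x) + w (f k) + r (f k) := by
      rw [map_sub, hfx, sub_zero, hyf]; ring
    have h12 : w (f k) = 0 := hw1 _ (fun s hs => h6 k s (h2 (Nat.zero_le k) (by rw [h4]; exact hs)))
    have h13 := h8 k
    rw [← hzf, h11, h12, add_zero] at h13
    have h14 : ‖f k (y - x) + r (f k)‖ ≤ c / 4 + c / 8 := by
      refine (norm_add_le _ _).trans (add_le_add ?_ ?_)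
      · exact ((f k).le_opNorm _).trans ((mul_le_of_le_one_left (norm_nonneg _) (h7 k)).trans hxy.le)
      · exact (r.le_opNorm _).trans ((mul_le_of_le_one_right (norm_nonneg _) (h7 k)).trans hrn)
    linarith
  · intro i j
    exact ⟨max i j, Submodule.span_mono (h2 (le_max_left i j)),
      Submodule.span_mono (h2 (le_max_right i j))⟩

/-- density version of the reduction -/
theorem dense_version (q : StrongDual 𝕜 (StrongDual 𝕜 Y) →L[𝕜] X) {C : ℝ} (hC : 0 ≤ C)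
    (hq : ∀ x, ∃ w, q w = x ∧ ‖w‖ ≤ C * ‖x‖)
    (hker : ∀ w, q w = 0 ↔ w ∈ range (NormedSpace.inclusionInDoubleDual 𝕜 Y))
    (ev : ℕ → StrongDual 𝕜 X) (hev : ∀ n, ‖ev n‖ ≤ 1) (hS : PropS 𝕜 ev) :
    ∃ S₀ : Set Y, S₀.Countable ∧ ∀ x : X, ∀ ε > 0,
      ∃ w : StrongDual 𝕜 (StrongDual 𝕜 Y), InBi S₀ w ∧ ‖x - q w‖ < ε := by
  classical
  set V : Set X := {x | ∃ w : StrongDual 𝕜 (StrongDual 𝕜 Y), Cd w ∧ q w = x} with hV
  obtain ⟨D, hDV, hDc, hDS⟩ := hS V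
  have hA := fun n => lemA q hC hq hker D hDc (fun d hd => hDV hd) (ev n)
  choose φ hφ1 hφ2 G hG1 hG2 using hA
  have hφn : ∀ n, ‖φ n‖ ≤ C * (2 * (1 * ‖q‖)) := by
    intro n
    refine (hφ1 n).trans ?_
    gcongr
    exact hev n
  have hKsep := hDS φ _ hφn hφ2
  obtain ⟨t, htc, htK⟩ := hKsep
  -- countable dense subset inside `K`
  obtain ⟨t', ht'K, ht'c, ht'd⟩ : ∃ t' ⊆ {v | v ∈ V ∧ ∀ n, φ n v = 0}, t'.Countable ∧
      {v | v ∈ V ∧ ∀ n, φ n v = 0} ⊆ closure t' :=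
    TopologicalSpace.IsSeparable.exists_countable_dense_subset ⟨t, htc, htK⟩
  have hlift : ∀ x ∈ t', ∃ (S : Set Y) (w : StrongDual 𝕜 (StrongDual 𝕜 Y)), S.Countable ∧
      InBi S w ∧ q w = x := by
    intro x hx
    obtain ⟨w, ⟨S, hS1, hS2⟩, hw⟩ := (ht'K hx).1
    exact ⟨S, w, hS1, hS2, hw⟩
  choose! Sx wx hSx1 hSx2 hSx3 using hlift
  set G₀ : Set (StrongDual 𝕜 Y) := ⋃ n, G n with hG₀
  have hG₀c : G₀.Countable := countable_iUnion hG1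
  obtain ⟨N, hNc, hN⟩ := exists_normingSet G₀ hG₀c
  set S₀ : Set Y := (⋃ x ∈ t', Sx x) ∪ N with hS₀
  have hS₀c : S₀.Countable := (ht'c.biUnion fun x hx => hSx1 x hx).union hNc
  have hK : ∀ z : StrongDual 𝕜 (StrongDual 𝕜 Y), Cd z → (∀ g ∈ G₀, z g = 0) → ∀ ε > 0,
      ∃ w : StrongDual 𝕜 (StrongDual 𝕜 Y), InBi S₀ w ∧ ‖q z - q w‖ < ε := by
    intro z hz hzG ε hε
    have h1 : q z ∈ {v | v ∈ V ∧ ∀ n, φ n v = 0} :=
      ⟨⟨z, hz, rfl⟩, fun n => hG2 n z (fun g hg => hzG g (mem_iUnion.2 ⟨n, hg⟩))⟩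
    obtain ⟨x, hx, hxd⟩ := Metric.mem_closure_iff.1 (ht'd h1) ε hε
    refine ⟨wx x, (hSx2 x hx).mono ?_, ?_⟩
    · exact (subset_biUnion_of_mem hx).trans subset_union_left
    · rw [hSx3 x hx, ← dist_eq_norm]; exact hxd
  refine ⟨S₀, hS₀c, ?_⟩
  intro x ε hε
  obtain ⟨w, hw, -⟩ := hq x
  obtain ⟨y₀, hy₀1, hy₀2⟩ := lemB hN w
  have h2 : ∀ g ∈ G₀, (w - y₀) g = 0 := by
    intro g hg
    show w g - y₀ g = 0
    rw [hy₀2 g hg, sub_self]
  have h3 := cd_of q hC hq hker S₀ hS₀c G₀ hG₀c hK (w - y₀) h2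
  obtain ⟨w', hw'1, hw'2⟩ := hK _ h3 h2 ε hε
  refine ⟨w' + y₀, ?_, ?_⟩
  · intro f hf
    show w' f + y₀ f = 0
    rw [hw'1 f hf, hy₀1 f (fun s hs => hf s (Or.inr hs)), add_zero]
  · rw [map_sub, hw] at hw'2
    rw [map_add, ← sub_sub, sub_right_comm]
    exact hw'2

end

end BidQ
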