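import Pool.Agent.H251.V3
set_option maxSynthPendingDepth 3
set_option autoImplicit false
open Set Filter Topology

namespace BidQ
variable {𝕜 : Type} [RCLike 𝕜]

theorem lemD {X Z : Type} [TopologicalSpace Z] [SecondCountableTopology Z] (V : Set X)
    (θ : X → Z) :
    ∃ D ⊆ V, D.Countable ∧ ∀ v ∈ V, ∀ O : Set Z, IsOpen O → θ v ∈ O → ∃ d ∈ D, θ d ∈ O := by
  classical
  obtain ⟨s, hs, hd⟩ := TopologicalSpace.exists_countable_dense (θ '' V)
  choose g hg using fun w : (θ '' V) => w.2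
  refine ⟨g '' s, ?_, hs.image g, ?_⟩
  · rintro _ ⟨w, _, rfl⟩
    exact (hg w).1
  · intro v hv O hO hvO
    obtain ⟨w, hw1, hw2⟩ := hd.exists_mem_open (hO.preimage continuous_subtype_val)
      ⟨⟨θ v, v, hv, rfl⟩, hvO⟩
    refine ⟨g w, ⟨w, hw1, rfl⟩, ?_⟩
    rw [(hg w).2]
    exact hw2

theorem ab_norm_le (b : Br) (x : L 𝕜) : ‖ab 𝕜 b x‖ ≤ ‖x‖ := by
  have h := (ab 𝕜 b).le_of_opNorm_le (norm_ab_le b) x
  rwa [one_mul] at h

theorem closeC (V : Set (L 𝕜)) (C : Set Br) : ∃ D ⊆ V, D.Countable ∧ (C.Countable →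
    ∀ v ∈ V, ∀ (F1 : Finset ℕ) (F2 : Finset Br), (↑F2 : Set Br) ⊆ C → ∀ ε : ℝ, 0 < ε →
      ∃ d ∈ D, ‖d‖ ≤ ‖v‖ + 1 ∧ (∀ n ∈ F1, ‖d n - v n‖ < ε) ∧
        ∀ b ∈ F2, ‖ab 𝕜 b d - ab 𝕜 b v‖ < ε) := by
  classical
  by_cases hC : C.Countable
  · haveI : Countable C := hC.to_subtype
    obtain ⟨D, h1, h2, h3⟩ := lemD V (fun v : L 𝕜 =>
      ((‖v‖, fun n => v n, fun b => ab 𝕜 b v) : ℝ × (ℕ → 𝕜) × (C → 𝕜)))
    refine ⟨D, h1, h2, fun _ v hv F1 F2 hF2 ε hε => ?_⟩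
    have hO : IsOpen ({z : ℝ × (ℕ → 𝕜) × (C → 𝕜) | z.1 < ‖v‖ + 1} ∩
        ((⋂ n ∈ F1, {z : ℝ × (ℕ → 𝕜) × (C → 𝕜) | ‖z.2.1 n - v n‖ < ε}) ∩
          ⋂ b ∈ F2.subtype (fun b => b ∈ C),
            {z : ℝ × (ℕ → 𝕜) × (C → 𝕜) | ‖z.2.2 b - ab 𝕜 b v‖ < ε})) := by
      refine (isOpen_lt continuous_fst continuous_const).inter (IsOpen.inter ?_ ?_)
      · refine isOpen_biInter_finset fun n _ => ?_
        exact isOpen_lt (by fun_prop) continuous_const
      · refine isOpen_biInter_finset fun b _ => ?_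
        exact isOpen_lt (by fun_prop) continuous_const
    obtain ⟨d, hd, h4, h5, h6⟩ := h3 v hv _ hO (by
      refine ⟨by show ‖v‖ < ‖v‖ + 1; linarith, ?_, ?_⟩
      · simp only [mem_iInter, mem_setOf_eq]
        intro n _
        rw [sub_self, norm_zero]
        exact hε
      · simp only [mem_iInter, mem_setOf_eq]
        intro b _
        rw [sub_self, norm_zero]
        exact hε)
    refine ⟨d, hd, h4.le, ?_, ?_⟩
    · intro n hn
      simp only [mem_iInter, mem_setOf_eq] at h5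
      exact h5 n hn
    · intro b hb
      simp only [mem_iInter, mem_setOf_eq] at h6
      exact h6 ⟨b, hF2 hb⟩ (by rw [Finset.mem_subtype]; exact hb)
  · exact ⟨∅, empty_subset _, countable_empty, fun h => absurd h hC⟩

theorem closing (V : Set (L 𝕜)) (hV : V ⊆ (XB 𝕜 univ : Set (L 𝕜))) :
    ∃ (D : Set (L 𝕜)) (BD : Set Br), D ⊆ V ∧ D.Countable ∧
      (∀ d ∈ D, ∀ b, b ∉ BD → ab 𝕜 b d = 0) ∧
      ∀ v ∈ V, ∀ (F1 : Finset ℕ) (F2 : Finset Br), (↑F2 : Set Br) ⊆ BD → ∀ ε : ℝ, 0 < ε →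
      ∃ d ∈ D, ‖d‖ ≤ ‖v‖ + 1 ∧ (∀ n ∈ F1, ‖d n - v n‖ < ε) ∧
        ∀ b ∈ F2, ‖ab 𝕜 b d - ab 𝕜 b v‖ < ε := by
  classical
  choose DC hDC1 hDC2 hDC3 using closeC V
  let CC : ℕ → Set Br := fun k => Nat.rec (motive := fun _ => Set Br) ∅
    (fun _ S => S ∪ ⋃ d ∈ DC S, {b | ab 𝕜 b d ≠ 0}) k
  have hCs : ∀ k, CC (k + 1) = CC k ∪ ⋃ d ∈ DC (CC k), {b | ab 𝕜 b d ≠ 0} := fun k => rfl
  have hCcount : ∀ k, (CC k).Countable := by
    intro k
    induction k with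
    | zero => exact countable_empty
    | succ k ih =>
      rw [hCs]
      refine ih.union ((hDC2 (CC k)).biUnion fun d hd => ?_)
      exact countable_supp (hV (hDC1 _ hd))
  have hmono : Monotone CC := monotone_nat_of_le_succ fun k => by
    rw [hCs]
    exact subset_union_left
  refine ⟨⋃ k, DC (CC k), ⋃ k, CC k, iUnion_subset fun k => hDC1 _,
    countable_iUnion fun k => hDC2 _, ?_, ?_⟩
  · intro d hd b hb
    obtain ⟨k, hk⟩ := mem_iUnion.1 hd
    by_contra hne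
    apply hb
    refine mem_iUnion.2 ⟨k + 1, ?_⟩
    rw [hCs]
    exact Or.inr (mem_biUnion hk hne)
  · intro v hv F1 F2 hF2 ε hε
    have h1 : ∀ b : Br, ∃ k, b ∈ F2 → b ∈ CC k := by
      intro b
      by_cases hb : b ∈ F2
      · obtain ⟨k, hk⟩ := mem_iUnion.1 (hF2 hb)
        exact ⟨k, fun _ => hk⟩
      · exact ⟨0, fun h => absurd h hb⟩
    choose kk hkk using h1
    obtain ⟨d, hd, h2⟩ := hDC3 (CC (F2.sup kk)) (hCcount _) v hv F1 F2 (by
      intro b hb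
      exact hmono (Finset.le_sup (f := kk) hb) (hkk b hb)) ε hε
    exact ⟨d, mem_iUnion.2 ⟨_, hd⟩, h2⟩

open Classical in
theorem key_id {D V : Set (L 𝕜)} {BD : Set Br} (hV : V ⊆ (XB 𝕜 univ : Set (L 𝕜))) (hDV : D ⊆ V)
    (hD : ∀ d ∈ D, ∀ b, b ∉ BD → ab 𝕜 b d = 0)
    (happ : ∀ v ∈ V, ∀ (F1 : Finset ℕ) (F2 : Finset Br), (↑F2 : Set Br) ⊆ BD → ∀ ε : ℝ, 0 < ε →
      ∃ d ∈ D, ‖d‖ ≤ ‖v‖ + 1 ∧ (∀ n ∈ F1, ‖d n - v n‖ < ε) ∧
        ∀ b ∈ F2, ‖ab 𝕜 b d - ab 𝕜 b v‖ < ε)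
    (φ : StrongDual 𝕜 (L 𝕜)) (s : ℕ) (hφ : ∀ d ∈ D, φ d = d s) {v : L 𝕜} (hv : v ∈ V) :
    v s = ∑' n, φ (e 𝕜 n) * v n + ∑' b, (if b ∈ BD then be φ b * ab 𝕜 b v else 0) := by
  have h1 : ∀ a : Finset ℕ × Finset Br × ℕ, ∃ d ∈ D, ‖d‖ ≤ ‖v‖ + 1 ∧
      (∀ n ∈ a.1, ‖d n - v n‖ < 1 / ((a.2.2 : ℝ) + 1)) ∧
      ∀ b ∈ a.2.1, b ∈ BD → ‖ab 𝕜 b d - ab 𝕜 b v‖ < 1 / ((a.2.2 : ℝ) + 1) := by
    intro a
    obtain ⟨d, hd, h2, h3, h4⟩ := happ v hv a.1 (a.2.1.filter (fun b => b ∈ BD)) (by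
      intro b hb
      exact (Finset.mem_filter.1 hb).2) (1 / ((a.2.2 : ℝ) + 1)) (by positivity)
    exact ⟨d, hd, h2, h3, fun b hb hb2 => h4 b (Finset.mem_filter.2 ⟨hb, hb2⟩)⟩
  choose d hd hdn hdc hdb using h1
  have hj : Tendsto (fun a : Finset ℕ × Finset Br × ℕ => 1 / ((a.2.2 : ℝ) + 1)) atTop (𝓝 0) := by
    have h2 : Tendsto (fun a : Finset ℕ × Finset Br × ℕ => a.2.2) atTop atTop := by
      rw [← prod_atTop_atTop_eq, ← prod_atTop_atTop_eq]
      exact tendsto_snd.comp tendsto_snd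
    exact tendsto_one_div_add_atTop_nhds_zero_nat.comp h2
  have htn : ∀ n, Tendsto (fun a => d a n) atTop (𝓝 (v n)) := by
    intro n
    rw [tendsto_iff_norm_sub_tendsto_zero]
    refine squeeze_zero' (Eventually.of_forall fun a => norm_nonneg _) ?_ hj
    filter_upwards [eventually_ge_atTop (({n}, ∅, 0) : Finset ℕ × Finset Br × ℕ)] with a ha
    exact (hdc a n (ha.1 (Finset.mem_singleton_self n))).le
  have htb : ∀ b ∈ BD, Tendsto (fun a => ab 𝕜 b (d a)) atTop (𝓝 (ab 𝕜 b v)) := by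
    intro b hb
    rw [tendsto_iff_norm_sub_tendsto_zero]
    refine squeeze_zero' (Eventually.of_forall fun a => norm_nonneg _) ?_ hj
    filter_upwards [eventually_ge_atTop ((∅, {b}, 0) : Finset ℕ × Finset Br × ℕ)] with a ha
    exact (hdb a b (ha.2.1 (Finset.mem_singleton_self b)) hb).le
  have hA : Tendsto (fun a => ∑' n, φ (e 𝕜 n) * d a n) atTop (𝓝 (∑' n, φ (e 𝕜 n) * v n)) := by
    refine tendsto_tsum_of_dominated_convergence (bound := fun n => ‖φ (e 𝕜 n)‖ * (‖v‖ + 1))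
      ((summable_al φ).mul_right _) (fun n => (htn n).const_mul _) (Eventually.of_forall ?_)
    intro a n
    rw [norm_mul]
    exact mul_le_mul_of_nonneg_left (((d a).norm_coe_le_norm n).trans (hdn a)) (norm_nonneg _)
  have hB : Tendsto (fun a => ∑' b, (if b ∈ BD then be φ b * ab 𝕜 b (d a) else 0)) atTop
      (𝓝 (∑' b, (if b ∈ BD then be φ b * ab 𝕜 b v else 0))) := by
    refine tendsto_tsum_of_dominated_convergence (bound := fun b => ‖be φ b‖ * (‖v‖ + 1))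
      ((summable_be φ).mul_right _) ?_ (Eventually.of_forall ?_)
    · intro b
      by_cases hb : b ∈ BD
      · simp only [hb, if_true]
        exact (htb b hb).const_mul _
      · simp only [hb, if_false]
        exact tendsto_const_nhds
    · intro a b
      by_cases hb : b ∈ BD
      · simp only [hb, if_true]
        rw [norm_mul]
        exact mul_le_mul_of_nonneg_left ((ab_norm_le b (d a)).trans (hdn a)) (norm_nonneg _)
      · simp only [hb, if_false, norm_zero]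
        positivity
  have hsum := hA.add hB
  have heq : ∀ a, ∑' n, φ (e 𝕜 n) * d a n +
      ∑' b, (if b ∈ BD then be φ b * ab 𝕜 b (d a) else 0) = d a s := by
    intro a
    rw [← hφ (d a) (hd a), rep φ (hV (hDV (hd a)))]
    congr 1
    refine tsum_congr fun b => ?_
    by_cases hb : b ∈ BD
    · rw [if_pos hb]
    · rw [if_neg hb, hD _ (hd a) b hb, mul_zero]
  simp only [heq] at hsum
  exact tendsto_nhds_unique (htn s) hsum

/-- TARGET -/
theorem propS (V : Set (L 𝕜)) (hV : V ⊆ (XB 𝕜 univ : Set (L 𝕜))) :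
    ∃ D ⊆ V, D.Countable ∧ ∀ (φ : ℕ → StrongDual 𝕜 (L 𝕜)) (C : ℝ), (∀ n, ‖φ n‖ ≤ C) →
      (∀ n, ∀ d ∈ D, φ n d = d n) →
      TopologicalSpace.IsSeparable {v | v ∈ V ∧ ∀ n, φ n v = 0} := by
  classical
  obtain ⟨D, BD, hDV, hDc, hD0, happ⟩ := closing V hV
  refine ⟨D, hDV, hDc, fun φ C hC hφ => ?_⟩
  set K : Set (L 𝕜) := {v | v ∈ V ∧ ∀ n, φ n v = 0} with hK
  have hC0 : 0 ≤ C := (norm_nonneg _).trans (hC 0)
  have hsummab : ∀ (s : ℕ) (x : L 𝕜), Summable fun b => be (φ s) b * ab 𝕜 b x := by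
    intro s x
    refine Summable.of_norm_bounded (g := fun b => ‖be (φ s) b‖ * ‖x‖)
      ((summable_be (φ s)).mul_right _) fun b => ?_
    rw [norm_mul]
    exact mul_le_mul_of_nonneg_left (ab_norm_le b x) (norm_nonneg _)
  have hsummif : ∀ (s : ℕ) (x : L 𝕜),
      Summable fun b => (if b ∈ BD then be (φ s) b * ab 𝕜 b x else 0) := by
    intro s x
    refine Summable.of_norm_bounded (g := fun b => ‖be (φ s) b‖ * ‖x‖)
      ((summable_be (φ s)).mul_right _) fun b => ?_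
    by_cases hb : b ∈ BD
    · rw [if_pos hb, norm_mul]
      exact mul_le_mul_of_nonneg_left (ab_norm_le b x) (norm_nonneg _)
    · rw [if_neg hb, norm_zero]
      positivity
  -- values of the elements of K
  have hval : ∀ v ∈ K, ∀ s, v s =
      ∑' b, ((if b ∈ BD then be (φ s) b * ab 𝕜 b v else 0) - be (φ s) b * ab 𝕜 b v) := by
    intro v hv s
    have h1 := key_id hV hDV hD0 happ (φ s) s (hφ s) hv.1
    have h2 := rep (φ s) (hV hv.1)
    rw [hv.2 s] at h2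
    rw [(hsummif s v).tsum_sub (hsummab s v), h1]
    linear_combination (-1 : 𝕜) * h2
  -- the countable set of branches
  set B2 : Set Br := ⋃ s, {b | be (φ s) b ≠ 0} with hB2
  have hB2c : B2.Countable := by
    refine countable_iUnion fun s => ?_
    have h1 := (summable_be (φ s)).countable_support
    refine h1.mono ?_
    intro b hb
    rw [Function.mem_support]
    exact norm_ne_zero_iff.2 hb
  have hLip : ∀ v ∈ K, ∀ w ∈ K, ∀ M : ℝ, (∀ b ∈ B2, ‖ab 𝕜 b v - ab 𝕜 b w‖ ≤ M) → 0 ≤ M →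
      ‖v - w‖ ≤ C * M := by
    intro v hv w hw M hM hM0
    rw [BoundedContinuousFunction.norm_le (mul_nonneg hC0 hM0)]
    intro s
    rw [BoundedContinuousFunction.coe_sub, Pi.sub_apply, hval v hv s, hval w hw s,
      ← ((hsummif s v).sub (hsummab s v)).tsum_sub ((hsummif s w).sub (hsummab s w))]
    have hbd : ∀ b, ‖((if b ∈ BD then be (φ s) b * ab 𝕜 b v else 0) - be (φ s) b * ab 𝕜 b v) -
        ((if b ∈ BD then be (φ s) b * ab 𝕜 b w else 0) - be (φ s) b * ab 𝕜 b w)‖ ≤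
        ‖be (φ s) b‖ * M := by
      intro b
      by_cases hb : b ∈ BD
      · simp only [hb, if_true, sub_self, norm_zero]
        positivity
      · simp only [hb, if_false, zero_sub]
        have h1 : -(be (φ s) b * ab 𝕜 b v) - -(be (φ s) b * ab 𝕜 b w) =
            -(be (φ s) b * (ab 𝕜 b v - ab 𝕜 b w)) := by ring
        rw [h1, norm_neg, norm_mul]
        by_cases h0 : be (φ s) b = 0
        · rw [h0, norm_zero, zero_mul, zero_mul]
        · exact mul_le_mul_of_nonneg_left (hM b (mem_iUnion.2 ⟨s, h0⟩)) (norm_nonneg _)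
    refine (tsum_of_norm_bounded ((summable_be (φ s)).mul_right M).hasSum hbd).trans ?_
    rw [tsum_mul_right]
    refine mul_le_mul_of_nonneg_right ?_ hM0
    exact (Summable.tsum_le_of_sum_le (summable_be (φ s)) (sum_be_le (φ s))).trans (hC s)
  -- separability
  haveI : Countable B2 := hB2c.to_subtype
  have hE : ∀ (F : Set Br) (δ : ℝ), ∃ E ⊆ {v | v ∈ K ∧ ∀ b ∈ B2, b ∉ F → ‖ab 𝕜 b v‖ < δ},
      E.Countable ∧ ∀ v ∈ {v | v ∈ K ∧ ∀ b ∈ B2, b ∉ F → ‖ab 𝕜 b v‖ < δ},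
        ∀ O : Set (B2 → 𝕜), IsOpen O → (fun b : B2 => ab 𝕜 b v) ∈ O →
          ∃ d ∈ E, (fun b : B2 => ab 𝕜 b d) ∈ O := fun F δ =>
    lemD _ (fun v : L 𝕜 => fun b : B2 => ab 𝕜 b v)
  choose E hE1 hE2 hE3 using hE
  have hdense : ∀ δ : ℝ, 0 < δ → ∃ t : Set (L 𝕜), t.Countable ∧
      ∀ v ∈ K, ∃ w ∈ t, ‖v - w‖ ≤ C * (2 * δ) := by
    intro δ hδ
    refine ⟨⋃ F ∈ {F : Set Br | F.Finite ∧ F ⊆ B2}, E F δ,
      (Set.countable_setOf_finite_subset hB2c).biUnion fun F _ => hE2 F δ, ?_⟩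
    intro v hv
    set F : Set Br := {b | b ∈ B2 ∧ δ ≤ ‖ab 𝕜 b v‖} with hF
    have hFfin : F.Finite := (finite_big (hV hv.1) hδ).subset fun b hb => hb.2
    have hFs : F ⊆ B2 := fun b hb => hb.1
    have hvF : v ∈ {v | v ∈ K ∧ ∀ b ∈ B2, b ∉ F → ‖ab 𝕜 b v‖ < δ} := by
      refine ⟨hv, fun b hb hbF => ?_⟩
      by_contra hcon
      exact hbF ⟨hb, not_lt.1 hcon⟩
    have hO : IsOpen (⋂ b ∈ hFfin.toFinset.subtype (fun b => b ∈ B2),
        {z : B2 → 𝕜 | ‖z b - ab 𝕜 b v‖ < δ}) := by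
      refine isOpen_biInter_finset fun b _ => ?_
      exact isOpen_lt (by fun_prop) continuous_const
    obtain ⟨w, hw, hwO⟩ := hE3 F δ v hvF _ hO (by
      simp only [mem_iInter, mem_setOf_eq]
      intro b _
      rw [sub_self, norm_zero]
      exact hδ)
    refine ⟨w, mem_biUnion (show F ∈ {F : Set Br | F.Finite ∧ F ⊆ B2} from ⟨hFfin, hFs⟩) hw, ?_⟩
    have hwK := hE1 F δ hw
    refine hLip v hv w hwK.1 (2 * δ) ?_ (by positivity)
    intro b hb
    by_cases hbF : b ∈ F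
    · simp only [mem_iInter, mem_setOf_eq] at hwO
      have h1 := hwO ⟨b, hb⟩ (by
        rw [Finset.mem_subtype, Set.Finite.mem_toFinset]
        exact hbF)
      rw [norm_sub_rev] at h1
      linarith
    · have h1 := hvF.2 b hb hbF
      have h2 := hwK.2 b hb hbF
      exact (norm_sub_le _ _).trans (by linarith)
  have hfinal : ∀ ε : ENNReal, 0 < ε → ∃ t : Set (L 𝕜), t.Countable ∧
      K ⊆ ⋃ x ∈ t, Metric.closedEBall x ε := by
    intro ε hε
    by_cases hεt : ε = ⊤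
    · by_cases hne : K.Nonempty
      · obtain ⟨v, hv⟩ := hne
        refine ⟨{v}, countable_singleton v, fun w _ => ?_⟩
        refine mem_biUnion (mem_singleton v) ?_
        rw [hεt]
        rw [Metric.mem_closedEBall]; exact le_top
      · rw [Set.not_nonempty_iff_eq_empty] at hne
        exact ⟨∅, countable_empty, by rw [hne]; exact empty_subset _⟩
    · have hε' : 0 < ε.toReal := ENNReal.toReal_pos hε.ne' hεt
      obtain ⟨t, ht, htd⟩ := hdense (ε.toReal / (2 * (C + 1))) (by positivity)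
      refine ⟨t, ht, fun v hv => ?_⟩
      obtain ⟨w, hw, hvw⟩ := htd v hv
      refine mem_biUnion hw ?_
      rw [Metric.mem_closedEBall, edist_dist, dist_eq_norm]
      rw [ENNReal.ofReal_le_iff_le_toReal hεt]
      refine hvw.trans ?_
      have : C * (2 * (ε.toReal / (2 * (C + 1)))) = (C / (C + 1)) * ε.toReal := by
        field_simp
      rw [this]
      refine mul_le_of_le_one_left hε'.le ?_
      rw [div_le_one (by linarith)]
      linarith
  obtain ⟨t, _, htc, htd⟩ := EMetric.subset_countable_closure_of_almost_dense_set K hfinal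
  exact ⟨t, htc, htd⟩

end BidQ
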