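import Pool.Agent.H251.V3
set_option maxSynthPendingDepth 3
set_option autoImplicit false
open Set Filter Topology

namespace BidQ
variable {𝕜 : Type} [RCLike 𝕜]

theorem aux_card_K : Cardinal.mk 𝕜 ≤ Cardinal.continuum := by
  have h : Function.Injective (fun z : 𝕜 => ((RCLike.re z : ℝ), (RCLike.im z : ℝ))) := by
    intro z w hzw
    simp only [Prod.mk.injEq] at hzw
    exact RCLike.ext hzw.1 hzw.2
  have := Cardinal.mk_le_of_injective h
  rw [Cardinal.mk_prod, Cardinal.lift_id, Cardinal.mk_real, Cardinal.continuum_mul_self] at this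
  exact this

theorem aux_supp (φ : StrongDual 𝕜 (L 𝕜)) : ∃ r : ℕ → Br, ∀ b, be φ b ≠ 0 → b ∈ range r := by
  have hc : {b : Br | be φ b ≠ 0}.Countable := by
    have := (summable_be φ).countable_support
    apply this.mono
    intro b hb
    simpa [Function.mem_support] using hb
  have hc2 : (insert (fun _ => false) {b : Br | be φ b ≠ 0}).Countable := hc.insert _
  obtain ⟨r, hr⟩ := hc2.exists_eq_range (insert_nonempty _ _)
  refine ⟨r, fun b hb => ?_⟩
  rw [← hr]
  exact mem_insert_of_mem _ hb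

noncomputable def ext1 {B : Set Br} (ψ : StrongDual 𝕜 (XB 𝕜 B)) : StrongDual 𝕜 (L 𝕜) :=
  Classical.choose (exists_extension_norm_eq (XB 𝕜 B) ψ)

theorem ext1_spec {B : Set Br} (ψ : StrongDual 𝕜 (XB 𝕜 B)) (x : XB 𝕜 B) :
    ext1 ψ x = ψ x := (Classical.choose_spec (exists_extension_norm_eq (XB 𝕜 B) ψ)).1 x

noncomputable def rrD (φ : StrongDual 𝕜 (L 𝕜)) : ℕ → Br := Classical.choose (aux_supp φ)

theorem rr_spec (φ : StrongDual 𝕜 (L 𝕜)) : ∀ b, be φ b ≠ 0 → b ∈ range (rrD φ) :=
  Classical.choose_spec (aux_supp φ)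

noncomputable def code {B : Set Br} (ψ : StrongDual 𝕜 (XB 𝕜 B)) :
    (ℕ → 𝕜) × (ℕ → Br) × (ℕ → 𝕜) :=
  (fun n => ext1 ψ (e 𝕜 n), rrD (ext1 ψ), fun k => be (ext1 ψ) (rrD (ext1 ψ) k))

theorem code_inj (B : Set Br) : Function.Injective (code (𝕜 := 𝕜) (B := B)) := by
  intro ψ₁ ψ₂ h
  unfold code at h
  simp only [Prod.mk.injEq] at h
  obtain ⟨h1, h2, h3⟩ := h
  have hbe : be (ext1 ψ₁) = be (ext1 ψ₂) := by
    funext b
    by_cases hb : b ∈ range (rrD (ext1 ψ₁))
    · obtain ⟨k, rfl⟩ := hb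
      have := congrFun h3 k
      try simp only at this
      rw [this, h2]
    · have e1 : be (ext1 ψ₁) b = 0 := by
        by_contra hne
        exact hb (rr_spec _ b hne)
      have e2 : be (ext1 ψ₂) b = 0 := by
        by_contra hne
        apply hb
        rw [h2]
        exact rr_spec _ b hne
      rw [e1, e2]
  apply ContinuousLinearMap.ext
  intro x
  rw [← ext1_spec ψ₁ x, ← ext1_spec ψ₂ x]
  have hx : (x : L 𝕜) ∈ XB 𝕜 univ := XB_mono (subset_univ B) x.2
  rw [rep _ hx, rep _ hx, hbe]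
  congr 1
  apply tsum_congr
  intro n
  have := congrFun h1 n
  try simp only at this
  rw [this]

/-- TARGET -/
theorem card_dual (B : Set Br) :
    Cardinal.mk (StrongDual 𝕜 (XB 𝕜 B)) ≤ Cardinal.continuum := by
  refine (Cardinal.mk_le_of_injective (code_inj (𝕜 := 𝕜) B)).trans ?_
  have hK : Cardinal.mk (ℕ → 𝕜) ≤ Cardinal.continuum := by
    rw [← Cardinal.power_def, Cardinal.mk_nat]
    calc Cardinal.mk 𝕜 ^ Cardinal.aleph0 ≤ Cardinal.continuum ^ Cardinal.aleph0 :=
          Cardinal.power_le_power_right aux_card_K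
      _ = _ := Cardinal.continuum_power_aleph0
  have hB : Cardinal.mk (ℕ → Br) ≤ Cardinal.continuum := by
    have hBr : Cardinal.mk Br = Cardinal.continuum := by
      unfold Br
      rw [← Cardinal.power_def]
      simp
    rw [← Cardinal.power_def, Cardinal.mk_nat, hBr, Cardinal.continuum_power_aleph0]
  rw [Cardinal.mk_prod, Cardinal.mk_prod]
  try simp only [Cardinal.lift_id]
  calc _ ≤ Cardinal.continuum * (Cardinal.continuum * Cardinal.continuum) :=
        mul_le_mul' hK (mul_le_mul' hB hK)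
    _ = _ := by rw [Cardinal.continuum_mul_self, Cardinal.continuum_mul_self]

end BidQ
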