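import Pool.Agent.H251.V2
import Pool.Agent.H251.V4
set_option maxSynthPendingDepth 3
set_option autoImplicit false
open Set Filter Topology

namespace BidQ
universe u v w
variable {𝕜 : Type} [RCLike 𝕜]

/-- the adjoint of a continuous linear map -/
noncomputable def dm {E : Type u} {F : Type v} [NormedAddCommGroup E] [NormedSpace 𝕜 E]
    [NormedAddCommGroup F] [NormedSpace 𝕜 F] (T : E →L[𝕜] F) : StrongDual 𝕜 F →L[𝕜] StrongDual 𝕜 E :=
  (ContinuousLinearMap.compL 𝕜 E F 𝕜).flip T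

theorem dm_apply {E : Type u} {F : Type v} [NormedAddCommGroup E] [NormedSpace 𝕜 E]
    [NormedAddCommGroup F] [NormedSpace 𝕜 F] (T : E →L[𝕜] F) (f : StrongDual 𝕜 F) (x : E) :
    dm T f x = f (T x) := rfl

theorem Rep.congr {X : Type v} [NormedAddCommGroup X] [NormedSpace 𝕜 X]
    {Y : Type u} [NormedAddCommGroup Y] [NormedSpace 𝕜 Y]
    {Y' : Type w} [NormedAddCommGroup Y'] [NormedSpace 𝕜 Y'] (h : Rep 𝕜 X Y)
    (i : Y ≃ₗᵢ[𝕜] Y') : Rep 𝕜 X Y' := by
  obtain ⟨q, hq, hk⟩ := h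
  set a : Y →L[𝕜] Y' := (i.toContinuousLinearEquiv : Y →L[𝕜] Y') with ha
  set b : Y' →L[𝕜] Y := (i.symm.toContinuousLinearEquiv : Y' →L[𝕜] Y) with hb
  have hab : ∀ y, a (b y) = y := fun y => i.apply_symm_apply y
  have hba : ∀ y, b (a y) = y := fun y => i.symm_apply_apply y
  have hdab : ∀ f, dm (𝕜 := 𝕜) b (dm a f) = f := by
    intro f; ext y; simp only [dm_apply, hab]
  have hdba : ∀ f, dm (𝕜 := 𝕜) a (dm b f) = f := by
    intro f; ext y; simp only [dm_apply, hba]
  have h1 : ∀ w, dm (𝕜 := 𝕜) (dm b) (dm (dm a) w) = w := by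
    intro w; ext f; simp only [dm_apply, hdba]
  have h2 : ∀ w, dm (𝕜 := 𝕜) (dm a) (dm (dm b) w) = w := by
    intro w; ext f; simp only [dm_apply, hdab]
  refine ⟨q.comp (dm (dm b)), ?_, ?_⟩
  · intro x
    obtain ⟨w, hw⟩ := hq x
    refine ⟨dm (dm a) w, ?_⟩
    change q (dm (dm b) (dm (dm a) w)) = x
    rw [h1, hw]
  · intro w
    change q (dm (dm b) w) = 0 ↔ _
    rw [hk]
    constructor
    · rintro ⟨y, hy⟩
      refine ⟨a y, ?_⟩
      rw [← h2 w, ← hy]
      ext f
      rfl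
    · rintro ⟨y, hy⟩
      refine ⟨b y, ?_⟩
      rw [← hy]
      ext f
      rfl

theorem embed (Y : Type u) [NormedAddCommGroup Y] [NormedSpace 𝕜 Y] [CompleteSpace Y]
    [TopologicalSpace.SeparableSpace Y] :
    ∃ s : ℕ → L 𝕜, Nonempty (Y ≃ₗᵢ[𝕜] ↥(Submodule.span 𝕜 (range s)).topologicalClosure) := by
  set y : ℕ → Y := TopologicalSpace.denseSeq Y with hy
  have hdense : DenseRange y := TopologicalSpace.denseRange_denseSeq Y
  have hf : ∀ n, ∃ f : StrongDual 𝕜 Y, ‖f‖ ≤ 1 ∧ f (y n) = ‖y n‖ := fun n =>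
    exists_dual_vector'' 𝕜 (y n)
  choose f hf1 hf2 using hf
  have hbd : ∀ (z : Y) (n : ℕ), ‖f n z‖ ≤ ‖z‖ := by
    intro z n
    calc ‖f n z‖ ≤ ‖f n‖ * ‖z‖ := (f n).le_opNorm z
      _ ≤ 1 * ‖z‖ := by gcongr; exact hf1 n
      _ = ‖z‖ := one_mul _
  let I₀ : Y →ₗ[𝕜] L 𝕜 :=
    { toFun := fun z => BoundedContinuousFunction.ofNormedAddCommGroupDiscrete (fun n => f n z) ‖z‖ (hbd z)
      map_add' := by
        intro z z'; ext n
        change f n (z + z') = f n z + f n z'
        exact map_add _ _ _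
      map_smul' := by
        intro c z; ext n
        change f n (c • z) = c • f n z
        exact map_smul _ _ _ }
  have hI₀ : ∀ z n, I₀ z n = f n z := fun _ _ => rfl
  have hle : ∀ z, ‖I₀ z‖ ≤ ‖z‖ := by
    intro z
    rw [BoundedContinuousFunction.norm_le (norm_nonneg z)]
    intro n; rw [hI₀]; exact hbd z n
  have hge : ∀ n, ‖y n‖ ≤ ‖I₀ (y n)‖ := by
    intro n
    have h1 := (I₀ (y n)).norm_coe_le_norm n
    rw [hI₀, hf2] at h1
    simpa using h1
  let Ic : Y →L[𝕜] L 𝕜 := I₀.mkContinuous 1 (by intro z; rw [one_mul]; exact hle z)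
  have hIc : ∀ z, Ic z = I₀ z := fun _ => rfl
  have hnorm : ∀ z, ‖I₀ z‖ = ‖z‖ := by
    intro z
    apply le_antisymm (hle z)
    have hclosed : IsClosed {z : Y | ‖z‖ ≤ ‖Ic z‖} :=
      isClosed_le continuous_norm (Ic.continuous.norm)
    have hsub : range y ⊆ {z : Y | ‖z‖ ≤ ‖Ic z‖} := by
      rintro _ ⟨n, rfl⟩
      exact hge n
    have h2 := hclosed.closure_subset_iff.mpr hsub
    rw [hdense.closure_range] at h2
    exact h2 (mem_univ z)
  let I : Y →ₗᵢ[𝕜] L 𝕜 := ⟨I₀, hnorm⟩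
  refine ⟨fun n => I (y n), ?_⟩
  have hclosedR : IsClosed (range I) := by
    have : IsComplete (range I) := by
      rw [← image_univ]
      exact (I.isometry.isUniformInducing.isComplete_iff).mpr isComplete_univ
    exact this.isClosed
  have hrange : LinearMap.range I.toLinearMap =
      (Submodule.span 𝕜 (range (fun n => I (y n)))).topologicalClosure := by
    apply le_antisymm
    · rintro _ ⟨z, rfl⟩
      have h3 : z ∈ closure (range y) := by rw [hdense.closure_range]; exact mem_univ z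
      have h4 : I z ∈ closure (I '' range y) :=
        image_closure_subset_closure_image I.continuous ⟨z, h3, rfl⟩
      have h5 : I '' range y = range (fun n => I (y n)) := by
        rw [← range_comp]; rfl
      rw [h5] at h4
      exact closure_mono Submodule.subset_span h4
    · apply Submodule.topologicalClosure_minimal
      · rw [Submodule.span_le]
        rintro _ ⟨n, rfl⟩
        exact ⟨y n, rfl⟩
      · exact hclosedR
  have e1 : Y ≃ₗᵢ[𝕜] LinearMap.range I.toLinearMap := I.equivRange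
  rw [hrange] at e1
  exact ⟨e1⟩

end BidQ
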