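import Pool.Agent.H251.V7
import Pool.Agent.H251.V6
set_option maxSynthPendingDepth 3
set_option autoImplicit false
open Set Filter Topology

namespace BidQ
variable {𝕜 : Type} [RCLike 𝕜]

theorem factor_aux {Z X W : Type} [NormedAddCommGroup Z] [NormedSpace 𝕜 Z] [CompleteSpace Z]
    [NormedAddCommGroup X] [NormedSpace 𝕜 X] [CompleteSpace X]
    [NormedAddCommGroup W] [NormedSpace 𝕜 W]
    (q : Z →L[𝕜] X) (hq : Function.Surjective q) (g : Z →L[𝕜] W)
    (hk : ∀ z, q z = 0 → g z = 0) : ∃ θ : X →L[𝕜] W, ∀ z, θ (q z) = g z := by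
  have hker : LinearMap.ker (q : Z →ₗ[𝕜] X) ≤ LinearMap.ker (g : Z →ₗ[𝕜] W) := by
    intro z hz
    exact hk z hz
  let θ₀ : X →ₗ[𝕜] W := ((LinearMap.ker (q : Z →ₗ[𝕜] X)).liftQ (g : Z →ₗ[𝕜] W) hker).comp
    (((q : Z →ₗ[𝕜] X).quotKerEquivOfSurjective hq).symm : X →ₗ[𝕜] _)
  have hθ : ∀ z, θ₀ (q z) = g z := by
    intro z
    have h1 : ((q : Z →ₗ[𝕜] X).quotKerEquivOfSurjective hq).symm (q z) = Submodule.Quotient.mk z := by
      rw [LinearEquiv.symm_apply_eq]; rfl
    change ((LinearMap.ker (q : Z →ₗ[𝕜] X)).liftQ (g : Z →ₗ[𝕜] W) hker)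
      (((q : Z →ₗ[𝕜] X).quotKerEquivOfSurjective hq).symm (q z)) = g z
    rw [h1]; rfl
  have hcont : Continuous θ₀ := by
    have hQ := q.isQuotientMap hq
    rw [hQ.continuous_iff]
    have : (θ₀ ∘ q : Z → W) = g := by ext z; exact hθ z
    rw [this]; exact g.continuous
  exact ⟨⟨θ₀, hcont⟩, hθ⟩

/-- evaluation at a point -/
noncomputable def evn (𝕜 : Type) [RCLike 𝕜] (n : ℕ) : L 𝕜 →L[𝕜] 𝕜 :=
  BoundedContinuousFunction.evalCLM 𝕜 n

theorem XB_inj {B C : Set Br} (h : (XB 𝕜 B : Set (L 𝕜)) = XB 𝕜 C) : B = C := by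
  ext b
  rw [← ch_mem_iff (𝕜 := 𝕜) B b, ← ch_mem_iff (𝕜 := 𝕜) C b]
  constructor
  · intro hb
    have : ch 𝕜 b ∈ (XB 𝕜 B : Set (L 𝕜)) := hb
    rw [h] at this; exact this
  · intro hb
    have : ch 𝕜 b ∈ (XB 𝕜 C : Set (L 𝕜)) := hb
    rw [← h] at this; exact this

theorem card_rep (Y : Type) [NormedAddCommGroup Y] [NormedSpace 𝕜 Y] :
    Cardinal.mk {B : Set Br // Rep 𝕜 (XB 𝕜 B) Y} ≤ Cardinal.continuum := by
  rcases isEmpty_or_nonempty {B : Set Br // Rep 𝕜 (XB 𝕜 B) Y} with he | ⟨⟨B0, q0, hq0, hk0⟩⟩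
  · rw [Cardinal.mk_eq_zero]; exact zero_le
  · haveI : CompleteSpace (XB 𝕜 B0) :=
      (Submodule.isClosed_topologicalClosure _).completeSpace_coe
    have H : ∀ B : {B : Set Br // Rep 𝕜 (XB 𝕜 B) Y},
        ∃ θ : XB 𝕜 B0 →L[𝕜] L 𝕜, range θ = (XB 𝕜 B.1 : Set (L 𝕜)) := by
      rintro ⟨B, q, hq, hk⟩
      obtain ⟨θ, hθ⟩ := factor_aux q0 hq0 ((XB 𝕜 B).subtypeL.comp q) (by
        intro z hz
        have h1 : q z = 0 := (hk z).mpr ((hk0 z).mp hz)
        simp [h1])
      refine ⟨θ, ?_⟩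
      ext f
      constructor
      · rintro ⟨x, rfl⟩
        obtain ⟨z, rfl⟩ := hq0 x
        rw [hθ z]; exact (q z).2
      · intro hf
        obtain ⟨z, hz⟩ := hq ⟨f, hf⟩
        refine ⟨q0 z, ?_⟩
        rw [hθ z]
        change ((q z : XB 𝕜 B) : L 𝕜) = f
        rw [hz]
    choose θ hθ using H
    have hinj : Function.Injective (fun (B : {B : Set Br // Rep 𝕜 (XB 𝕜 B) Y}) (n : ℕ) =>
        ((evn 𝕜 n).comp (θ B) : StrongDual 𝕜 (XB 𝕜 B0))) := by
      intro B C hBC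
      have h1 : θ B = θ C := by
        ext x n
        have h2 := congrFun hBC n
        have h3 := DFunLike.congr_fun h2 x
        exact h3
      apply Subtype.ext
      apply XB_inj (𝕜 := 𝕜)
      rw [← hθ B, ← hθ C, h1]
    have h4 := Cardinal.mk_le_of_injective hinj
    refine h4.trans ?_
    rw [← Cardinal.power_def, Cardinal.mk_nat]
    calc Cardinal.mk (StrongDual 𝕜 (XB 𝕜 B0)) ^ Cardinal.aleph0
        ≤ Cardinal.continuum ^ Cardinal.aleph0 := Cardinal.power_le_power_right (card_dual B0)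
      _ = Cardinal.continuum := Cardinal.continuum_power_aleph0

theorem card_K : Cardinal.mk 𝕜 ≤ Cardinal.continuum := by
  have hinj : Function.Injective (fun z : 𝕜 => ((RCLike.re z : ℝ), (RCLike.im z : ℝ))) := by
    intro z w h
    simp only [Prod.mk.injEq] at h
    exact RCLike.ext h.1 h.2
  have h4 := Cardinal.mk_le_of_injective hinj
  refine h4.trans ?_
  simp [Cardinal.mk_prod, Cardinal.mk_real]

theorem card_L : Cardinal.mk (L 𝕜) ≤ Cardinal.continuum := by
  have hinj : Function.Injective (fun (f : L 𝕜) (n : ℕ) => f n) := by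
    intro f g h
    ext n; exact congrFun h n
  have h4 := Cardinal.mk_le_of_injective hinj
  refine h4.trans ?_
  rw [← Cardinal.power_def, Cardinal.mk_nat]
  calc Cardinal.mk 𝕜 ^ Cardinal.aleph0
        ≤ Cardinal.continuum ^ Cardinal.aleph0 := Cardinal.power_le_power_right card_K
      _ = Cardinal.continuum := Cardinal.continuum_power_aleph0

/-- TARGET -/
theorem counting : ∃ B : Set Br, ∀ s : ℕ → L 𝕜,
    ¬ Rep 𝕜 (XB 𝕜 B) ↥(Submodule.span 𝕜 (range s)).topologicalClosure := by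
  by_contra hcon
  push Not at hcon
  choose s hs using hcon
  have H : ∀ t : ℕ → L 𝕜, ∃ j : Set Br → ℝ, InjOn j
      {B | Rep 𝕜 (XB 𝕜 B) ↥(Submodule.span 𝕜 (range t)).topologicalClosure} := by
    intro t
    have h1 := card_rep (𝕜 := 𝕜) ↥(Submodule.span 𝕜 (range t)).topologicalClosure
    rw [← Cardinal.mk_real] at h1
    obtain ⟨g⟩ := Cardinal.le_def _ _ |>.mp h1
    classical
    refine ⟨fun B => if h : Rep 𝕜 (XB 𝕜 B) ↥(Submodule.span 𝕜 (range t)).topologicalClosure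
      then g ⟨B, h⟩ else 0, ?_⟩
    intro B hB C hC hBC
    have hB' : Rep 𝕜 (XB 𝕜 B) ↥(Submodule.span 𝕜 (range t)).topologicalClosure := hB
    have hC' : Rep 𝕜 (XB 𝕜 C) ↥(Submodule.span 𝕜 (range t)).topologicalClosure := hC
    simp only [dif_pos hB', dif_pos hC'] at hBC
    have := g.injective hBC
    exact congrArg Subtype.val this
  choose j hj using H
  have hinj : Function.Injective (fun B : Set Br => ((s B, j (s B) B) : (ℕ → L 𝕜) × ℝ)) := by
    intro B C h
    simp only [Prod.mk.injEq] at h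
    obtain ⟨h1, h2⟩ := h
    have hB := hs B
    have hC := hs C
    rw [h1] at hB h2
    exact hj (s C) hB hC h2
  have h4 := Cardinal.mk_le_of_injective hinj
  have h5 : Cardinal.mk ((ℕ → L 𝕜) × ℝ) ≤ Cardinal.continuum := by
    rw [Cardinal.mk_prod, Cardinal.lift_id, Cardinal.lift_id, Cardinal.mk_real, ← Cardinal.power_def,
      Cardinal.mk_nat]
    calc Cardinal.mk (L 𝕜) ^ Cardinal.aleph0 * Cardinal.continuum
        ≤ Cardinal.continuum ^ Cardinal.aleph0 * Cardinal.continuum := by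
          gcongr
          exact Cardinal.power_le_power_right card_L
      _ = Cardinal.continuum := by rw [Cardinal.continuum_power_aleph0, Cardinal.continuum_mul_self]
  have h6 := h4.trans h5
  rw [Cardinal.mk_set] at h6
  have h7 : Cardinal.mk Br = Cardinal.continuum := by
    change Cardinal.mk (ℕ → Bool) = _
    rw [← Cardinal.power_def, Cardinal.mk_nat, Cardinal.mk_bool, Cardinal.two_power_aleph0]
  rw [h7] at h6
  exact absurd h6 (not_le.mpr (Cardinal.cantor _))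

end BidQ
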