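import Pool.Agent.H251.V5
import Pool.Agent.H251.V8
set_option maxSynthPendingDepth 3
set_option autoImplicit false
open Set Filter Topology

namespace BidQ
universe u v w
variable {𝕜 : Type} [RCLike 𝕜]

/-- evaluations on `X_B` -/
noncomputable def evB (𝕜 : Type) [RCLike 𝕜] (B : Set Br) (n : ℕ) : StrongDual 𝕜 (XB 𝕜 B) :=
  (BoundedContinuousFunction.evalCLM 𝕜 n).comp (XB 𝕜 B).subtypeL

lemma evB_apply (B : Set Br) (n : ℕ) (x : XB 𝕜 B) : evB 𝕜 B n x = (x : L 𝕜) n := rfl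

lemma norm_evB_le (B : Set Br) (n : ℕ) : ‖evB 𝕜 B n‖ ≤ 1 := by
  apply ContinuousLinearMap.opNorm_le_bound _ zero_le_one
  intro x
  rw [one_mul, evB_apply]
  exact (x : L 𝕜).norm_coe_le_norm n

theorem propS_XB (B : Set Br) : PropS 𝕜 (evB 𝕜 B) := by
  intro V
  obtain ⟨D', hD'V, hD'c, hD'⟩ := propS (𝕜 := 𝕜) (Subtype.val '' V) (by
    rintro _ ⟨x, -, rfl⟩
    exact XB_mono (subset_univ B) x.2)
  refine ⟨Subtype.val ⁻¹' D', ?_, hD'c.preimage Subtype.val_injective, ?_⟩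
  · intro x hx
    obtain ⟨y, hy, hyx⟩ := hD'V hx
    rwa [← Subtype.ext hyx]
  · intro φ C hC hφ
    have hext := fun n => exists_extension_norm_eq (XB 𝕜 B) (φ n)
    choose ψ hψ1 hψ2 using hext
    have h1 := hD' ψ C (fun n => by rw [hψ2]; exact hC n) (by
      intro n d hd
      obtain ⟨x, hx, rfl⟩ := hD'V hd
      rw [hψ1 n x, hφ n x hd, evB_apply])
    have h2 : Topology.IsEmbedding (Subtype.val : XB 𝕜 B → L 𝕜) := Topology.IsEmbedding.subtypeVal
    have h3 := h2.isSeparable_preimage h1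
    refine h3.mono ?_
    rintro x ⟨hx1, hx2⟩
    refine ⟨⟨x, hx1, rfl⟩, fun n => ?_⟩
    rw [hψ1 n x]
    exact hx2 n

section
variable {Y : Type u} [NormedAddCommGroup Y] [NormedSpace 𝕜 Y] [CompleteSpace Y]
variable {X : Type v} [NormedAddCommGroup X] [NormedSpace 𝕜 X] [CompleteSpace X]

/-- the closed span of `S` -/
abbrev cs (𝕜 : Type) [RCLike 𝕜] {Y : Type u} [NormedAddCommGroup Y] [NormedSpace 𝕜 Y]
    (S : Set Y) : Submodule 𝕜 Y := (Submodule.span 𝕜 S).topologicalClosure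

lemma exists_ext (M : Submodule 𝕜 Y) (f : StrongDual 𝕜 M) :
    ∃ g : StrongDual 𝕜 Y, dm M.subtypeL g = f ∧ ‖g‖ ≤ 1 * ‖f‖ := by
  obtain ⟨g, hg1, hg2⟩ := exists_extension_norm_eq M f
  refine ⟨g, ?_, by rw [one_mul]; exact hg2.le⟩
  ext x
  exact hg1 x

/-- lifting of elements of the biannihilator -/
lemma exists_lift (S : Set Y) (w : StrongDual 𝕜 (StrongDual 𝕜 Y)) (hw : InBi S w) :
    ∃ u : StrongDual 𝕜 (StrongDual 𝕜 (cs 𝕜 S)), dm (dm (cs 𝕜 S).subtypeL) u = w := by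
  obtain ⟨φ, hφ, -⟩ := factor (dm (cs 𝕜 S).subtypeL) zero_le_one (exists_ext (cs 𝕜 S)) w (by
    intro f hf
    apply hw
    intro s hs
    have := congrArg (fun T => T ⟨s, Submodule.le_topologicalClosure _
      (Submodule.subset_span hs)⟩) hf
    exact this)
  refine ⟨φ, ?_⟩
  ext f
  exact hφ f

lemma norm_le_bd (M : Submodule 𝕜 Y) (u : StrongDual 𝕜 (StrongDual 𝕜 M)) :
    ‖u‖ ≤ ‖dm (dm M.subtypeL) u‖ := by
  apply ContinuousLinearMap.opNorm_le_bound _ (norm_nonneg _)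
  intro f
  obtain ⟨g, hg1, hg2⟩ := exists_ext M f
  rw [one_mul] at hg2
  have h1 : u f = dm (dm M.subtypeL) u g := by rw [dm_apply, hg1]
  rw [h1]
  refine (ContinuousLinearMap.le_opNorm _ _).trans ?_
  gcongr

lemma inBi_bd (S : Set Y) (u : StrongDual 𝕜 (StrongDual 𝕜 (cs 𝕜 S))) :
    InBi S (dm (dm (cs 𝕜 S).subtypeL) u) := by
  intro f hf
  rw [dm_apply]
  have h0 : dm (cs 𝕜 S).subtypeL f = 0 := by
    ext x
    have hx : (cs 𝕜 S) ≤ LinearMap.ker f.toLinearMap := by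
      apply Submodule.topologicalClosure_minimal
      · rw [Submodule.span_le]
        exact hf
      · exact isClosed_eq f.continuous continuous_const
    exact hx x.2
  rw [h0, map_zero]

theorem rep_sub (q : StrongDual 𝕜 (StrongDual 𝕜 Y) →L[𝕜] X) {C : ℝ} (hC : 0 ≤ C)
    (hq : ∀ x, ∃ w, q w = x ∧ ‖w‖ ≤ C * ‖x‖)
    (hker : ∀ w, q w = 0 ↔ w ∈ range (NormedSpace.inclusionInDoubleDual 𝕜 Y))
    (S : Set Y) (hS : ∀ x : X, ∀ ε > 0,
      ∃ w : StrongDual 𝕜 (StrongDual 𝕜 Y), InBi S w ∧ ‖x - q w‖ < ε) :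
    Rep 𝕜 X (cs 𝕜 S) := by
  classical
  set M : Submodule 𝕜 Y := cs 𝕜 S with hM
  set q₀ : StrongDual 𝕜 (StrongDual 𝕜 M) →L[𝕜] X := q.comp (dm (dm M.subtypeL)) with hq₀
  -- controlled preimages on the range
  have key : ∀ u : StrongDual 𝕜 (StrongDual 𝕜 M),
      ∃ u', q₀ u' = q₀ u ∧ ‖u'‖ ≤ (2 * C + 1) * ‖q₀ u‖ := by
    intro u
    by_cases hx0 : q₀ u = 0
    · exact ⟨0, by rw [map_zero, hx0], by simp [hx0]⟩
    have hxpos : 0 < ‖q₀ u‖ := norm_pos_iff.2 hx0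
    set w : StrongDual 𝕜 (StrongDual 𝕜 Y) := dm (dm M.subtypeL) u with hw
    have hwS : InBi S w := inBi_bd S u
    obtain ⟨w', hw'1, hw'2⟩ := hq (q₀ u)
    obtain ⟨y, hy⟩ := (hker (w - w')).1 (by
      rw [map_sub, hw'1]
      exact sub_self _)
    have hyf : ∀ g : StrongDual 𝕜 Y, g y = w g - w' g := fun g => congrArg (fun T => T g) hy
    obtain ⟨z, hz, hyz⟩ := exists_near (𝕜 := 𝕜) S y (ε := C * ‖q₀ u‖)
      (ε' := C * ‖q₀ u‖ + ‖q₀ u‖) (by linarith) (by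
      intro g hg hg1
      rw [hyf, hwS g hg, zero_sub, norm_neg]
      exact (w'.le_opNorm _).trans ((mul_le_of_le_one_right (norm_nonneg _) hg1).trans hw'2))
    have hzM : z ∈ M := Submodule.le_topologicalClosure _ hz
    refine ⟨u - NormedSpace.inclusionInDoubleDual 𝕜 M ⟨z, hzM⟩, ?_, ?_⟩
    · rw [map_sub]
      have h1 : q₀ (NormedSpace.inclusionInDoubleDual 𝕜 M ⟨z, hzM⟩) = 0 := by
        have h2 : dm (dm M.subtypeL) (NormedSpace.inclusionInDoubleDual 𝕜 M ⟨z, hzM⟩) =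
            NormedSpace.inclusionInDoubleDual 𝕜 Y z := by
          ext f; rfl
        show q (dm (dm M.subtypeL) (NormedSpace.inclusionInDoubleDual 𝕜 M ⟨z, hzM⟩)) = 0
        rw [h2]
        exact (hker _).2 ⟨z, rfl⟩
      rw [h1, sub_zero]
    · refine (norm_le_bd M _).trans ?_
      have h3 : dm (dm M.subtypeL) (u - NormedSpace.inclusionInDoubleDual 𝕜 M ⟨z, hzM⟩) =
          w' + NormedSpace.inclusionInDoubleDual 𝕜 Y (y - z) := by
        ext f
        have e1 : dm (dm M.subtypeL) (u - NormedSpace.inclusionInDoubleDual 𝕜 M ⟨z, hzM⟩) f =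
            w f - f z := rfl
        have e2 : (w' + NormedSpace.inclusionInDoubleDual 𝕜 Y (y - z)) f = w' f + f (y - z) := rfl
        rw [e1, e2, map_sub, hyf]; ring
      rw [h3]
      have h4 : ‖NormedSpace.inclusionInDoubleDual 𝕜 Y (y - z)‖ ≤ ‖y - z‖ :=
        NormedSpace.double_dual_bound 𝕜 Y _
      calc ‖w' + NormedSpace.inclusionInDoubleDual 𝕜 Y (y - z)‖ ≤
            ‖w'‖ + ‖NormedSpace.inclusionInDoubleDual 𝕜 Y (y - z)‖ := norm_add_le _ _
        _ ≤ (2 * C + 1) * ‖q₀ u‖ := by linarith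
  have hsurj : Function.Surjective q₀ := by
    let f₀ : NormedAddGroupHom (StrongDual 𝕜 (StrongDual 𝕜 M)) X :=
      { toFun := q₀
        map_add' := map_add q₀
        bound' := ⟨‖q₀‖, fun v => q₀.le_opNorm v⟩ }
    have h1 : f₀.SurjectiveOnWith f₀.range (2 * C + 1) := by
      rintro x hx
      obtain ⟨u, rfl⟩ := hx
      exact key u
    have h2 := controlled_closure_of_complete (C := 2 * C + 1) (ε := 1) (by positivity) one_pos h1
    intro x
    have hx : x ∈ f₀.range.topologicalClosure := by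
      show x ∈ closure (f₀.range : Set X)
      rw [Metric.mem_closure_iff]
      intro ε hε
      obtain ⟨w, hw1, hw2⟩ := hS x ε hε
      obtain ⟨u, hu⟩ := exists_lift S w hw1
      refine ⟨q₀ u, ⟨u, rfl⟩, ?_⟩
      rw [dist_eq_norm]
      show ‖x - q (dm (dm M.subtypeL) u)‖ < ε
      rw [hu]
      exact hw2
    obtain ⟨u, hu, -⟩ := h2 x hx
    exact ⟨u, hu⟩
  refine ⟨q₀, hsurj, ?_⟩
  intro u
  constructor
  · intro hu
    obtain ⟨y, hy⟩ := (hker (dm (dm M.subtypeL) u)).1 hu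
    have hyf : ∀ g : StrongDual 𝕜 Y, g y = dm (dm M.subtypeL) u g :=
      fun g => congrArg (fun T => T g) hy
    have hyM : y ∈ M := by
      show y ∈ closure (Submodule.span 𝕜 S : Set Y)
      rw [Metric.mem_closure_iff]
      intro ε hε
      obtain ⟨z, hz, hyz⟩ := exists_near (𝕜 := 𝕜) S y (ε := 0) (ε' := ε) hε (by
        intro g hg _
        rw [hyf, inBi_bd S u g hg, norm_zero])
      exact ⟨z, hz, by rw [dist_eq_norm]; exact hyz⟩
    refine ⟨⟨y, hyM⟩, ?_⟩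
    ext f
    obtain ⟨g, hg1, -⟩ := exists_ext M f
    have h5 : u f = dm (dm M.subtypeL) u g := by rw [dm_apply, hg1]
    rw [h5, ← hyf]
    show f ⟨y, hyM⟩ = g y
    rw [← hg1]
    rfl
  · rintro ⟨y, rfl⟩
    have h2 : dm (dm M.subtypeL) (NormedSpace.inclusionInDoubleDual 𝕜 M y) =
        NormedSpace.inclusionInDoubleDual 𝕜 Y y := by
      ext f; rfl
    show q (dm (dm M.subtypeL) (NormedSpace.inclusionInDoubleDual 𝕜 M y)) = 0
    rw [h2]
    exact (hker _).2 ⟨_, rfl⟩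

/-- Theorem R -/
theorem thmR (ev : ℕ → StrongDual 𝕜 X) (hev : ∀ n, ‖ev n‖ ≤ 1) (hS : PropS 𝕜 ev)
    (h : Rep 𝕜 X Y) : ∃ S : Set Y, S.Countable ∧ Rep 𝕜 X (cs 𝕜 S) := by
  obtain ⟨q, hq, hker⟩ := h
  obtain ⟨C, hC, hlift⟩ := ContinuousLinearMap.exists_preimage_norm_le q hq
  obtain ⟨S, hSc, hS'⟩ := dense_version q hC.le hlift hker ev hev hS
  exact ⟨S, hSc, rep_sub q hC.le hlift hker S hS'⟩

end

instance (B : Set Br) : CompleteSpace (XB 𝕜 B) :=
  (Submodule.isClosed_topologicalClosure _).completeSpace_coe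

/-- the final theorem in terms of `Rep` -/
theorem exists_not_rep : ∃ B : Set Br, ∀ (Y : Type u) [NormedAddCommGroup Y] [NormedSpace 𝕜 Y]
    [CompleteSpace Y], ¬ Rep 𝕜 (XB 𝕜 B) Y := by
  obtain ⟨B, hB⟩ := counting (𝕜 := 𝕜)
  refine ⟨B, fun Y _ _ _ h => ?_⟩
  obtain ⟨S, hSc, hrep⟩ := thmR (evB 𝕜 B) (norm_evB_le B) (propS_XB B) h
  haveI : CompleteSpace (cs 𝕜 S) := (Submodule.isClosed_topologicalClosure _).completeSpace_coe
  haveI : TopologicalSpace.SeparableSpace (cs 𝕜 S) := by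
    have h1 : TopologicalSpace.IsSeparable ((cs 𝕜 S : Submodule 𝕜 Y) : Set Y) := by
      have h2 : TopologicalSpace.IsSeparable (Submodule.span 𝕜 S : Set Y) := hSc.isSeparable.span
      exact h2.closure
    exact h1.separableSpace
  obtain ⟨s, ⟨i⟩⟩ := embed (𝕜 := 𝕜) (cs 𝕜 S)
  exact hB s (hrep.congr i)

end BidQ
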