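import Mathlib
open Set Filter Topology

namespace WCGBidual

/-- `E` is weakly compactly generated: there is a weakly compact set whose closed linear span
is the whole space. -/
def IsWCG (E : Type*) [NormedAddCommGroup E] [NormedSpace ℝ E] : Prop :=
  ∃ K : Set E, IsCompact (toWeakSpace ℝ E '' K) ∧ (Submodule.span ℝ K).topologicalClosure = ⊤

lemma isWCG_of_surj {E F : Type*} [NormedAddCommGroup E] [NormedSpace ℝ E]
    [NormedAddCommGroup F] [NormedSpace ℝ F] (R : E →L[ℝ] F) (hR : Function.Surjective R)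
    (h : IsWCG E) : IsWCG F := by
  obtain ⟨K, hK, hd⟩ := h
  refine ⟨R '' K, ?_, ?_⟩
  · have h1 : Continuous (WeakSpace.map R) := (WeakSpace.map R).continuous
    have h2 := hK.image h1
    convert h2 using 1
    ext y
    constructor
    · rintro ⟨_, ⟨x, hx, rfl⟩, rfl⟩
      exact ⟨toWeakSpace ℝ E x, ⟨x, hx, rfl⟩, rfl⟩
    · rintro ⟨_, ⟨x, hx, rfl⟩, rfl⟩
      exact ⟨R x, ⟨x, hx, rfl⟩, rfl⟩
  · rw [eq_top_iff]
    intro y _
    obtain ⟨x, rfl⟩ := hR y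
    have hx : x ∈ (Submodule.span ℝ K).topologicalClosure := by rw [hd]; trivial
    have hx' : x ∈ closure (Submodule.span ℝ K : Set E) := hx
    have h3 : R x ∈ closure (R '' (Submodule.span ℝ K : Set E)) :=
      image_closure_subset_closure_image R.continuous ⟨x, hx', rfl⟩
    have h4 : R '' (Submodule.span ℝ K : Set E) ⊆ (Submodule.span ℝ (R '' K) : Set F) := by
      rintro _ ⟨z, hz, rfl⟩
      have : R.toLinearMap z ∈ (Submodule.span ℝ K).map R.toLinearMap := ⟨z, hz, rfl⟩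
      rw [Submodule.map_span] at this
      exact this
    exact closure_mono h4 h3

lemma isWCG_of_cofinite {E : Type*} [NormedAddCommGroup E] [NormedSpace ℝ E] {I : Type*}
    (v : I → E) (hv : ∀ φ : StrongDual ℝ E, Tendsto (fun i => φ (v i)) cofinite (𝓝 0))
    (hd : (Submodule.span ℝ (Set.range v)).topologicalClosure = ⊤) : IsWCG E := by
  refine ⟨insert 0 (range v), ?_, ?_⟩
  · have h1 : Tendsto (fun i => toWeakSpace ℝ E (v i)) cofinite (𝓝 (toWeakSpace ℝ E 0)) := by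
      have : Topology.IsInducing (fun (x : WeakSpace ℝ E) (φ : StrongDual ℝ E) =>
          (topDualPairing ℝ E).flip x φ) := ⟨rfl⟩
      rw [this.tendsto_nhds_iff, tendsto_pi_nhds]
      intro φ
      have h2 := hv φ
      have h3 : (topDualPairing ℝ E).flip (toWeakSpace ℝ E 0) φ = 0 := by
        show φ 0 = 0
        exact map_zero φ
      show Tendsto (fun i => φ (v i)) cofinite (𝓝 ((topDualPairing ℝ E).flip (toWeakSpace ℝ E 0) φ))
      rw [h3]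
      exact h2
    have h4 := h1.isCompact_insert_range_of_cofinite
    convert h4 using 1
    rw [Set.image_insert_eq, ← Set.range_comp]
    rfl
  · rw [eq_top_iff, ← hd]
    exact Submodule.topologicalClosure_mono (Submodule.span_mono (Set.subset_insert _ _))

/-- upper `ℓ₂` estimate -/
def UL2 {E : Type*} [NormedAddCommGroup E] [NormedSpace ℝ E] {I : Type*} (v : I → E) (M : ℝ) :
    Prop := ∀ (S : Finset I) (a : I → ℝ), ‖∑ i ∈ S, a i • v i‖ ^ 2 ≤ M ^ 2 * ∑ i ∈ S, (a i) ^ 2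

lemma UL2_of_dual {E : Type*} [NormedAddCommGroup E] [NormedSpace ℝ E] {I : Type*}
    (θ : I → StrongDual ℝ E) {M : ℝ} (hM : 0 ≤ M)
    (h : ∀ (S : Finset I) (z : E), ∑ i ∈ S, (θ i z) ^ 2 ≤ M ^ 2 * ‖z‖ ^ 2) : UL2 θ M := by
  intro S a
  have hS : 0 ≤ ∑ i ∈ S, (a i) ^ 2 := Finset.sum_nonneg fun i _ => sq_nonneg _
  have h1 : ‖∑ i ∈ S, a i • θ i‖ ≤ M * Real.sqrt (∑ i ∈ S, (a i) ^ 2) := by
    apply ContinuousLinearMap.opNorm_le_bound _ (by positivity)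
    intro z
    have h2 : (∑ i ∈ S, a i • θ i) z = ∑ i ∈ S, a i * θ i z := by
      simp [ContinuousLinearMap.sum_apply]
    rw [h2, Real.norm_eq_abs]
    apply abs_le_of_sq_le_sq _ (by positivity)
    calc (∑ i ∈ S, a i * θ i z) ^ 2 ≤ (∑ i ∈ S, (a i) ^ 2) * ∑ i ∈ S, (θ i z) ^ 2 :=
          Finset.sum_mul_sq_le_sq_mul_sq _ _ _
      _ ≤ (∑ i ∈ S, (a i) ^ 2) * (M ^ 2 * ‖z‖ ^ 2) := by gcongr; exact h S z
      _ = (M * Real.sqrt (∑ i ∈ S, (a i) ^ 2) * ‖z‖) ^ 2 := by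
          rw [mul_pow, mul_pow, Real.sq_sqrt hS]; ring
  calc ‖∑ i ∈ S, a i • θ i‖ ^ 2 ≤ (M * Real.sqrt (∑ i ∈ S, (a i) ^ 2)) ^ 2 := by gcongr
    _ = _ := by rw [mul_pow, Real.sq_sqrt hS]

lemma UL2.dual_sum_le {E : Type*} [NormedAddCommGroup E] [NormedSpace ℝ E] {I : Type*}
    {v : I → E} {M : ℝ} (hv : UL2 v M) (φ : StrongDual ℝ E) (S : Finset I) :
    ∑ i ∈ S, (φ (v i)) ^ 2 ≤ M ^ 2 * ‖φ‖ ^ 2 := by
  have hS : 0 ≤ ∑ i ∈ S, (φ (v i)) ^ 2 := Finset.sum_nonneg fun i _ => sq_nonneg _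
  have h1 : ∑ i ∈ S, (φ (v i)) ^ 2 = φ (∑ i ∈ S, φ (v i) • v i) := by
    rw [map_sum]
    apply Finset.sum_congr rfl
    intro i _
    rw [map_smul, smul_eq_mul, sq]
  have h2 : ∑ i ∈ S, (φ (v i)) ^ 2 ≤ ‖φ‖ * ‖∑ i ∈ S, φ (v i) • v i‖ := by
    rw [h1]
    exact (le_abs_self _).trans (φ.le_opNorm _)
  have h3 := hv S (fun i => φ (v i))
  have h4 : (∑ i ∈ S, (φ (v i)) ^ 2) ^ 2 ≤ ‖φ‖ ^ 2 * (M ^ 2 * ∑ i ∈ S, (φ (v i)) ^ 2) := by
    calc (∑ i ∈ S, (φ (v i)) ^ 2) ^ 2 ≤ (‖φ‖ * ‖∑ i ∈ S, φ (v i) • v i‖) ^ 2 := by gcongr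
      _ = ‖φ‖ ^ 2 * ‖∑ i ∈ S, φ (v i) • v i‖ ^ 2 := by ring
      _ ≤ _ := by gcongr
  rcases hS.eq_or_lt with h5 | h5
  · rw [← h5]; positivity
  · nlinarith

lemma UL2.summable_sq {E : Type*} [NormedAddCommGroup E] [NormedSpace ℝ E] {I : Type*}
    {v : I → E} {M : ℝ} (hv : UL2 v M) (φ : StrongDual ℝ E) :
    Summable (fun i => (φ (v i)) ^ 2) :=
  summable_of_sum_le (fun _ => sq_nonneg _) (fun S => hv.dual_sum_le φ S)

lemma UL2.tendsto_zero {E : Type*} [NormedAddCommGroup E] [NormedSpace ℝ E] {I : Type*}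
    {v : I → E} {M : ℝ} (hv : UL2 v M) (φ : StrongDual ℝ E) :
    Tendsto (fun i => φ (v i)) cofinite (𝓝 0) := by
  have h1 := (hv.summable_sq φ).tendsto_cofinite_zero
  have h2 : Tendsto (fun i => Real.sqrt ((φ (v i)) ^ 2)) cofinite (𝓝 (Real.sqrt 0)) :=
    (Real.continuous_sqrt.tendsto 0).comp h1
  rw [Real.sqrt_zero] at h2
  simp only [Real.sqrt_sq_eq_abs] at h2
  exact (tendsto_zero_iff_abs_tendsto_zero _).2 h2

lemma UL2.summable {E : Type*} [NormedAddCommGroup E] [NormedSpace ℝ E] [CompleteSpace E]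
    {I : Type*} {v : I → E} {M : ℝ} (hv : UL2 v M) {c : I → ℝ}
    (hc : Summable (fun i => (c i) ^ 2)) : Summable (fun i => c i • v i) := by
  rw [summable_iff_vanishing_norm]
  intro ε hε
  have h1 : 0 < ε ^ 2 / (M ^ 2 + 1) := by positivity
  obtain ⟨S, hS⟩ := summable_iff_vanishing_norm.1 hc _ h1
  refine ⟨S, fun T hT => ?_⟩
  have h2 := hS T hT
  have h3 : 0 ≤ ∑ i ∈ T, (c i) ^ 2 := Finset.sum_nonneg fun i _ => sq_nonneg _
  rw [Real.norm_eq_abs, abs_of_nonneg h3, lt_div_iff₀ (by positivity)] at h2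
  have h4 := hv T c
  have h5 : ‖∑ i ∈ T, c i • v i‖ ^ 2 < ε ^ 2 := by nlinarith
  exact lt_of_pow_lt_pow_left₀ 2 hε.le h5

end WCGBidual
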