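import Mathlib
open Set Filter Topology

namespace WCGBidual

lemma mk_clm {W Z : Type} [NormedAddCommGroup W] [NormedSpace ℝ W] [NormedAddCommGroup Z]
    [NormedSpace ℝ Z] (g : StrongDual ℝ W → StrongDual ℝ Z)
    (hadd : ∀ a b, g (a + b) = g a + g b) (hsmul : ∀ (c : ℝ) a, g (c • a) = c • g a) (C : ℝ)
    (hb : ∀ f, ‖g f‖ ≤ C * ‖f‖) : ∃ E : StrongDual ℝ W →L[ℝ] StrongDual ℝ Z, ∀ f, E f = g f :=
  ⟨LinearMap.mkContinuous (⟨⟨g, hadd⟩, hsmul⟩ : StrongDual ℝ W →ₗ[ℝ] StrongDual ℝ Z) C hb,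
    fun _ => rfl⟩

/-- TARGET 1: an operator on the dual which kills the annihilator of `X` and does not change the
restriction to `X` yields a bounded surjection of the biduals. -/
theorem exists_R {Z : Type} [NormedAddCommGroup Z] [NormedSpace ℝ Z] (X : Submodule ℝ Z)
    (T : StrongDual ℝ Z →L[ℝ] StrongDual ℝ Z)
    (h1 : ∀ (f : StrongDual ℝ Z), ∀ x ∈ X, T f x = f x)
    (h2 : ∀ (f : StrongDual ℝ Z), (∀ x ∈ X, f x = 0) → T f = 0) :
    ∃ R : StrongDual ℝ (StrongDual ℝ Z) →L[ℝ] StrongDual ℝ (StrongDual ℝ X),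
      Function.Surjective R := by
  have hch : ∀ g : StrongDual ℝ X, ∃ f : StrongDual ℝ Z, (∀ x : X, f x = g x) ∧ ‖f‖ = ‖g‖ := by
    intro g
    obtain ⟨f, hf, hn⟩ := exists_extension_norm_eq X g
    exact ⟨f, hf, hn⟩
  choose ext hext hnorm using hch
  have hadd : ∀ g h : StrongDual ℝ X, T (ext (g + h)) = T (ext g) + T (ext h) := by
    intro g h
    have h3 : T (ext (g + h) - ext g - ext h) = 0 := by
      apply h2
      intro x hx
      have e1 := hext (g + h) ⟨x, hx⟩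
      have e2 := hext g ⟨x, hx⟩
      have e3 := hext h ⟨x, hx⟩
      simp only [ContinuousLinearMap.sub_apply]
      simp only [ContinuousLinearMap.add_apply] at e1
      rw [e1, e2, e3]
      ring
    rw [map_sub, map_sub] at h3
    have h4 : T (ext (g + h)) - (T (ext g) + T (ext h)) = 0 := by rw [← h3]; abel
    exact sub_eq_zero.1 h4
  have hsmul : ∀ (c : ℝ) (g : StrongDual ℝ X), T (ext (c • g)) = c • T (ext g) := by
    intro c g
    have h3 : T (ext (c • g) - c • ext g) = 0 := by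
      apply h2
      intro x hx
      have e1 := hext (c • g) ⟨x, hx⟩
      have e2 := hext g ⟨x, hx⟩
      simp only [ContinuousLinearMap.sub_apply, ContinuousLinearMap.smul_apply]
      simp only [ContinuousLinearMap.smul_apply] at e1
      rw [e1, e2]
      simp
    rw [map_sub, map_smul] at h3
    simpa using sub_eq_zero.1 h3
  have hE0 : ∀ g : StrongDual ℝ X, ‖T (ext g)‖ ≤ ‖T‖ * ‖g‖ := by
    intro g
    have h3 : ‖T (ext g)‖ ≤ ‖T‖ * ‖ext g‖ := T.le_opNorm _
    rw [hnorm] at h3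
    exact h3
  obtain ⟨E, hE⟩ := mk_clm (W := X) (fun g => T (ext g)) hadd hsmul ‖T‖ hE0
  let R : StrongDual ℝ (StrongDual ℝ Z) →L[ℝ] StrongDual ℝ (StrongDual ℝ X) :=
    (ContinuousLinearMap.compL ℝ (StrongDual ℝ X) (StrongDual ℝ Z) ℝ).flip E
  have hR : ∀ w g, R w g = w (E g) := fun w g => rfl
  let rho : StrongDual ℝ Z →L[ℝ] StrongDual ℝ X :=
    (ContinuousLinearMap.compL ℝ X Z ℝ).flip X.subtypeL
  have hrho : ∀ f x, rho f x = f (x : Z) := fun f x => rfl
  refine ⟨R, fun F => ⟨F.comp rho, ?_⟩⟩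
  ext g
  rw [hR, ContinuousLinearMap.comp_apply, hE]
  congr 1
  ext x
  rw [hrho, h1 _ _ x.2, hext]

/-- TARGET 2: construction of such an operator from `ℓ₂`-bounded families. -/
theorem exists_T {Z : Type} [NormedAddCommGroup Z] [NormedSpace ℝ Z] {I : Type}
    (θ : I → StrongDual ℝ Z) (β : I → StrongDual ℝ (StrongDual ℝ Z)) (M : ℝ)
    (hθ : ∀ (S : Finset I) (z : Z), ∑ i ∈ S, (θ i z) ^ 2 ≤ M * ‖z‖ ^ 2)
    (hβ : ∀ (S : Finset I) (f : StrongDual ℝ Z), ∑ i ∈ S, (β i f) ^ 2 ≤ M * ‖f‖ ^ 2) :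
    ∃ T : StrongDual ℝ Z →L[ℝ] StrongDual ℝ Z,
      ∀ (f : StrongDual ℝ Z) (z : Z), HasSum (fun i => β i f * θ i z) (f z - T f z) := by
  have hsum : ∀ (f : StrongDual ℝ Z) (z : Z), Summable (fun i => β i f * θ i z) := by
    intro f z
    have s1 : Summable (fun i => (θ i z) ^ 2) :=
      summable_of_sum_le (fun i => sq_nonneg _) (fun S => hθ S z)
    have s2 : Summable (fun i => (β i f) ^ 2) :=
      summable_of_sum_le (fun i => sq_nonneg _) (fun S => hβ S f)
    refine Summable.of_norm_bounded (g := fun i => (β i f) ^ 2 + (θ i z) ^ 2) (s2.add s1) ?_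
    intro i
    rw [Real.norm_eq_abs, abs_le]
    constructor <;> nlinarith [sq_nonneg (β i f + θ i z), sq_nonneg (β i f - θ i z),
      sq_nonneg (β i f), sq_nonneg (θ i z)]
  have hbound : ∀ (f : StrongDual ℝ Z) (z : Z), ‖∑' i, β i f * θ i z‖ ≤ |M| * ‖f‖ * ‖z‖ := by
    intro f z
    have hfin : ∀ S : Finset I, ‖∑ i ∈ S, β i f * θ i z‖ ≤ |M| * ‖f‖ * ‖z‖ := by
      intro S
      rw [Real.norm_eq_abs]
      apply abs_le_of_sq_le_sq _ (by positivity)
      have h3 : (∑ i ∈ S, β i f * θ i z) ^ 2 ≤ (∑ i ∈ S, (β i f) ^ 2) * ∑ i ∈ S, (θ i z) ^ 2 :=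
        Finset.sum_mul_sq_le_sq_mul_sq _ _ _
      have h4 : 0 ≤ ∑ i ∈ S, (θ i z) ^ 2 := Finset.sum_nonneg fun i _ => sq_nonneg _
      have h5 : 0 ≤ ∑ i ∈ S, (β i f) ^ 2 := Finset.sum_nonneg fun i _ => sq_nonneg _
      have h6 := hβ S f
      have h7 := hθ S z
      calc (∑ i ∈ S, β i f * θ i z) ^ 2 ≤ (∑ i ∈ S, (β i f) ^ 2) * ∑ i ∈ S, (θ i z) ^ 2 := h3
        _ ≤ (M * ‖f‖ ^ 2) * (M * ‖z‖ ^ 2) := mul_le_mul h6 h7 h4 (h5.trans h6)
        _ = (|M| * ‖f‖ * ‖z‖) ^ 2 := by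
          rw [mul_pow, mul_pow, sq_abs]; ring
    exact le_of_tendsto' ((hsum f z).hasSum.norm) hfin
  let B : StrongDual ℝ Z →L[ℝ] Z →L[ℝ] ℝ :=
    LinearMap.mkContinuous₂
      (LinearMap.mk₂ ℝ (fun (f : StrongDual ℝ Z) (z : Z) => ∑' i, β i f * θ i z)
        (by
          intro f f' z
          rw [← (hsum f z).tsum_add (hsum f' z)]
          congr 1; funext i; rw [map_add]; ring)
        (by
          intro c f z
          rw [smul_eq_mul, ← tsum_mul_left]
          congr 1; funext i; rw [map_smul, smul_eq_mul]; ring)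
        (by
          intro f z z'
          rw [← (hsum f z).tsum_add (hsum f z')]
          congr 1; funext i; rw [map_add]; ring)
        (by
          intro c f z
          rw [smul_eq_mul, ← tsum_mul_left]
          congr 1; funext i; rw [map_smul, smul_eq_mul]; ring))
      |M| (by intro f z; exact hbound f z)
  refine ⟨ContinuousLinearMap.id ℝ (StrongDual ℝ Z) - B, fun f z => ?_⟩
  have : f z - (ContinuousLinearMap.id ℝ (StrongDual ℝ Z) - B) f z = ∑' i, β i f * θ i z := by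
    have h3 : (ContinuousLinearMap.id ℝ (StrongDual ℝ Z) - B) f z = f z - ∑' i, β i f * θ i z := rfl
    rw [h3]; ring
  rw [this]
  exact (hsum f z).hasSum

end WCGBidual
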