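import Pool.Agent.H251.W4
open Set Filter Topology
open scoped ENNReal

namespace WCGBidual

/-! ## The concrete tree: alphabet `ℕ ⊕ (ℕ → ℝ)` -/

abbrev Al : Type := ℕ ⊕ (ℕ → ℝ)

/-- TARGET 0 (cardinality) -/
theorem exists_surj : ∃ u : ℝ → List Al, Function.Surjective u := by
  have h1 : Cardinal.mk (ℕ → ℝ) = Cardinal.continuum := by
    rw [← Cardinal.power_def, Cardinal.mk_real, Cardinal.mk_nat, Cardinal.continuum_power_aleph0]
  have h2 : Cardinal.mk Al ≤ Cardinal.continuum := by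
    unfold Al
    rw [Cardinal.mk_sum, h1]
    simp only [Cardinal.mk_nat, Cardinal.lift_aleph0, Cardinal.lift_continuum]
    rw [Cardinal.add_eq_max' Cardinal.aleph0_le_continuum]
    exact max_le Cardinal.aleph0_le_continuum le_rfl
  have h3 : Cardinal.mk (List Al) ≤ Cardinal.mk ℝ := by
    rw [Cardinal.mk_real]
    refine (Cardinal.mk_list_le_max Al).trans ?_
    exact max_le Cardinal.aleph0_le_continuum h2
  obtain ⟨f⟩ := Cardinal.le_def _ _ |>.1 h3
  exact ⟨Function.invFun f, Function.invFun_surjective f.injective⟩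

noncomputable def uu : ℝ → List Al := Classical.choose exists_surj
lemma uu_surj : Function.Surjective uu := Classical.choose_spec exists_surj

/-- parent node `π_n(g)` -/
noncomputable def par (n : ℕ) (g : ℕ → ℝ) : List Al := uu (g n) ++ [Sum.inl n]

/-- block nodes -/
noncomputable def blk (n : ℕ) (g : ℕ → ℝ) (j : ℕ) : List Al :=
  List.replicate j (Sum.inl 0) ++ (Sum.inr g :: par n g)

/-- the branch through the block -/
noncomputable def br (n : ℕ) (g : ℕ → ℝ) : ℕ → Al :=
  fun i => ((blk n g 0).reverse).getD i (Sum.inl 0)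

lemma node_rev {A : Type} (L : List A) (d : A) (k : ℕ) (hk : k ≤ L.length) :
    node (fun i => L.reverse.getD i d) k = L.drop (L.length - k) := by
  induction k with
  | zero => simp
  | succ k ih =>
    rw [node_succ, ih (by omega)]
    have h1 : L.length - (k + 1) < L.length := by omega
    rw [List.drop_eq_getElem_cons h1]
    have h2 : L.length - (k + 1) + 1 = L.length - k := by omega
    rw [h2]
    congr 1
    have h3 : k < L.reverse.length := by rw [List.length_reverse]; omega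
    simp only [List.getD_eq_getElem?_getD, List.getElem?_eq_getElem h3, Option.getD_some,
      List.getElem_reverse]
    congr 1
    omega

lemma node_rev_add {A : Type} (L : List A) (d : A) (j : ℕ) :
    node (fun i => L.reverse.getD i d) (L.length + j) = List.replicate j d ++ L := by
  induction j with
  | zero =>
    rw [add_zero, node_rev L d _ le_rfl]
    simp
  | succ j ih =>
    rw [← add_assoc, node_succ, ih, List.replicate_succ, List.cons_append]
    congr 1
    rw [List.getD_eq_default]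
    rw [List.length_reverse]
    omega

lemma blk_zero (n : ℕ) (g : ℕ → ℝ) : blk n g 0 = Sum.inr g :: par n g := rfl

lemma blk_eq (n : ℕ) (g : ℕ → ℝ) (j : ℕ) : blk n g j = List.replicate j (Sum.inl 0) ++ blk n g 0 := rfl

lemma blk_succ (n : ℕ) (g : ℕ → ℝ) (j : ℕ) : blk n g (j + 1) = Sum.inl 0 :: blk n g j := rfl

/-- TARGET 1 -/
theorem node_br_blk (n : ℕ) (g : ℕ → ℝ) (j : ℕ) :
    node (br n g) ((par n g).length + 1 + j) = blk n g j := by
  have h := node_rev_add (blk n g 0) (Sum.inl 0) j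
  have h2 : (blk n g 0).length = (par n g).length + 1 := rfl
  rw [h2] at h
  rw [blk_eq]
  exact h

/-- TARGET 2 -/
theorem node_br_par (n : ℕ) (g : ℕ → ℝ) : node (br n g) (par n g).length = par n g := by
  have h2 : (blk n g 0).length = (par n g).length + 1 := rfl
  have h := node_rev (blk n g 0) (Sum.inl 0) (par n g).length (by omega)
  have h3 : (blk n g 0).length - (par n g).length = 1 := by omega
  rw [h3] at h
  unfold br
  rw [h]
  rfl

/-- TARGET 3 -/
theorem blk_inj {n n' : ℕ} {g g' : ℕ → ℝ} {j j' : ℕ} (h : blk n g j = blk n' g' j') :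
    n = n' ∧ g = g' ∧ j = j' := by
  induction j generalizing j' with
  | zero =>
    cases j' with
    | zero =>
      rw [blk_zero, blk_zero, List.cons_eq_cons] at h
      obtain ⟨h1, h2⟩ := h
      unfold par at h2
      obtain ⟨_, h4⟩ := List.append_inj' h2 rfl
      refine ⟨?_, ?_, rfl⟩
      · have := (List.cons_eq_cons.1 h4).1
        exact Sum.inl.inj this
      · exact Sum.inr.inj h1
    | succ j' =>
      rw [blk_zero, blk_succ, List.cons_eq_cons] at h
      exact absurd h.1 (by simp)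
  | succ j ih =>
    cases j' with
    | zero =>
      rw [blk_zero, blk_succ, List.cons_eq_cons] at h
      exact absurd h.1 (by simp)
    | succ j' =>
      rw [blk_succ, blk_succ, List.cons_eq_cons] at h
      obtain ⟨h1, h2, h3⟩ := ih h.2
      exact ⟨h1, h2, by rw [h3]⟩

/-- TARGET 4 -/
theorem blk_ne (n : ℕ) (g g' : ℕ → ℝ) (j : ℕ) : blk n g j ≠ [Sum.inr g'] := by
  intro h
  have h1 : (List.replicate j (Sum.inl 0) ++ (Sum.inr g :: uu (g n)) : List Al) ++ [Sum.inl n] =
      [] ++ [Sum.inr g'] := by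
    rw [List.nil_append, ← h, blk, par]
    simp
  obtain ⟨_, h3⟩ := List.append_inj' h1 rfl
  have := (List.cons_eq_cons.1 h3).1
  exact absurd this (by simp)

lemma blk_ne_nil (n : ℕ) (g : ℕ → ℝ) (j : ℕ) : blk n g j ≠ [] := by
  unfold blk
  simp

lemma par_ne_nil (n : ℕ) (g : ℕ → ℝ) : par n g ≠ [] := by
  unfold par
  simp

lemma par_suf_blk (n : ℕ) (g : ℕ → ℝ) (j : ℕ) : par n g <:+ blk n g j := by
  unfold blk
  exact (List.suffix_cons _ _).trans (List.suffix_append _ _)

lemma blk_suf_blk (n : ℕ) (g : ℕ → ℝ) {i j : ℕ} (h : i ≤ j) : blk n g i <:+ blk n g j := by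
  rw [← node_br_blk, ← node_br_blk]
  exact node_suf _ (by omega)

lemma blk_length (n : ℕ) (g : ℕ → ℝ) (j : ℕ) : (blk n g j).length = j + ((par n g).length + 1) := by
  unfold blk
  simp

lemma blk_not_suf_par (n : ℕ) (g : ℕ → ℝ) (j : ℕ) : ¬ blk n g j <:+ par n g := by
  intro h
  have := h.length_le
  rw [blk_length] at this
  omega

/-- TARGET 5: a suffix of a block node is a block node or a suffix of the parent -/
theorem suf_blk {n : ℕ} {g : ℕ → ℝ} {j : ℕ} {m : List Al} (h : m <:+ blk n g j) :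
    m <:+ par n g ∨ ∃ i, i ≤ j ∧ m = blk n g i := by
  induction j with
  | zero =>
    rw [blk_zero, suf_cons_iff] at h
    rcases h with h | h
    · exact Or.inr ⟨0, le_rfl, h⟩
    · exact Or.inl h
  | succ j ih =>
    rw [blk_succ, suf_cons_iff] at h
    rcases h with h | h
    · exact Or.inr ⟨j + 1, le_rfl, h⟩
    · rcases ih h with h1 | ⟨i, hi, h1⟩
      · exact Or.inl h1
      · exact Or.inr ⟨i, by omega, h1⟩

/-- TARGET 6: different `(n,g)` give different branches -/
theorem br_injective : Function.Injective (fun i : ℕ × (ℕ → ℝ) => br i.1 i.2) := by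
  rintro ⟨n, g⟩ ⟨n', g'⟩ h
  simp only at h
  have h1 := node_br_blk n g ((par n' g').length + 1)
  have h2 := node_br_blk n' g' ((par n g).length + 1)
  rw [h] at h1
  have h3 : (par n g).length + 1 + ((par n' g').length + 1) =
      (par n' g').length + 1 + ((par n g).length + 1) := by omega
  rw [h3, h2] at h1
  obtain ⟨e1, e2, _⟩ := blk_inj h1
  rw [e1, e2]

/-- the functionals defining `X` -/
noncomputable def theta (i : ℕ × (ℕ → ℝ)) : StrongDual ℝ (Z Al) :=
  evb (br i.1 i.2) - ev (par i.1 i.2) - ((1 / 2 : ℝ) ^ i.1) • ev [Sum.inr i.2]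

/-- the space `X` -/
noncomputable def XX : Submodule ℝ (Z Al) := ⨅ i, LinearMap.ker (theta i).toLinearMap

/-- the nodes of the branch -/
lemma on_branch (n : ℕ) (g : ℕ → ℝ) {t : List Al} :
    (∃ k, t <:+ node (br n g) k) ↔ (t <:+ par n g ∨ ∃ j, t = blk n g j) := by
  constructor
  · rintro ⟨k, hk⟩
    have h1 : t <:+ blk n g k := by
      rw [← node_br_blk]
      exact hk.trans (node_suf _ (by omega))
    rcases suf_blk h1 with h | ⟨i, _, h⟩
    · exact Or.inl h
    · exact Or.inr ⟨i, h⟩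
  · rintro (h | ⟨j, h⟩)
    · exact ⟨_, by rw [node_br_par]; exact h⟩
    · exact ⟨_, by rw [h, ← node_br_blk]⟩

open Classical in
lemma evb_eC {A : Type} (b : ℕ → A) {t : List A} (ht : t ≠ []) :
    evb b (e t) = if ∃ k, t <:+ node b k then 1 else 0 := by
  have h1 := tendsto_evb b (e t)
  by_cases h : ∃ k, t <:+ node b k
  · rw [if_pos h]
    obtain ⟨k, hk⟩ := h
    refine tendsto_nhds_unique h1 ?_
    apply tendsto_const_nhds.congr'
    filter_upwards [eventually_ge_atTop k] with m hm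
    rw [e_apply_of_suf ht (hk.trans (node_suf b hm))]
  · rw [if_neg h]
    refine tendsto_nhds_unique h1 ?_
    apply tendsto_const_nhds.congr
    intro m
    rw [e_apply_of_not (fun hm => h ⟨m, hm⟩)]

open Classical in
lemma theta_e (i : ℕ × (ℕ → ℝ)) {t : List Al} (ht : t ≠ []) :
    theta i (e t) = (if ∃ j, t = blk i.1 i.2 j then 1 else 0) -
      (1 / 2 : ℝ) ^ i.1 * (if t = [Sum.inr i.2] then 1 else 0) := by
  have h0 : theta i (e t) = evb (br i.1 i.2) (e t) - (e t) (par i.1 i.2) -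
      (1 / 2 : ℝ) ^ i.1 * (e t) [Sum.inr i.2] := rfl
  rw [h0, evb_eC _ ht]
  have h1 : (e t) [Sum.inr i.2] = if t = [Sum.inr i.2] then 1 else 0 := by
    by_cases h : t = [Sum.inr i.2]
    · rw [if_pos h, e_apply_of_suf ht (by rw [h])]
    · rw [if_neg h, e_apply_of_not]
      intro h2
      rcases suf_cons_iff.1 h2 with h3 | h3
      · exact h h3
      · exact ht (List.eq_nil_of_suffix_nil h3)
  rw [h1]
  congr 1
  by_cases hp : t <:+ par i.1 i.2
  · have h2 : ∃ k, t <:+ node (br i.1 i.2) k := (on_branch _ _).2 (Or.inl hp)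
    have h3 : ¬ ∃ j, t = blk i.1 i.2 j := by
      rintro ⟨j, hj⟩
      rw [hj] at hp
      exact blk_not_suf_par _ _ _ hp
    rw [if_pos h2, if_neg h3, e_apply_of_suf ht hp, sub_self]
  · rw [e_apply_of_not hp, sub_zero]
    by_cases hj : ∃ j, t = blk i.1 i.2 j
    · rw [if_pos hj, if_pos ((on_branch _ _).2 (Or.inr hj))]
    · have h2 : ¬ ∃ k, t <:+ node (br i.1 i.2) k := by
        intro h
        rcases (on_branch _ _).1 h with h | h
        · exact hp h
        · exact hj h
      rw [if_neg hj, if_neg h2]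

open Classical in
/-- TARGET 7 -/
theorem theta_e_blk (i : ℕ × (ℕ → ℝ)) (n : ℕ) (g : ℕ → ℝ) (j : ℕ) :
    theta i (e (blk n g j)) = if i = (n, g) then 1 else 0 := by
  rw [theta_e i (blk_ne_nil n g j), if_neg (blk_ne n g i.2 j), mul_zero, sub_zero]
  by_cases h : i = (n, g)
  · rw [if_pos h, if_pos]
    exact ⟨j, by rw [h]⟩
  · rw [if_neg h, if_neg]
    rintro ⟨j', hj'⟩
    obtain ⟨e1, e2, _⟩ := blk_inj hj'
    exact h (Prod.ext e1.symm e2.symm)

open Classical in
/-- TARGET 8 -/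
theorem theta_e_inr (i : ℕ × (ℕ → ℝ)) (g : ℕ → ℝ) :
    theta i (e [Sum.inr g]) = if i.2 = g then -((1 / 2 : ℝ) ^ i.1) else 0 := by
  rw [theta_e i (by simp), if_neg (by rintro ⟨j, hj⟩; exact blk_ne _ _ _ _ hj.symm)]
  by_cases h : i.2 = g
  · rw [if_pos h, if_pos (by rw [h])]
    ring
  · rw [if_neg h, if_neg]
    · ring
    · intro h2
      exact h (Sum.inr.inj (List.cons_eq_cons.1 h2).1).symm

/-- TARGET 9 -/
theorem theta_e_other (i : ℕ × (ℕ → ℝ)) (t : List Al) (h1 : ∀ n g j, t ≠ blk n g j)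
    (h2 : ∀ g, t ≠ [Sum.inr g]) : theta i (e t) = 0 := by
  by_cases ht : t = []
  · rw [ht, e_nil, map_zero]
  · rw [theta_e i ht, if_neg (by rintro ⟨j, hj⟩; exact h1 _ _ _ hj), if_neg (h2 _)]
    ring

lemma tendsto_blk_aux (z : Z Al) (n : ℕ) (g : ℕ → ℝ) :
    Tendsto (fun j => z (blk n g j)) atTop (𝓝 (evb (br n g) z)) := by
  have h1 : Tendsto (fun j : ℕ => (par n g).length + 1 + j) atTop atTop :=
    (tendsto_add_atTop_nat ((par n g).length + 1)).congr (fun j => by omega)
  have h2 := (tendsto_evb (br n g) z).comp h1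
  refine h2.congr (fun j => ?_)
  simp only [Function.comp, node_br_blk]

lemma sum_part1 (S : Finset (ℕ × (ℕ → ℝ))) (z : Z Al) :
    ∑ i ∈ S, (evb (br i.1 i.2) z - z (par i.1 i.2)) ^ 2 ≤ ‖z‖ ^ 2 := by
  have hlim : Tendsto (fun j => ∑ i ∈ S, (z (blk i.1 i.2 j) - z (par i.1 i.2)) ^ 2) atTop
      (𝓝 (∑ i ∈ S, (evb (br i.1 i.2) z - z (par i.1 i.2)) ^ 2)) := by
    apply tendsto_finsetSum
    intro i _
    exact ((tendsto_blk_aux z i.1 i.2).sub_const _).pow 2
  apply le_of_tendsto hlim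
  apply Eventually.of_forall
  intro j
  have h1 := z.sum_le (fun i : S => (par i.1.1 i.1.2, blk i.1.1 i.1.2 j)) ⟨?_, ?_⟩
  · simp only [D] at h1
    rw [← Finset.sum_coe_sort S (fun i => (z (blk i.1 i.2 j) - z (par i.1 i.2)) ^ 2)]
    exact h1
  · intro i
    exact par_suf_blk _ _ _
  · intro i i' hii m hm hm'
    simp only at hm hm' ⊢
    rcases suf_blk hm with h | ⟨a, _, h⟩
    · exact Or.inl h.length_le
    · rcases suf_blk hm' with h' | ⟨a', _, h'⟩
      · exact Or.inr h'.length_le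
      · exfalso
        rw [h] at h'
        obtain ⟨e1, e2, _⟩ := blk_inj h'
        exact hii (Subtype.ext (Prod.ext e1 e2))

lemma sum_part2 (G : Finset (ℕ → ℝ)) (z : Z Al) :
    ∑ g ∈ G, (z [Sum.inr g]) ^ 2 ≤ ‖z‖ ^ 2 := by
  have h1 := z.sum_le (fun g : G => (([] : List Al), ([Sum.inr g.1] : List Al))) ⟨?_, ?_⟩
  · simp only [D, Z.nil, sub_zero] at h1
    rw [← Finset.sum_coe_sort G (fun g => (z [Sum.inr g]) ^ 2)]
    exact h1
  · intro i
    exact List.nil_suffix
  · intro i i' hii m hm hm'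
    simp only at hm hm' ⊢
    rcases suf_cons_iff.1 hm with h | h
    · rcases suf_cons_iff.1 hm' with h' | h'
      · exfalso
        rw [h] at h'
        have := (List.cons_eq_cons.1 h').1
        exact hii (Subtype.ext (Sum.inr.inj this))
      · right
        exact h'.length_le
    · left
      exact h.length_le

/-- TARGET 10 -/
theorem theta_l2 (S : Finset (ℕ × (ℕ → ℝ))) (z : Z Al) :
    ∑ i ∈ S, (theta i z) ^ 2 ≤ 6 * ‖z‖ ^ 2 := by
  classical
  have h0 : ∀ i, theta i z = (evb (br i.1 i.2) z - z (par i.1 i.2)) -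
      (1 / 2 : ℝ) ^ i.1 * z [Sum.inr i.2] := fun i => rfl
  have h1 := sum_part1 S z
  have h2 : ∑ i ∈ S, ((1 / 2 : ℝ) ^ i.1 * z [Sum.inr i.2]) ^ 2 ≤ 2 * ‖z‖ ^ 2 := by
    have h3 : ∑ n ∈ S.image Prod.fst, (1 / 4 : ℝ) ^ n ≤ 2 := by
      have hs : Summable fun n : ℕ => (1 / 4 : ℝ) ^ n :=
        summable_geometric_of_lt_one (by norm_num) (by norm_num)
      have h4 := hs.sum_le_tsum (S.image Prod.fst) (fun n _ => by positivity)
      rw [tsum_geometric_of_lt_one (by norm_num) (by norm_num)] at h4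
      norm_num at h4
      norm_num
      linarith
    have h5 := sum_part2 (S.image Prod.snd) z
    calc ∑ i ∈ S, ((1 / 2 : ℝ) ^ i.1 * z [Sum.inr i.2]) ^ 2
        = ∑ i ∈ S, (1 / 4 : ℝ) ^ i.1 * (z [Sum.inr i.2]) ^ 2 := by
          apply Finset.sum_congr rfl
          intro i _
          rw [mul_pow, ← pow_mul, mul_comm i.1 2, pow_mul]
          norm_num
      _ ≤ ∑ i ∈ S.image Prod.fst ×ˢ S.image Prod.snd, (1 / 4 : ℝ) ^ i.1 * (z [Sum.inr i.2]) ^ 2 := by
          apply Finset.sum_le_sum_of_subset_of_nonneg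
          · intro i hi
            rw [Finset.mem_product]
            exact ⟨Finset.mem_image_of_mem _ hi, Finset.mem_image_of_mem _ hi⟩
          · intro i _ _
            positivity
      _ = (∑ n ∈ S.image Prod.fst, (1 / 4 : ℝ) ^ n) * ∑ g ∈ S.image Prod.snd, (z [Sum.inr g]) ^ 2 := by
          rw [Finset.sum_product, Finset.sum_mul_sum]
      _ ≤ 2 * ‖z‖ ^ 2 := by
          apply mul_le_mul h3 h5
          · exact Finset.sum_nonneg fun g _ => sq_nonneg _
          · norm_num
  have h3 : ∀ i ∈ S, (theta i z) ^ 2 ≤ 2 * (evb (br i.1 i.2) z - z (par i.1 i.2)) ^ 2 +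
      2 * ((1 / 2 : ℝ) ^ i.1 * z [Sum.inr i.2]) ^ 2 := by
    intro i _
    rw [h0]
    nlinarith [sq_nonneg ((evb (br i.1 i.2) z - z (par i.1 i.2)) +
      (1 / 2 : ℝ) ^ i.1 * z [Sum.inr i.2])]
  calc ∑ i ∈ S, (theta i z) ^ 2 ≤ ∑ i ∈ S, (2 * (evb (br i.1 i.2) z - z (par i.1 i.2)) ^ 2 +
      2 * ((1 / 2 : ℝ) ^ i.1 * z [Sum.inr i.2]) ^ 2) := Finset.sum_le_sum h3
    _ = 2 * ∑ i ∈ S, (evb (br i.1 i.2) z - z (par i.1 i.2)) ^ 2 +
        2 * ∑ i ∈ S, ((1 / 2 : ℝ) ^ i.1 * z [Sum.inr i.2]) ^ 2 := by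
        rw [Finset.sum_add_distrib, Finset.mul_sum, Finset.mul_sum]
    _ ≤ 6 * ‖z‖ ^ 2 := by linarith

/-- TARGET 11 -/
theorem tendsto_blk (z : Z Al) (n : ℕ) (g : ℕ → ℝ) :
    Tendsto (fun j => z (blk n g j)) atTop (𝓝 (evb (br n g) z)) :=
  tendsto_blk_aux z n g

end WCGBidual
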