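import Pool.Agent.H251.W3
open Set Filter Topology
open scoped ENNReal

namespace WCGBidual
variable {A : Type}


/-- TARGET -/
theorem dense_e : (Submodule.span ℝ (Set.range (e : List A → Z A))).topologicalClosure = ⊤ := by
  classical
  rw [eq_top_iff]
  rintro z -
  rw [← SetLike.mem_coe, Submodule.topologicalClosure_coe, Metric.mem_closure_iff]
  intro ε hε
  obtain ⟨F, hF, hfin, hclose⟩ := exists_P_close z (half_pos hε)
  refine ⟨P F hF z, ?_, ?_⟩
  · have key : P F hF z = ∑ t ∈ hfin.toFinset, (z t - z t.tail) • e t := by
      apply Z.ext'
      intro m
      rw [Z.coe_sum, P_apply]
      simp only [Z.coe_smul]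
      symm
      induction m with
      | nil =>
        rw [rho_nil, Z.nil]
        apply Finset.sum_eq_zero
        intro t _
        rw [Z.nil, mul_zero]
      | cons a l ih =>
        have h1 : ∀ t ∈ hfin.toFinset, (z t - z t.tail) * e t (a :: l) =
            (z t - z t.tail) * e t l + (if t = a :: l then (z t - z t.tail) else 0) := by
          intro t _
          by_cases ht : t = []
          · subst ht
            rw [e_nil]; simp
          · by_cases h2 : t = a :: l
            · have h3 : ¬ (t <:+ l) := by
                intro h
                have := h.length_le
                rw [h2] at this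
                simp at this
              rw [if_pos h2, e_apply_of_not h3, e_apply_of_suf ht (by rw [h2])]
              ring
            · rw [if_neg h2, add_zero]
              by_cases h3 : t <:+ l
              · rw [e_apply_of_suf ht h3, e_apply_of_suf ht (suf_cons_iff.2 (Or.inr h3))]
              · rw [e_apply_of_not h3, e_apply_of_not]
                intro h4
                rcases suf_cons_iff.1 h4 with h5 | h5
                · exact h2 h5
                · exact h3 h5
        rw [Finset.sum_congr rfl h1, Finset.sum_add_distrib, ih, Finset.sum_ite_eq']
        by_cases h4 : a :: l ∈ F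
        · have h5 : l ∈ F := hF.down _ h4 l (List.suffix_cons a l)
          rw [if_pos (hfin.mem_toFinset.2 h4), rho_eq _ h4, rho_eq _ h5]
          simp
        · rw [if_neg (fun h => h4 (hfin.mem_toFinset.1 h)), add_zero]
          have h6 : rho F (a :: l) = rho F l := by
            rw [rho, if_neg h4]
          rw [h6]
    rw [key]
    apply Submodule.sum_mem
    intro t _
    exact Submodule.smul_mem _ _ (Submodule.subset_span ⟨t, rfl⟩)
  · rw [dist_eq_norm]
    have := hclose F hF (le_refl F)
    linarith

end WCGBidual
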