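import Pool.Agent.H251.W4
open Set Filter Topology
open scoped ENNReal

namespace WCGBidual
variable {A : Type}

lemma weak_cont {E : Type} [NormedAddCommGroup E] [NormedSpace ℝ E] (ψ : StrongDual ℝ E) :
    Continuous (fun x : WeakSpace ℝ E => ψ ((toWeakSpace ℝ E).symm x)) :=
  WeakBilin.eval_continuous (topDualPairing ℝ E).flip ψ

/-- one step of the fusion -/
lemma fusion_step [Infinite A] {E : Type} [NormedAddCommGroup E] [NormedSpace ℝ E]
    (J : E →L[ℝ] Z A) (c : ℝ) (hc : 0 < c) (t : List A) (D' : Set (E × List A))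
    (M : ℝ) (hM : ∀ x ∈ D', |(J x.1) t| ≤ M)
    (hp' : ∀ x ∈ D', ∃ p' : List A, x.2 <:+ p' ∧ c ≤ |(J x.1) p' - (J x.1) x.2|)
    (hdense : ∀ t', t <:+ t' → ∃ x ∈ D', t' <:+ x.2) (ε : ℝ) (hε : 0 < ε) :
    ∃ (tp : List A) (Dp : Set (E × List A)) (φ : ℝ) (k : E), t <:+ tp ∧ t.length < tp.length ∧
      Dp ⊆ D' ∧ (∀ t', tp <:+ t' → ∃ x ∈ Dp, t' <:+ x.2) ∧ (∀ x ∈ Dp, |(J x.1) t - φ| ≤ ε) ∧
      (∃ x ∈ Dp, x.1 = k) ∧ ∀ t'', tp <:+ t'' → 3 * c / 8 ≤ |(J k) t'' - φ| := by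
  classical
  let f : E × List A → ℝ := fun x => (J x.1) t
  let S : List A → ℝ := fun t' => sSup (f '' {x ∈ D' | t' <:+ x.2})
  have hbdd : ∀ t', BddAbove (f '' {x ∈ D' | t' <:+ x.2}) := by
    intro t'
    refine ⟨M, ?_⟩
    rintro _ ⟨x, ⟨hx, _⟩, rfl⟩
    exact (abs_le.1 (hM x hx)).2
  have hSlb : ∀ t', t <:+ t' → -M ≤ S t' := by
    intro t' ht'
    obtain ⟨x, hx, hxt⟩ := hdense t' ht'
    have h1 : f x ≤ S t' := le_csSup (hbdd t') ⟨x, ⟨hx, hxt⟩, rfl⟩
    have h2 : -M ≤ f x := (abs_le.1 (hM x hx)).1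
    linarith
  have hSbdd : BddBelow (S '' {t' | t <:+ t'}) := by
    refine ⟨-M, ?_⟩
    rintro _ ⟨t', ht', rfl⟩
    exact hSlb t' ht'
  have hSne : (S '' {t' | t <:+ t'}).Nonempty := ⟨S t, t, List.suffix_rfl, rfl⟩
  set φ : ℝ := sInf (S '' {t' | t <:+ t'}) with hφ
  obtain ⟨_, ⟨t', ht', rfl⟩, hlt⟩ := exists_lt_of_csInf_lt hSne
    (show sInf (S '' {t' | t <:+ t'}) < φ + ε by rw [← hφ]; linarith)
  have ht'' : t <:+ t' := ht'
  have hφle : ∀ t'', t <:+ t'' → φ ≤ S t'' := fun t'' h'' =>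
    csInf_le hSbdd ⟨t'', h'', rfl⟩
  -- the new set
  set Dp : Set (E × List A) := {x | x ∈ D' ∧ t' <:+ x.2 ∧ φ - ε < f x} with hDp
  have hDdense : ∀ t'', t' <:+ t'' → ∃ x ∈ Dp, t'' <:+ x.2 := by
    intro t'' h''
    have h1 := hφle t'' (ht''.trans h'')
    obtain ⟨x0, hx0, hx0t⟩ := hdense t'' (ht''.trans h'')
    have hne : (f '' {x ∈ D' | t'' <:+ x.2}).Nonempty := ⟨f x0, x0, ⟨hx0, hx0t⟩, rfl⟩
    obtain ⟨_, ⟨x, ⟨hx, hxt⟩, rfl⟩, hgt⟩ := exists_lt_of_lt_csSup hne
      (show φ - ε < sSup (f '' {x ∈ D' | t'' <:+ x.2}) by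
        have : φ - ε < S t'' := by linarith
        exact this)
    exact ⟨x, ⟨hx, h''.trans hxt, hgt⟩, hxt⟩
  have hDφ : ∀ x ∈ Dp, |(J x.1) t - φ| ≤ ε := by
    rintro x ⟨hx, hxt, hgt⟩
    have h1 : f x ≤ S t' := le_csSup (hbdd t') ⟨x, ⟨hx, hxt⟩, rfl⟩
    rw [abs_le]
    have h2 : f x = (J x.1) t := rfl
    rw [h2] at h1 hgt
    constructor <;> linarith
  obtain ⟨x, hx, hxt⟩ := hDdense t' List.suffix_rfl
  obtain ⟨p', hpp', hcp⟩ := hp' x hx.1
  -- choose q
  obtain ⟨q, hxq, hq⟩ : ∃ q, x.2 <:+ q ∧ c / 2 ≤ |(J x.1) q - φ| := by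
    by_contra hcon
    push Not at hcon
    have h1 := hcon x.2 List.suffix_rfl
    have h2 := hcon p' hpp'
    have h3 : |(J x.1) p' - (J x.1) x.2| < c := by
      rw [abs_lt] at *
      constructor <;> linarith [h1.1, h1.2, h2.1, h2.2]
    linarith
  obtain ⟨a, ha⟩ := exists_letter (J x.1) q (show 0 < c / 8 by positivity)
  have htq : t' <:+ a :: q := (hxt.trans hxq).trans (List.suffix_cons a q)
  refine ⟨a :: q, Dp, φ, x.1, ht''.trans htq, ?_, fun y hy => hy.1, ?_, hDφ, ⟨x, hx, rfl⟩, ?_⟩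
  · have h1 := ((ht''.trans hxt).trans hxq).length_le
    rw [List.length_cons]; omega
  · intro t'' h''
    exact hDdense t'' (htq.trans h'')
  · intro t'' h''
    have h1 := ha t'' h''
    by_contra hcon
    push Not at hcon
    have h2 : |(J x.1) q - φ| < c / 2 := by
      rw [abs_le] at h1
      rw [abs_lt] at hcon ⊢
      constructor <;> linarith [h1.1, h1.2, hcon.1, hcon.2]
    linarith

/-- existence of the branch through an increasing sequence of nodes -/
lemma exists_branch (T : ℕ → List A) (hT : ∀ l, T l <:+ T (l + 1))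
    (hlen : ∀ l, (T l).length < (T (l + 1)).length) :
    ∃ b : ℕ → A, ∀ l, T l = node b (T l).length := by
  have hlen' : ∀ l, l ≤ (T l).length := by
    intro l
    induction l with
    | zero => omega
    | succ l ih => have := hlen l; omega
  have hmono : ∀ l l', l ≤ l' → T l <:+ T l' := by
    intro l l' h
    induction l', h using Nat.le_induction with
    | base => exact List.suffix_rfl
    | succ k _ ih => exact ih.trans (hT k)
  have hex : ∀ j, ∃ a : A, ∃ s : List A, s.length = j ∧ (a :: s) <:+ T (j + 1) := by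
    intro j
    have h1 := hlen' (j + 1)
    have h2 : ((T (j + 1)).drop ((T (j + 1)).length - (j + 1))).length = j + 1 := by
      rw [List.length_drop]; omega
    match hm : (T (j + 1)).drop ((T (j + 1)).length - (j + 1)) with
    | [] => rw [hm] at h2; simp at h2
    | a :: s =>
      refine ⟨a, s, ?_, ?_⟩
      · rw [hm] at h2; simpa using h2
      · rw [← hm]; exact List.drop_suffix _ _
  choose b s hs hbs using hex
  have hnode : ∀ j, node b j <:+ T j := by
    intro j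
    induction j with
    | zero => exact List.nil_suffix
    | succ j ih =>
      have h1 : node b j <:+ T (j + 1) := ih.trans (hT j)
      have h2 : s j <:+ T (j + 1) := (List.suffix_cons _ _).trans (hbs j)
      have h3 : node b j = s j := suf_eq h1 h2 (by rw [node_length, hs])
      rw [node_succ, h3]
      exact hbs j
  refine ⟨b, fun l => ?_⟩
  have h1 : T l <:+ T (T l).length := hmono _ _ (hlen' l)
  exact suf_eq h1 (hnode _) (by rw [node_length])

/-- TARGET (only this one is to be proved). -/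
theorem fusion [Infinite A] {E : Type} [NormedAddCommGroup E] [NormedSpace ℝ E]
    (J : E →L[ℝ] Z A) (C : Set E) (hC : IsCompact (toWeakSpace ℝ E '' C))
    (t0 : List A) (c : ℝ) (hc : 0 < c)
    (h : ∀ t : List A, t0 <:+ t → ∃ k ∈ C, ∃ p' : List A, t <:+ p' ∧ c ≤ |(J k) p' - (J k) t|) :
    False := by
  classical
  -- boundedness at each node
  have hbdd : ∀ t : List A, ∃ M : ℝ, ∀ k ∈ C, |(J k) t| ≤ M := by
    intro t
    have h1 : IsCompact ((fun x : WeakSpace ℝ E => ((ev t).comp J) ((toWeakSpace ℝ E).symm x)) ''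
        (toWeakSpace ℝ E '' C)) := hC.image (weak_cont ((ev t).comp J))
    obtain ⟨M, hM⟩ := h1.isBounded.exists_norm_le
    refine ⟨M, fun k hk => ?_⟩
    exact hM _ ⟨toWeakSpace ℝ E k, ⟨k, hk, rfl⟩, by simp⟩
  choose M hM using hbdd
  let DD : Set (E × List A) := {x | x.1 ∈ C ∧ t0 <:+ x.2 ∧
    ∃ p', x.2 <:+ p' ∧ c ≤ |(J x.1) p' - (J x.1) x.2|}
  -- states
  let St := {s : List A × Set (E × List A) // s.2 ⊆ DD ∧
    ∀ t', s.1 <:+ t' → ∃ x ∈ s.2, t' <:+ x.2}
  have step : ∀ (n : ℕ) (s : St), ∃ (s' : St) (φ : ℝ) (k : E), s.1.1 <:+ s'.1.1 ∧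
      s.1.1.length < s'.1.1.length ∧ s'.1.2 ⊆ s.1.2 ∧
      (∀ x ∈ s'.1.2, |(J x.1) s.1.1 - φ| ≤ 1 / ((n : ℝ) + 1)) ∧
      (∃ x ∈ s'.1.2, x.1 = k) ∧ ∀ t'', s'.1.1 <:+ t'' → 3 * c / 8 ≤ |(J k) t'' - φ| := by
    intro n s
    obtain ⟨tp, Dp, φ, k, h1, h2, h3, h4, h5, h6, h7⟩ := fusion_step J c hc s.1.1 s.1.2
      (M s.1.1) (fun x hx => hM _ _ (s.2.1 hx).1) (fun x hx => (s.2.1 hx).2.2) s.2.2
      (1 / ((n : ℝ) + 1)) (by positivity)
    exact ⟨⟨(tp, Dp), h3.trans s.2.1, h4⟩, φ, k, h1, h2, h3, h5, h6, h7⟩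
  choose nx φ0 k0 hs1 hs2 hs3 hs4 hs5 hs6 using step
  let s0 : St := ⟨(t0, DD), subset_rfl, by
    intro t' ht'
    obtain ⟨k, hk, p', hp', hcp⟩ := h t' ht'
    exact ⟨(k, t'), ⟨hk, ht', p', hp', hcp⟩, List.suffix_rfl⟩⟩
  let st : ℕ → St := fun n => Nat.rec s0 (fun n s => nx n s) n
  have hst : ∀ n, st (n + 1) = nx n (st n) := fun n => rfl
  let T : ℕ → List A := fun n => (st n).1.1
  let DS : ℕ → Set (E × List A) := fun n => (st n).1.2
  let φ : ℕ → ℝ := fun n => φ0 n (st n)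
  let k : ℕ → E := fun n => k0 n (st n)
  have hT : ∀ l, T l <:+ T (l + 1) := fun l => hs1 l (st l)
  have hTl : ∀ l, (T l).length < (T (l + 1)).length := fun l => hs2 l (st l)
  have hDS : ∀ l, DS (l + 1) ⊆ DS l := fun l => hs3 l (st l)
  have hDSm : ∀ l l', l ≤ l' → DS l' ⊆ DS l := by
    intro l l' hll
    induction l', hll using Nat.le_induction with
    | base => exact subset_rfl
    | succ m _ ih => exact (hDS m).trans ih
  have hkDS : ∀ l, ∃ x ∈ DS (l + 1), x.1 = k l := fun l => hs5 l (st l)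
  have hk1 : ∀ l l', l ≤ l' → |(J (k l')) (T l) - φ l| ≤ 1 / ((l : ℝ) + 1) := by
    intro l l' hll
    obtain ⟨x, hx, hxk⟩ := hkDS l'
    rw [← hxk]
    exact hs4 l (st l) x (hDSm (l + 1) (l' + 1) (by omega) hx)
  have hk2 : ∀ l, ∀ t'', T (l + 1) <:+ t'' → 3 * c / 8 ≤ |(J (k l)) t'' - φ l| :=
    fun l => hs6 l (st l)
  have hkC : ∀ l, k l ∈ C := by
    intro l
    obtain ⟨x, hx, hxk⟩ := hkDS l
    rw [← hxk]
    exact ((st (l + 1)).2.1 hx).1
  obtain ⟨b, hb⟩ := exists_branch T hT hTl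
  -- cluster point
  obtain ⟨w, ⟨kk, hkk, rfl⟩, hw⟩ := hC.exists_mapClusterPt (f := atTop)
    (u := fun l => toWeakSpace ℝ E (k l)) (by
      rw [Filter.le_principal_iff, Filter.mem_map]
      exact Filter.Eventually.of_forall fun l => ⟨k l, hkC l, rfl⟩)
  have hcl : ∀ ψ : StrongDual ℝ E, MapClusterPt (ψ kk) atTop (fun l => ψ (k l)) := by
    intro ψ
    have := hw.continuousAt_comp (weak_cont ψ).continuousAt
    simpa [Function.comp_def] using this
  have hTlen : Tendsto (fun l => (T l).length) atTop atTop :=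
    (strictMono_nat_of_lt_succ hTl).tendsto_atTop
  have h1 : ∀ l, |(J kk) (T l) - φ l| ≤ 1 / ((l : ℝ) + 1) := by
    intro l
    have hcc := hcl ((ev (T l)).comp J)
    have hclosed : IsClosed {y : ℝ | |y - φ l| ≤ 1 / ((l : ℝ) + 1)} :=
      isClosed_le (by fun_prop) continuous_const
    exact hclosed.mem_of_mapClusterPt hcc (by
      filter_upwards [eventually_ge_atTop l] with l' hl'
      exact hk1 l l' hl')
  have h2 : Tendsto (fun l => (J kk) (T l)) atTop (𝓝 (evb b (J kk))) := by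
    have h3 := (tendsto_evb b (J kk)).comp hTlen
    refine h3.congr fun l => ?_
    simp only [Function.comp_apply]
    rw [← hb l]
  have h3 : Tendsto (fun l => (J kk) (T l) - φ l) atTop (𝓝 0) := by
    apply squeeze_zero_norm (a := fun l : ℕ => 1 / ((l : ℝ) + 1))
    · intro l; exact h1 l
    · exact tendsto_one_div_add_atTop_nhds_zero_nat
  have h4 : Tendsto φ atTop (𝓝 (evb b (J kk))) := by
    have := h2.sub h3
    simpa using this
  have h5 : ∀ l, 3 * c / 8 ≤ |evb b (J (k l)) - φ l| := by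
    intro l
    have h6 : Tendsto (fun n => |(J (k l)) (node b n) - φ l|) atTop
        (𝓝 |evb b (J (k l)) - φ l|) := ((tendsto_evb b (J (k l))).sub_const _).abs
    refine ge_of_tendsto h6 ?_
    filter_upwards [eventually_ge_atTop (T (l + 1)).length] with n hn
    apply hk2
    rw [hb (l + 1)]
    exact node_suf b hn
  have h7 := hcl ((evb b).comp J)
  have h8 : ∀ᶠ y in 𝓝 (((evb b).comp J) kk), |y - evb b (J kk)| < c / 8 := by
    have : Tendsto (fun y : ℝ => |y - evb b (J kk)|) (𝓝 (evb b (J kk)))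
        (𝓝 |evb b (J kk) - evb b (J kk)|) := by
      apply Continuous.tendsto
      fun_prop
    rw [sub_self, abs_zero] at this
    exact this.eventually (gt_mem_nhds (by positivity))
  have h9 := h7.frequently h8
  have h10 : ∀ᶠ l in atTop, |φ l - evb b (J kk)| < c / 8 := by
    have := Metric.tendsto_atTop.1 h4 (c / 8) (by positivity)
    obtain ⟨N, hN⟩ := this
    filter_upwards [eventually_ge_atTop N] with l hl
    exact hN l hl
  obtain ⟨l, hl1, hl2⟩ := (h9.and_eventually h10).exists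
  have h11 := h5 l
  have h12 : ((evb b).comp J) (k l) = evb b (J (k l)) := rfl
  rw [h12] at hl1
  rw [abs_lt] at hl1 hl2
  have : |evb b (J (k l)) - φ l| < 3 * c / 8 := by
    rw [abs_lt]
    constructor <;> linarith [hl1.1, hl1.2, hl2.1, hl2.2]
  linarith

end WCGBidual
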