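import Pool.Agent.H251.W6
import Pool.Agent.H251.W7
import Pool.Agent.H251.W10
import Pool.Agent.H251.W11
import Pool.Agent.H251.W13
open Set Filter Topology
open scoped ENNReal

namespace WCGBidual

lemma mem_XX {z : Z Al} : z ∈ XX ↔ ∀ i, theta i z = 0 := by
  simp only [XX, Submodule.mem_iInf, LinearMap.mem_ker]
  exact Iff.rfl

lemma isClosed_XX : IsClosed (XX : Set (Z Al)) := by
  have : (XX : Set (Z Al)) = ⋂ i, {z : Z Al | theta i z = 0} := by
    ext z
    simp only [mem_iInter]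
    exact mem_XX
  rw [this]
  exact isClosed_iInter fun i => isClosed_eq (theta i).continuous continuous_const

/-- the Banach space `X` as a type -/
def XT : Type := ↥XX

noncomputable instance : NormedAddCommGroup XT := inferInstanceAs (NormedAddCommGroup ↥XX)
noncomputable instance : NormedSpace ℝ XT := inferInstanceAs (NormedSpace ℝ ↥XX)
instance : CompleteSpace XT := isClosed_XX.completeSpace_coe

/-- the inclusion -/
noncomputable def JJ : XT →L[ℝ] Z Al := XX.subtypeL

lemma JJ_mem (x : XT) : JJ x ∈ XX := Subtype.property (p := fun z => z ∈ XX) x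
lemma JJ_norm (x : XT) : ‖JJ x‖ = ‖x‖ := rfl
lemma exists_JJ {z : Z Al} (hz : z ∈ XX) : ∃ x : XT, JJ x = z := ⟨(⟨z, hz⟩ : ↥XX), rfl⟩

lemma e_blk_sub_mem (n : ℕ) (g : ℕ → ℝ) (j k : ℕ) : e (blk n g j) - e (blk n g k) ∈ XX := by
  rw [mem_XX]
  intro i
  rw [map_sub, theta_e_blk, theta_e_blk, sub_self]

lemma summable_xg (g : ℕ → ℝ) : Summable (fun n : ℕ => ((1 / 2 : ℝ) ^ n) • e (blk n g 0)) := by
  apply Summable.of_norm_bounded (g := fun n : ℕ => (1 / 2 : ℝ) ^ n) summable_geometric_two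
  intro n
  rw [norm_smul, norm_pow]
  calc ‖(1 / 2 : ℝ)‖ ^ n * ‖e (blk n g 0)‖ ≤ ‖(1 / 2 : ℝ)‖ ^ n * 1 := by
        gcongr; exact norm_e_le _
    _ = (1 / 2 : ℝ) ^ n := by rw [mul_one]; norm_num

/-- the special vector `x_g` -/
noncomputable def xg (g : ℕ → ℝ) : Z Al :=
  e [Sum.inr g] + ∑' n : ℕ, ((1 / 2 : ℝ) ^ n) • e (blk n g 0)

lemma apply_xg (φ : StrongDual ℝ (Z Al)) (g : ℕ → ℝ) :
    HasSum (fun n : ℕ => ((1 / 2 : ℝ) ^ n) * φ (e (blk n g 0))) (φ (xg g) - φ (e [Sum.inr g])) := by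
  have h1 := (summable_xg g).hasSum.mapL φ
  have h2 : φ (xg g) - φ (e [Sum.inr g]) = φ (∑' n : ℕ, ((1 / 2 : ℝ) ^ n) • e (blk n g 0)) := by
    rw [xg, map_add]; ring
  rw [h2]
  simpa only [map_smul, smul_eq_mul] using h1

lemma xg_mem (g : ℕ → ℝ) : xg g ∈ XX := by
  classical
  rw [mem_XX]
  rintro ⟨m, g'⟩
  have h1 := apply_xg (theta (m, g')) g
  by_cases hg : g' = g
  · subst hg
    have h2 : HasSum (fun n : ℕ => ((1 / 2 : ℝ) ^ n) * theta (m, g') (e (blk n g' 0)))
        ((1 / 2 : ℝ) ^ m) := by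
      have h3 : (1 / 2 : ℝ) ^ m = ((1 / 2 : ℝ) ^ m) * theta (m, g') (e (blk m g' 0)) := by
        rw [theta_e_blk, if_pos rfl, mul_one]
      rw [h3]
      apply hasSum_single m
      intro n hn
      rw [theta_e_blk, if_neg, mul_zero]
      intro h
      exact hn (Prod.ext_iff.1 h).1.symm
    have h4 := h1.unique h2
    rw [theta_e_inr, if_pos rfl] at h4
    linarith
  · have h2 : HasSum (fun n : ℕ => ((1 / 2 : ℝ) ^ n) * theta (m, g') (e (blk n g 0))) 0 := by
      have : (fun n : ℕ => ((1 / 2 : ℝ) ^ n) * theta (m, g') (e (blk n g 0))) = fun _ => 0 := by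
        funext n
        rw [theta_e_blk, if_neg, mul_zero]
        intro h
        exact hg (Prod.ext_iff.1 h).2
      rw [this]; exact hasSum_zero
    have h4 := h1.unique h2
    rw [theta_e_inr, if_neg hg] at h4
    linarith

lemma blk_not_suf_inr (n : ℕ) (g g' : ℕ → ℝ) (j : ℕ) : ¬ blk n g j <:+ [Sum.inr g'] := by
  intro h
  rcases suf_cons_iff.1 h with h1 | h1
  · exact blk_ne n g g' j h1
  · have h2 := List.eq_nil_of_suffix_nil h1
    have h3 := congrArg List.length h2
    simp [blk] at h3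

lemma xg_apply (g : ℕ → ℝ) : (xg g) [Sum.inr g] = 1 := by
  have h1 := apply_xg (ev [Sum.inr g]) g
  have h2 : HasSum (fun n : ℕ => ((1 / 2 : ℝ) ^ n) * ev [Sum.inr g] (e (blk n g 0))) 0 := by
    have : (fun n : ℕ => ((1 / 2 : ℝ) ^ n) * ev [Sum.inr g] (e (blk n g 0))) = fun _ => 0 := by
      funext n
      rw [ev_apply, e_apply_of_not (blk_not_suf_inr n g g 0), mul_zero]
    rw [this]; exact hasSum_zero
  have h3 := h1.unique h2
  rw [ev_apply, ev_apply, e_apply_of_suf (by simp) List.suffix_rfl] at h3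
  linarith

/-- a functional vanishing on `X` is constant on blocks -/
lemma annih_blk (φ : StrongDual ℝ (Z Al)) (hφ : ∀ x ∈ XX, φ x = 0) (n : ℕ) (g : ℕ → ℝ) (j : ℕ) :
    φ (e (blk n g j)) = bb (br n g) φ := by
  have h1 := tendsto_bb (br n g) φ
  have h2 : Tendsto (fun k => φ (e (node (br n g) ((par n g).length + 1 + k)))) atTop
      (𝓝 (bb (br n g) φ)) :=
    h1.comp (tendsto_atTop_mono (fun k => Nat.le_add_left k _) tendsto_id)
  refine tendsto_nhds_unique ?_ h2
  apply tendsto_const_nhds.congr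
  intro k
  rw [node_br_blk]
  have := hφ _ (e_blk_sub_mem n g j k)
  rw [map_sub] at this
  linarith

lemma annih_hasSum (φ : StrongDual ℝ (Z Al)) (hφ : ∀ x ∈ XX, φ x = 0) (t : List Al) :
    HasSum (fun i : ℕ × (ℕ → ℝ) => bb (br i.1 i.2) φ * theta i (e t)) (φ (e t)) := by
  classical
  by_cases h1 : ∃ n g j, t = blk n g j
  · obtain ⟨n, g, j, rfl⟩ := h1
    rw [annih_blk φ hφ]
    have h3 : bb (br n g) φ = bb (br (n, g).1 (n, g).2) φ * theta (n, g) (e (blk n g j)) := by
      rw [theta_e_blk, if_pos rfl, mul_one]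
    rw [h3]
    apply hasSum_single (n, g)
    intro i hi
    rw [theta_e_blk, if_neg hi, mul_zero]
  · by_cases h2 : ∃ g, t = [Sum.inr g]
    · obtain ⟨g, rfl⟩ := h2
      have hinj : Function.Injective (fun n : ℕ => ((n, g) : ℕ × (ℕ → ℝ))) := fun a b h =>
        (Prod.ext_iff.1 h).1
      rw [← hinj.hasSum_iff]
      · have h3 := (apply_xg φ g).neg
        rw [hφ _ (xg_mem g)] at h3
        have h4 : -(0 - φ (e [Sum.inr g])) = φ (e [Sum.inr g]) := by ring
        rw [h4] at h3
        have h5 : ((fun i : ℕ × (ℕ → ℝ) => bb (br i.1 i.2) φ * theta i (e [Sum.inr g])) ∘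
            fun n : ℕ => ((n, g) : ℕ × (ℕ → ℝ))) =
            (fun n : ℕ => -((1 / 2 : ℝ) ^ n * φ (e (blk n g 0)))) := by
          funext n
          simp only [Function.comp]
          rw [theta_e_inr, if_pos rfl, annih_blk φ hφ]
          ring
        rw [h5]
        exact h3
      · intro i hi
        rw [theta_e_inr, if_neg, mul_zero]
        intro h
        apply hi
        exact ⟨i.1, by rw [← h]⟩
    · push Not at h1 h2
      have h3 : e t ∈ XX := by
        rw [mem_XX]
        intro i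
        exact theta_e_other i t h1 h2
      rw [hφ _ h3]
      have : (fun i : ℕ × (ℕ → ℝ) => bb (br i.1 i.2) φ * theta i (e t)) = fun _ => 0 := by
        funext i
        rw [mem_XX.1 h3 i, mul_zero]
      rw [this]; exact hasSum_zero

theorem isWCG_bidual_XT (h : IsWCG (StrongDual ℝ (StrongDual ℝ (Z Al)))) :
    IsWCG (StrongDual ℝ (StrongDual ℝ XT)) := by
  classical
  obtain ⟨T, hT⟩ := exists_T theta (fun i => bb (br i.1 i.2)) 6 theta_l2 (by
    intro S f
    have h1 := bb_l2 f (S.image (fun i : ℕ × (ℕ → ℝ) => br i.1 i.2))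
    rw [Finset.sum_image (fun i _ j _ hij => br_injective hij)] at h1
    nlinarith [sq_nonneg ‖f‖])
  have h1 : ∀ (f : StrongDual ℝ (Z Al)), ∀ x ∈ XX, T f x = f x := by
    intro f x hx
    have h2 := hT f x
    have h3 : HasSum (fun i : ℕ × (ℕ → ℝ) => bb (br i.1 i.2) f * theta i x) 0 := by
      have : (fun i : ℕ × (ℕ → ℝ) => bb (br i.1 i.2) f * theta i x) = fun _ => 0 := by
        funext i
        rw [mem_XX.1 hx i, mul_zero]
      rw [this]; exact hasSum_zero
    have h4 := h2.unique h3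
    linarith
  have h2 : ∀ (f : StrongDual ℝ (Z Al)), (∀ x ∈ XX, f x = 0) → T f = 0 := by
    intro f hf
    have h3 : ∀ t, T f (e t) = 0 := by
      intro t
      have h4 := (hT f (e t)).unique (annih_hasSum f hf t)
      linarith
    have h5 : (Submodule.span ℝ (Set.range (e : List Al → Z Al))).topologicalClosure ≤
        LinearMap.ker (T f).toLinearMap := by
      apply Submodule.topologicalClosure_minimal
      · rw [Submodule.span_le]
        rintro _ ⟨t, rfl⟩
        exact h3 t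
      · exact isClosed_eq (T f).continuous continuous_const
    rw [dense_e] at h5
    ext x
    exact h5 (Submodule.mem_top (x := x))
  obtain ⟨R, hR⟩ := exists_R XX T h1 h2
  exact isWCG_of_surj (F := StrongDual ℝ (StrongDual ℝ XT)) R hR h

end WCGBidual
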