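import Pool.Agent.H251.W4
open Set Filter Topology
open scoped ENNReal

namespace WCGBidual
variable {A : Type}

lemma cross_card_le {n : ℕ} {p : Fin n → List A × List A} (hp : IsFam p) (u : List A)
    (S : Finset (Fin n)) (hS : ∀ i ∈ S, u <:+ (p i).2 ∧ (p i).1.length < u.length) :
    S.card ≤ 1 := by
  rw [Finset.card_le_one]
  intro i hi j hj
  by_contra hij
  have h1 := hS i hi
  have h2 := hS j hj
  rcases hp.disj i j hij u h1.1 h2.1 with h | h
  · omega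
  · omega

lemma shell_norm (v x : Z A) (u : List A) {C : ℝ} (hC : 0 ≤ C) (hv : ∀ t, u <:+ t → v t = 0)
    (hx : ∀ t, ¬ u <:+ t → x t = 0) (hvC : ∀ t, |v t| ≤ C) (hxC : ∀ t, |x t| ≤ C) :
    ‖v + x‖ ^ 2 ≤ ‖v‖ ^ 2 + ‖x‖ ^ 2 + 2 * C ^ 2 := by
  classical
  have hS : 0 ≤ ‖v‖ ^ 2 + ‖x‖ ^ 2 + 2 * C ^ 2 := by positivity
  have key : ‖v + x‖ ≤ Real.sqrt (‖v‖ ^ 2 + ‖x‖ ^ 2 + 2 * C ^ 2) := by
    apply Z.norm_le _ (Real.sqrt_nonneg _)
    intro n p hp
    rw [Real.sq_sqrt hS]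
    have h1 : ∀ i, (D (v + x : Z A) (p i)) ^ 2 ≤ (D v (p i)) ^ 2 + (D x (p i)) ^ 2 +
        2 * (if (u <:+ (p i).2 ∧ (p i).1.length < u.length) then C ^ 2 else 0) := by
      intro i
      have h2 : D (v + x : Z A) (p i) = D v (p i) + D x (p i) := by
        simp only [D, Z.coe_add]; ring
      have h3 : D v (p i) * D x (p i) ≤
          (if (u <:+ (p i).2 ∧ (p i).1.length < u.length) then C ^ 2 else 0) := by
        simp only [D]
        by_cases hs : u <:+ (p i).1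
        · have ht : u <:+ (p i).2 := hs.trans (hp.suf i)
          rw [hv _ hs, hv _ ht]
          have : (0 : ℝ) - 0 = 0 := by ring
          rw [this, zero_mul]
          split_ifs <;> positivity
        · by_cases ht : u <:+ (p i).2
          · have hl : (p i).1.length < u.length := by
              by_contra h4
              exact hs (suf_of_len ht (hp.suf i) (by omega))
            rw [if_pos ⟨ht, hl⟩, hv _ ht, hx _ hs, zero_sub, sub_zero]
            calc -v (p i).1 * x (p i).2 ≤ |(-v (p i).1) * x (p i).2| := le_abs_self _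
              _ = |v (p i).1| * |x (p i).2| := by rw [abs_mul, abs_neg]
              _ ≤ C * C := by
                  apply mul_le_mul (hvC _) (hxC _) (abs_nonneg _) hC
              _ = C ^ 2 := by ring
          · rw [hx _ hs, hx _ ht]
            have : (0 : ℝ) - 0 = 0 := by ring
            rw [this, mul_zero]
            split_ifs <;> positivity
      rw [h2]
      nlinarith [h3]
    have h4 : ∑ i, (if (u <:+ (p i).2 ∧ (p i).1.length < u.length) then C ^ 2 else 0) ≤ C ^ 2 := by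
      rw [← Finset.sum_filter, Finset.sum_const, nsmul_eq_mul]
      have h5 : (Finset.univ.filter fun i => (u <:+ (p i).2 ∧ (p i).1.length < u.length)).card ≤ 1 :=
        cross_card_le hp u _ (fun i hi => by simpa using hi)
      have h6 : ((Finset.univ.filter fun i =>
        (u <:+ (p i).2 ∧ (p i).1.length < u.length)).card : ℝ) ≤ 1 := by exact_mod_cast h5
      nlinarith [sq_nonneg C]
    calc ∑ i, (D (v + x : Z A) (p i)) ^ 2
        ≤ ∑ i, ((D v (p i)) ^ 2 + (D x (p i)) ^ 2 +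
        2 * (if (u <:+ (p i).2 ∧ (p i).1.length < u.length) then C ^ 2 else 0)) :=
          Finset.sum_le_sum fun i _ => h1 i
      _ = ∑ i, (D v (p i)) ^ 2 + ∑ i, (D x (p i)) ^ 2 +
        2 * ∑ i, (if (u <:+ (p i).2 ∧ (p i).1.length < u.length) then C ^ 2 else 0) := by
          rw [Finset.sum_add_distrib, Finset.sum_add_distrib, Finset.mul_sum]
      _ ≤ ‖v‖ ^ 2 + ‖x‖ ^ 2 + 2 * C ^ 2 := by
          have := v.sum_le p hp
          have := x.sum_le p hp
          linarith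
  calc ‖v + x‖ ^ 2 ≤ (Real.sqrt (‖v‖ ^ 2 + ‖x‖ ^ 2 + 2 * C ^ 2)) ^ 2 := by gcongr
    _ = _ := Real.sq_sqrt hS

/-- Shell lemma -/
theorem shell (f : StrongDual ℝ (Z A)) (b : ℕ → A) {δ C : ℝ} (hδ : 0 < δ)
    (h : ∀ n, ∃ m, n < m ∧ ∃ v : Z A, (∀ t, ¬ (node b n <:+ t) → v t = 0) ∧
      (∀ t, node b m <:+ t → v t = 0) ∧ ‖v‖ ≤ C ∧ δ ≤ f v) : False := by
  have hC : 0 ≤ C := by
    obtain ⟨m, _, v, _, _, hv, _⟩ := h 0
    exact (norm_nonneg v).trans hv
  have key : ∀ N : ℕ, ∃ (v : Z A) (m : ℕ), (∀ t, node b m <:+ t → v t = 0) ∧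
      (∀ t, |v t| ≤ C) ∧ ‖v‖ ^ 2 ≤ N * (3 * C ^ 2) ∧ N * δ ≤ f v := by
    intro N
    induction N with
    | zero => exact ⟨0, 0, fun t _ => rfl, fun t => by rw [Z.coe_zero, abs_zero]; exact hC,
      by simp, by simp⟩
    | succ N ih =>
      obtain ⟨v, m, h1, h2, h3, h4⟩ := ih
      obtain ⟨m', hm, x, h5, h6, h7, h8⟩ := h m
      have hxC : ∀ t, |x t| ≤ C := fun t => (x.abs_le t).trans h7
      refine ⟨v + x, m', ?_, ?_, ?_, ?_⟩
      · intro t ht
        rw [Z.coe_add, h6 t ht, h1 t ((node_suf b hm.le).trans ht), add_zero]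
      · intro t
        rw [Z.coe_add]
        by_cases ht : node b m <:+ t
        · rw [h1 t ht, zero_add]; exact hxC t
        · rw [h5 t ht, add_zero]; exact h2 t
      · have h9 := shell_norm v x (node b m) hC h1 h5 h2 hxC
        have h10 : ‖x‖ ^ 2 ≤ C ^ 2 := by gcongr
        push_cast
        nlinarith
      · rw [map_add]
        push_cast
        linarith
  -- contradiction
  obtain ⟨N, hN⟩ := exists_nat_gt (3 * ‖f‖ ^ 2 * C ^ 2 / δ ^ 2)
  obtain ⟨v, m, _, _, h3, h4⟩ := key (N + 1)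
  have h5 : f v ≤ ‖f‖ * ‖v‖ := (le_abs_self _).trans (f.le_opNorm v)
  have hN1 : (0 : ℝ) < ((N + 1 : ℕ) : ℝ) := by positivity
  have h6 : ((N + 1 : ℕ) : ℝ) * δ ≤ ‖f‖ * ‖v‖ := h4.trans h5
  have h7 : (((N + 1 : ℕ) : ℝ) * δ) ^ 2 ≤ (‖f‖ * ‖v‖) ^ 2 := by
    have : 0 ≤ ((N + 1 : ℕ) : ℝ) * δ := by positivity
    gcongr
  have h8 : (‖f‖ * ‖v‖) ^ 2 ≤ ‖f‖ ^ 2 * (((N + 1 : ℕ) : ℝ) * (3 * C ^ 2)) := by
    rw [mul_pow]; gcongr
  have h9 : ((N + 1 : ℕ) : ℝ) * δ ^ 2 ≤ 3 * ‖f‖ ^ 2 * C ^ 2 := by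
    have h10 : ((N + 1 : ℕ) : ℝ) * (((N + 1 : ℕ) : ℝ) * δ ^ 2) ≤
        ((N + 1 : ℕ) : ℝ) * (3 * ‖f‖ ^ 2 * C ^ 2) := by nlinarith
    exact le_of_mul_le_mul_left h10 hN1
  rw [div_lt_iff₀ (by positivity)] at hN
  push_cast at h9
  nlinarith [sq_nonneg δ]

/-- `f (e_{b|k})` converges -/
theorem cauchy_fe (f : StrongDual ℝ (Z A)) (b : ℕ → A) :
    CauchySeq (fun k => f (e (node b k))) := by
  by_contra hcon
  rw [Metric.cauchySeq_iff] at hcon
  push Not at hcon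
  obtain ⟨ε, hε, hN⟩ := hcon
  apply shell f b (δ := ε) (C := 2) hε
  intro n
  obtain ⟨m1, hm1, m2, hm2, hd⟩ := hN (n + 1)
  rw [Real.dist_eq] at hd
  -- WLOG m1 < m2 up to sign
  have hne : m1 ≠ m2 := by
    rintro rfl
    simp at hd
    linarith
  have main : ∀ k1 k2 : ℕ, n + 1 ≤ k1 → k1 < k2 → ∀ s : ℝ, |s| = 1 →
      ∃ v : Z A, (∀ t, ¬ (node b n <:+ t) → v t = 0) ∧
      (∀ t, node b k2 <:+ t → v t = 0) ∧ ‖v‖ ≤ 2 ∧
      f v = s * (f (e (node b k1)) - f (e (node b k2))) := by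
    intro k1 k2 hk1 hk12 s hs
    refine ⟨s • (e (node b k1) - e (node b k2)), ?_, ?_, ?_, ?_⟩
    · intro t ht
      have h1 : ¬ node b k1 <:+ t := fun h => ht ((node_suf b (by omega)).trans h)
      have h2 : ¬ node b k2 <:+ t := fun h => ht ((node_suf b (by omega)).trans h)
      rw [Z.coe_smul, Z.coe_sub, e_apply_of_not h1, e_apply_of_not h2]; ring
    · intro t ht
      have h1 : node b k1 <:+ t := (node_suf b hk12.le).trans ht
      rw [Z.coe_smul, Z.coe_sub, e_apply_of_suf (node_ne_nil b (by omega)) h1,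
        e_apply_of_suf (node_ne_nil b (by omega)) ht]; ring
    · rw [norm_smul, Real.norm_eq_abs, hs, one_mul]
      calc ‖e (node b k1) - e (node b k2)‖ ≤ ‖e (node b k1)‖ + ‖e (node b k2)‖ := norm_sub_le _ _
        _ ≤ 1 + 1 := add_le_add (norm_e_le _) (norm_e_le _)
        _ = 2 := by norm_num
    · rw [map_smul, map_sub, smul_eq_mul]
  have hsgn : ∀ x : ℝ, ∃ s : ℝ, |s| = 1 ∧ s * x = |x| := by
    intro x
    rcases le_total 0 x with h | h
    · exact ⟨1, by simp, by rw [abs_of_nonneg h, one_mul]⟩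
    · exact ⟨-1, by simp, by rw [abs_of_nonpos h]; ring⟩
  rcases lt_or_gt_of_ne hne with hlt | hlt
  · obtain ⟨s, hs1, hs2⟩ := hsgn (f (e (node b m1)) - f (e (node b m2)))
    obtain ⟨v, h1, h2, h3, h4⟩ := main m1 m2 hm1 hlt s hs1
    exact ⟨m2, by omega, v, h1, h2, h3, by rw [h4, hs2]; exact hd⟩
  · obtain ⟨s, hs1, hs2⟩ := hsgn (f (e (node b m2)) - f (e (node b m1)))
    obtain ⟨v, h1, h2, h3, h4⟩ := main m2 m1 hm2 hlt s hs1
    exact ⟨m1, by omega, v, h1, h2, h3, by rw [h4, hs2, abs_sub_comm]; exact hd⟩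

/-- limit of `f (e_{b|k})` as a linear functional of `f` -/
noncomputable def bbLin (b : ℕ → A) : StrongDual ℝ (Z A) →ₗ[ℝ] ℝ where
  toFun f := limUnder atTop (fun k => f (e (node b k)))
  map_add' := fun f g => by
    apply Tendsto.limUnder_eq
    exact (cauchy_fe f b).tendsto_limUnder.add (cauchy_fe g b).tendsto_limUnder
  map_smul' := fun c f => by
    apply Tendsto.limUnder_eq
    exact (cauchy_fe f b).tendsto_limUnder.const_mul c

lemma tendsto_bbLin (b : ℕ → A) (f : StrongDual ℝ (Z A)) :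
    Tendsto (fun k => f (e (node b k))) atTop (𝓝 (bbLin b f)) :=
  (cauchy_fe f b).tendsto_limUnder

lemma abs_fe_le (f : StrongDual ℝ (Z A)) (t : List A) : |f (e t)| ≤ ‖f‖ := by
  calc |f (e t)| ≤ ‖f‖ * ‖e t‖ := f.le_opNorm _
    _ ≤ ‖f‖ * 1 := by gcongr; exact norm_e_le _
    _ = ‖f‖ := mul_one _

lemma abs_bbLin_le (b : ℕ → A) (f : StrongDual ℝ (Z A)) : |bbLin b f| ≤ ‖f‖ :=
  le_of_tendsto ((tendsto_bbLin b f).abs) (Eventually.of_forall fun k => abs_fe_le f (node b k))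

/-- the bidual element `b**` -/
noncomputable def bb (b : ℕ → A) : StrongDual ℝ (StrongDual ℝ (Z A)) :=
  LinearMap.mkContinuous (bbLin b) 1 (by
    intro f
    rw [one_mul, Real.norm_eq_abs]
    exact abs_bbLin_le b f)

lemma bb_eq (b : ℕ → A) (f : StrongDual ℝ (Z A)) : bb b f = bbLin b f := rfl

lemma tendsto_bb (b : ℕ → A) (f : StrongDual ℝ (Z A)) :
    Tendsto (fun k => f (e (node b k))) atTop (𝓝 (bb b f)) := by
  rw [bb_eq]; exact tendsto_bbLin b f

end WCGBidual
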