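import Pool.Agent.H251.W4
open Set Filter Topology
open scoped ENNReal

namespace WCGBidual
variable {A : Type}


/-- every node outside `F` lies above a boundary node -/
lemma exists_bdry {F : Set (List A)} (hF : SC F) (m : List A) (hm : m ∉ F) :
    ∃ a l, (a :: l) ∉ F ∧ l ∈ F ∧ (a :: l) <:+ m := by
  induction m with
  | nil => exact absurd hF.nil hm
  | cons a l ih =>
    by_cases hl : l ∈ F
    · exact ⟨a, l, hm, hl, List.suffix_rfl⟩
    · obtain ⟨b, l', h1, h2, h3⟩ := ih hl
      exact ⟨b, l', h1, h2, h3.trans (List.suffix_cons a l)⟩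

/-- boundary nodes of `F` -/
def Bd (F : Set (List A)) (t : List A) : Prop := t ∉ F ∧ t.tail ∈ F

lemma Bd.ne_nil {F : Set (List A)} (hF : SC F) {t : List A} (h : Bd F t) : t ≠ [] := by
  rintro rfl
  exact h.1 hF.nil

lemma Bd.suf_tail {F : Set (List A)} {s t : List A} (hst : s <:+ t) (hne : s ≠ t) :
    s <:+ t.tail := by
  cases t with
  | nil => exact absurd (List.eq_nil_of_suffix_nil hst) hne
  | cons a l =>
    rcases suf_cons_iff.1 hst with h | h
    · exact absurd h hne
    · exact h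

lemma Bd.not_comp {F : Set (List A)} (hF : SC F) {s t : List A} (hs : Bd F s) (ht : Bd F t)
    (hst : s <:+ t) : s = t := by
  by_contra hne
  exact hs.1 (hF.down _ ht.2 _ (Bd.suf_tail (F := F) hst hne))

lemma Bd.eq_of {F : Set (List A)} (hF : SC F) {s t m : List A} (hs : Bd F s) (ht : Bd F t)
    (hsm : s <:+ m) (htm : t <:+ m) : s = t := by
  rcases suf_total hsm htm with h | h
  · exact Bd.not_comp hF hs ht h
  · exact (Bd.not_comp hF ht hs h).symm

lemma tail_suf (t : List A) : t.tail <:+ t := List.tail_suffix t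

lemma Bd.len {F : Set (List A)} (hF : SC F) {t : List A} (h : Bd F t) :
    t.length = t.tail.length + 1 := by
  cases t with
  | nil => exact absurd hF.nil h.1
  | cons a l => simp

/-- number of boundary nodes with a big value above -/
lemma card_bdry {F : Set (List A)} (hF : SC F) (K : Z A) (hK : ∀ t ∈ F, K t = 0) (hK1 : ‖K‖ ≤ 1)
    {r : ℝ} (hr : 0 < r) (S : Finset (List A))
    (hS : ∀ t ∈ S, Bd F t ∧ ∃ m, t <:+ m ∧ r ≤ |K m|) : (S.card : ℝ) * r ^ 2 ≤ 1 := by
  classical
  choose! hB m hm1 hm2 using hS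
  let p : {t // t ∈ S} → List A × List A := fun t => (t.1.tail, m t.1)
  have hp : IsFam p := by
    constructor
    · intro i
      exact (tail_suf _).trans (hm1 _ i.2)
    · intro i j hij u hui huj
      by_contra hcon
      push Not at hcon
      obtain ⟨h1, h2⟩ := hcon
      simp only [p] at h1 h2 hui huj
      have e1 := (hB _ i.2).len hF
      have e2 := (hB _ j.2).len hF
      have h3 : i.1 <:+ u := suf_of_len (hm1 _ i.2) hui (by omega)
      have h4 : j.1 <:+ u := suf_of_len (hm1 _ j.2) huj (by omega)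
      exact hij (Subtype.ext (Bd.eq_of hF (hB _ i.2) (hB _ j.2) h3 h4))
  have h := K.sum_le p hp
  have h2 : ∀ i : {t // t ∈ S}, r ^ 2 ≤ (D K (p i)) ^ 2 := by
    intro i
    have e1 : D K (p i) = K (m i.1) := by
      simp only [D, p]
      rw [hK _ (hB _ i.2).2, sub_zero]
    rw [e1, ← sq_abs (K (m i.1))]
    exact pow_le_pow_left₀ hr.le (hm2 _ i.2) 2
  have h3 : (S.card : ℝ) * r ^ 2 ≤ ∑ i : {t // t ∈ S}, (D K (p i)) ^ 2 := by
    have := Finset.sum_le_sum (s := (Finset.univ : Finset {t // t ∈ S})) (fun i _ => h2 i)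
    simp only [Finset.sum_const, Finset.card_univ, Fintype.card_coe, nsmul_eq_mul] at this
    exact this
  have h4 : ‖K‖ ^ 2 ≤ 1 := by
    have := norm_nonneg K
    nlinarith
  linarith

open Classical in
/-- part of `K` above `t` -/
noncomputable def coneFun (K : Z A) (t : List A) : List A → ℝ := fun m => if t <:+ m then K m else 0

lemma coneFun_nil (K : Z A) (t : List A) : coneFun K t [] = 0 := by
  unfold coneFun
  split_ifs <;> simp

lemma coneFun_dom {F : Set (List A)} (hF : SC F) (K : Z A) (hK : ∀ t ∈ F, K t = 0) {t : List A}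
    (ht : Bd F t) : Dom (coneFun K t) K := by
  intro s m hsm
  by_cases h1 : t <:+ m
  · by_cases h2 : t <:+ s
    · refine ⟨(s, m), hsm, Or.inl ⟨List.suffix_rfl, le_rfl⟩, ?_⟩
      simp [coneFun, h1, h2]
    · have h3 : s.length < t.length := by
        by_contra h
        exact h2 (suf_of_len h1 hsm (by omega))
      have e1 := ht.len hF
      refine ⟨(t.tail, m), (tail_suf t).trans h1, Or.inl ⟨List.suffix_rfl, ?_⟩, ?_⟩
      · show s.length ≤ t.tail.length
        omega
      · simp only [coneFun, if_pos h1, if_neg h2, hK _ ht.2]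
        exact le_rfl
  · have h2 : ¬ t <:+ s := fun h => h1 (h.trans hsm)
    refine ⟨([], []), List.suffix_rfl, Or.inr rfl, ?_⟩
    simp [coneFun, h1, h2]

open Classical in
/-- remove the cones over `PP` -/
noncomputable def remFun (K : Z A) (PP : Finset (List A)) : List A → ℝ :=
  fun m => if ∃ t ∈ PP, t <:+ m then 0 else K m

lemma remFun_nil (K : Z A) (PP : Finset (List A)) : remFun K PP [] = 0 := by
  unfold remFun
  split_ifs <;> simp

lemma remFun_dom {F : Set (List A)} (hF : SC F) (K : Z A) (hK : ∀ t ∈ F, K t = 0)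
    (PP : Finset (List A)) (hPP : ∀ t ∈ PP, Bd F t) : Dom (remFun K PP) K := by
  intro s m hsm
  by_cases h1 : ∃ t ∈ PP, t <:+ m
  · refine ⟨([], []), List.suffix_rfl, Or.inr rfl, ?_⟩
    have e1 : remFun K PP m = 0 := by unfold remFun; rw [if_pos h1]
    have e2 : remFun K PP s = 0 := by
      unfold remFun
      split_ifs with h2
      · rfl
      · obtain ⟨t, ht, htm⟩ := h1
        have h3 : ¬ t <:+ s := fun h => h2 ⟨t, ht, h⟩
        have h4 : s.length < t.length := by
          by_contra h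
          exact h3 (suf_of_len htm hsm (by omega))
        have h5 : s <:+ t := suf_of_len hsm htm h4.le
        have h6 : s <:+ t.tail := Bd.suf_tail (F := F) h5 (by rintro rfl; omega)
        exact hK _ (hF.down _ (hPP t ht).2 _ h6)
    rw [e1, e2]
    simp
  · have h2 : ¬ ∃ t ∈ PP, t <:+ s := by
      rintro ⟨t, ht, hts⟩
      exact h1 ⟨t, ht, hts.trans hsm⟩
    refine ⟨(s, m), hsm, Or.inl ⟨List.suffix_rfl, le_rfl⟩, ?_⟩
    simp only [remFun, if_neg h1, if_neg h2]
    exact le_rfl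

/-- norm estimate -/
lemma norm_add_small {G : Set (List A)} (hG : SC G) (Gf : G.Finite) (x0 y : Z A)
    (hx : ‖P G hG x0‖ ≤ 1) (hy : ‖y‖ ≤ 1) {l r : ℝ} (hl : 0 < l) (hr : 0 < r)
    (hyr : ∀ m, |y m| < r) (hM : 4 * (Gf.toFinset.card : ℝ) * r ≤ l) :
    ‖P G hG x0 + l • y‖ ^ 2 ≤ 1 + 2 * l ^ 2 := by
  classical
  set x := P G hG x0 with hxd
  have hC : 0 ≤ 1 + 2 * l ^ 2 := by positivity
  have h1 : ‖x + l • y‖ ≤ Real.sqrt (1 + 2 * l ^ 2) := by
    apply Z.norm_le _ (Real.sqrt_nonneg _)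
    intro n p hp
    rw [Real.sq_sqrt hC]
    have e1 : ∀ i, (D (x + l • y : Z A) (p i)) ^ 2 =
        (D x (p i)) ^ 2 + l ^ 2 * (D y (p i)) ^ 2 + 2 * l * (D x (p i) * D y (p i)) := by
      intro i
      simp only [D, Z.coe_add, Z.coe_smul]
      ring
    rw [Finset.sum_congr rfl (fun i _ => e1 i), Finset.sum_add_distrib, Finset.sum_add_distrib,
      ← Finset.mul_sum, ← Finset.mul_sum]
    have b1 : ∑ i, (D x (p i)) ^ 2 ≤ 1 := by
      have := x.sum_le p hp
      have h2 := norm_nonneg x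
      nlinarith
    have b2 : ∑ i, (D y (p i)) ^ 2 ≤ 1 := by
      have := y.sum_le p hp
      have h2 := norm_nonneg y
      nlinarith
    -- the cross term
    set I : Finset (Fin n) := Finset.univ.filter (fun i => D x (p i) ≠ 0) with hI
    have hu : ∀ i ∈ I, (p i).1.length < (rho G (p i).2).length := by
      intro i hi
      rw [hI, Finset.mem_filter] at hi
      by_contra hcon
      push Not at hcon
      apply hi.2
      have h2 : rho G (p i).2 <:+ (p i).1 := suf_of_len (rho_suf _ _) (hp.suf i) hcon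
      have h3 : rho G (p i).2 <:+ rho G (p i).1 := suf_rho hG h2 (rho_mem hG _)
      have h4 : rho G (p i).1 <:+ rho G (p i).2 :=
        suf_rho hG ((rho_suf G _).trans (hp.suf i)) (rho_mem hG _)
      have h5 : rho G (p i).2 = rho G (p i).1 :=
        h3.eq_of_length (le_antisymm h3.length_le h4.length_le)
      simp only [D, hxd, P_apply, h5, sub_self]
    have hcard : I.card ≤ Gf.toFinset.card := by
      apply Finset.card_le_card_of_injOn (fun i => rho G (p i).2)
      · intro i hi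
        simp only [Finset.mem_coe, Set.Finite.mem_toFinset]
        exact rho_mem hG _
      · intro i hi j hj hij
        by_contra hne
        have hij' : rho G (p i).2 = rho G (p j).2 := hij
        have h2 := hu i hi
        have h3 := hu j hj
        rcases hp.disj i j hne (rho G (p i).2) (rho_suf _ _) (by rw [hij']; exact rho_suf _ _) with h | h
        · omega
        · rw [hij'] at h; omega
    have b3 : ∑ i, D x (p i) * D y (p i) ≤ (Gf.toFinset.card : ℝ) * (2 * r) := by
      have h2 : ∑ i, D x (p i) * D y (p i) = ∑ i ∈ I, D x (p i) * D y (p i) := by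
        rw [hI, Finset.sum_filter]
        apply Finset.sum_congr rfl
        intro i _
        split_ifs with h
        · rfl
        · push Not at h
          rw [h, zero_mul]
      rw [h2]
      have h3 : ∀ i ∈ I, D x (p i) * D y (p i) ≤ 2 * r := by
        intro i _
        have h4 : |D x (p i)| ≤ 1 := (x.abs_D_le (hp.suf i)).trans hx
        have h5 : |D y (p i)| ≤ 2 * r := by
          have a1 := abs_lt.1 (hyr (p i).1)
          have a2 := abs_lt.1 (hyr (p i).2)
          simp only [D]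
          rw [abs_le]
          constructor <;> linarith [a1.1, a1.2, a2.1, a2.2]
        calc D x (p i) * D y (p i) ≤ |D x (p i) * D y (p i)| := le_abs_self _
          _ = |D x (p i)| * |D y (p i)| := abs_mul _ _
          _ ≤ 1 * (2 * r) := mul_le_mul h4 h5 (abs_nonneg _) zero_le_one
          _ = 2 * r := one_mul _
      calc ∑ i ∈ I, D x (p i) * D y (p i) ≤ ∑ i ∈ I, 2 * r := Finset.sum_le_sum h3
        _ = (I.card : ℝ) * (2 * r) := by rw [Finset.sum_const, nsmul_eq_mul]
        _ ≤ (Gf.toFinset.card : ℝ) * (2 * r) := by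
            apply mul_le_mul_of_nonneg_right _ (by positivity)
            exact_mod_cast hcard
    have b4 : 2 * l * ∑ i, D x (p i) * D y (p i) ≤ l * l := by
      calc 2 * l * ∑ i, D x (p i) * D y (p i) ≤ 2 * l * ((Gf.toFinset.card : ℝ) * (2 * r)) :=
            mul_le_mul_of_nonneg_left b3 (by positivity)
        _ = l * (4 * (Gf.toFinset.card : ℝ) * r) := by ring
        _ ≤ l * l := mul_le_mul_of_nonneg_left hM hl.le
    have b5 : l ^ 2 * ∑ i, (D y (p i)) ^ 2 ≤ l ^ 2 * 1 :=
      mul_le_mul_of_nonneg_left b2 (sq_nonneg l)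
    nlinarith
  calc ‖x + l • y‖ ^ 2 ≤ (Real.sqrt (1 + 2 * l ^ 2)) ^ 2 := by gcongr
    _ = _ := Real.sq_sqrt hC

set_option maxHeartbeats 4000000 in
lemma lemma3_core (f : StrongDual ℝ (Z A)) (hfle : ∀ z : Z A, f z ≤ ‖z‖)
    (hfx : ∀ r : ℝ, r < 1 → ∃ x : Z A, ‖x‖ ≤ 1 ∧ r < f x)
    (hbig : ∀ η : ℝ, 0 < η →
      {t : List A | t ≠ [] ∧ ∃ K : Z A, SuppCone K t ∧ ‖K‖ ≤ 1 ∧ η ≤ f K}.Finite)
    {δ : ℝ} (hδ : 0 < δ) :
    ∃ F : Set (List A), SC F ∧ F.Finite ∧ ∀ K : Z A, (∀ t ∈ F, K t = 0) → |f K| ≤ δ * ‖K‖ := by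
  classical
  by_contra hcon
  push Not at hcon
  have hK0 : ∀ F : Set (List A), SC F → F.Finite →
      ∃ K : Z A, (∀ t ∈ F, K t = 0) ∧ ‖K‖ ≤ 1 ∧ δ ≤ f K := by
    intro F hF hFf
    obtain ⟨K, hK1, hK2⟩ := hcon F hF hFf
    have hKpos : 0 < ‖K‖ := by
      rw [norm_pos_iff]
      rintro rfl
      simp at hK2
    rcases le_total 0 (f K) with h | h
    · rw [abs_of_nonneg h] at hK2
      refine ⟨‖K‖⁻¹ • K, ?_, ?_, ?_⟩
      · intro t ht
        rw [Z.coe_smul, hK1 t ht, mul_zero]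
      · rw [norm_smul, norm_inv, norm_norm, inv_mul_cancel₀ hKpos.ne']
      · rw [map_smul, smul_eq_mul, inv_mul_eq_div, le_div_iff₀ hKpos]
        exact hK2.le
    · rw [abs_of_nonpos h] at hK2
      refine ⟨(-‖K‖⁻¹) • K, ?_, ?_, ?_⟩
      · intro t ht
        rw [Z.coe_smul, hK1 t ht, mul_zero]
      · rw [norm_smul, norm_neg, norm_inv, norm_norm, inv_mul_cancel₀ hKpos.ne']
      · rw [map_smul, smul_eq_mul, neg_mul, ← mul_neg, inv_mul_eq_div, le_div_iff₀ hKpos]
        exact hK2.le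
  set l := δ / 8 with hl
  have hl0 : 0 < l := by positivity
  obtain ⟨x0, hx01, hx02⟩ : ∃ x0 : Z A, ‖x0‖ ≤ 1 ∧ 1 - l ^ 2 / 2 < f x0 := by
    apply hfx
    have : 0 < l ^ 2 := by positivity
    linarith
  obtain ⟨G, hG, hGf, hGc⟩ := exists_P_close x0 (show 0 < l ^ 2 / 2 by positivity)
  have hcl := hGc G hG subset_rfl
  set x := P G hG x0 with hx
  have hx1 : ‖x‖ ≤ 1 := (norm_P_le G hG x0).trans hx01
  have hfx : 1 - l ^ 2 ≤ f x := by
    have h1 : f x = f x0 - f (x0 - x) := by rw [map_sub]; ring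
    have h2 := (hfle (x0 - x)).trans hcl
    linarith
  set M := hGf.toFinset.card with hMd
  set r := l / (4 * ((M : ℝ) + 1)) with hr
  have hr0 : 0 < r := by positivity
  have hM : 4 * (M : ℝ) * r ≤ l := by
    rw [hr]
    have : 4 * (M : ℝ) * (l / (4 * ((M : ℝ) + 1))) = l * ((M : ℝ) / ((M : ℝ) + 1)) := by
      field_simp
    rw [this]
    have h2 : (M : ℝ) / ((M : ℝ) + 1) ≤ 1 := by
      rw [div_le_one (by positivity)]; linarith
    nlinarith
  set η := r ^ 2 * δ / 2 with hη
  have hη0 : 0 < η := by positivity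
  set S : Set (List A) := {t : List A | t ≠ [] ∧ ∃ K : Z A, SuppCone K t ∧ ‖K‖ ≤ 1 ∧ η ≤ f K} with hS
  have hSf : S.Finite := hbig η hη0
  set F : Set (List A) := G ∪ sufCl S with hFd
  have hF : SC F := by
    constructor
    · exact Or.inl hG.nil
    · rintro t (ht | ht) s hs
      · exact Or.inl (hG.down t ht s hs)
      · exact Or.inr ((sc_sufCl S).down t ht s hs)
  have hFf : F.Finite := hGf.union (finite_sufCl hSf)
  obtain ⟨K, hKF, hK1, hKδ⟩ := hK0 F hF hFf
  -- the boundary nodes with large values above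
  set PPs : Set (List A) := {t | Bd F t ∧ ∃ m, t <:+ m ∧ r ≤ |K m|} with hPPs
  have hPPf : PPs.Finite := by
    by_contra hinf
    obtain ⟨n, hn⟩ := exists_nat_gt (1 / r ^ 2)
    obtain ⟨T, hT1, hT2⟩ := (show PPs.Infinite from hinf).exists_subset_card_eq n
    have h1 := card_bdry hF K hKF hK1 hr0 T (fun t ht => hT1 ht)
    rw [hT2] at h1
    rw [div_lt_iff₀ (by positivity)] at hn
    linarith
  set PP := hPPf.toFinset with hPP
  have hPPm : ∀ t, t ∈ PP ↔ Bd F t ∧ ∃ m, t <:+ m ∧ r ≤ |K m| := by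
    intro t
    rw [hPP, Set.Finite.mem_toFinset]
    exact Iff.rfl
  have hPPc : (PP.card : ℝ) * r ^ 2 ≤ 1 :=
    card_bdry hF K hKF hK1 hr0 PP (fun t ht => (hPPm t).1 ht)
  have hPPB : ∀ t ∈ PP, Bd F t := fun t ht => ((hPPm t).1 ht).1
  -- the pieces
  let Kt : List A → Z A := fun t => if h : Bd F t then
    Z.ofDom (coneFun K t) (coneFun_nil K t) K (coneFun_dom hF K hKF h) else 0
  have hKt : ∀ t, Bd F t → ∀ m, Kt t m = coneFun K t m := by
    intro t ht m
    simp only [Kt, dif_pos ht]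
    exact Z.ofDom_apply _ _ _ _ _
  have hKtn : ∀ t, Bd F t → ‖Kt t‖ ≤ 1 := by
    intro t ht
    simp only [Kt, dif_pos ht]
    exact (Z.norm_ofDom_le _ _ _ _).trans hK1
  have hKts : ∀ t, Bd F t → SuppCone (Kt t) t := by
    intro t ht m hm
    rw [hKt t ht, coneFun, if_neg hm]
  have hKtf : ∀ t, Bd F t → f (Kt t) ≤ η := by
    intro t ht
    by_contra hcon2
    push Not at hcon2
    apply ht.1
    right
    apply subset_sufCl
    exact ⟨ht.ne_nil hF, Kt t, hKts t ht, hKtn t ht, hcon2.le⟩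
  set y : Z A := Z.ofDom (remFun K PP) (remFun_nil K PP) K (remFun_dom hF K hKF PP hPPB) with hy
  have hya : ∀ m, y m = remFun K PP m := by
    intro m
    exact Z.ofDom_apply _ _ _ _ _
  have hyn : ‖y‖ ≤ 1 := (Z.norm_ofDom_le _ _ _ _).trans hK1
  have hyeq : y = K - ∑ t ∈ PP, Kt t := by
    apply Z.ext'
    intro m
    rw [hya, Z.coe_sub, Z.coe_sum]
    have h1 : ∑ t ∈ PP, Kt t m = ∑ t ∈ PP, coneFun K t m :=
      Finset.sum_congr rfl (fun t ht => hKt t (hPPB t ht) m)
    rw [h1]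
    by_cases h2 : ∃ t ∈ PP, t <:+ m
    · have h3 := h2
      obtain ⟨t, ht, htm⟩ := h3
      have h4 : ∑ t ∈ PP, coneFun K t m = K m := by
        rw [Finset.sum_eq_single t]
        · rw [coneFun, if_pos htm]
        · intro s hs hst
          rw [coneFun, if_neg]
          intro hsm
          exact hst (Bd.eq_of hF (hPPB s hs) (hPPB t ht) hsm htm)
        · intro h; exact absurd ht h
      rw [h4, remFun, if_pos h2, sub_self]
    · have h4 : ∑ t ∈ PP, coneFun K t m = 0 := by
        apply Finset.sum_eq_zero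
        intro t ht
        rw [coneFun, if_neg]
        intro h
        exact h2 ⟨t, ht, h⟩
      rw [h4, remFun, if_neg h2, sub_zero]
  have hfy : δ / 2 ≤ f y := by
    rw [hyeq, map_sub, map_sum]
    have h1 : ∑ t ∈ PP, f (Kt t) ≤ (PP.card : ℝ) * η := by
      calc ∑ t ∈ PP, f (Kt t) ≤ ∑ t ∈ PP, η := Finset.sum_le_sum (fun t ht => hKtf t (hPPB t ht))
        _ = (PP.card : ℝ) * η := by rw [Finset.sum_const, nsmul_eq_mul]
    have h2 : (PP.card : ℝ) * η ≤ δ / 2 := by
      have : (PP.card : ℝ) * η = ((PP.card : ℝ) * r ^ 2) * (δ / 2) := by rw [hη]; ring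
      rw [this]
      nlinarith
    linarith
  have hyr : ∀ m, |y m| < r := by
    intro m
    rw [hya]
    unfold remFun
    split_ifs with h1
    · simpa using hr0
    · by_contra hcon2
      push Not at hcon2
      by_cases hm : m ∈ F
      · rw [hKF m hm, abs_zero] at hcon2
        linarith
      · obtain ⟨a, t, h2, h3, h4⟩ := exists_bdry hF m hm
        apply h1
        exact ⟨a :: t, (hPPm _).2 ⟨⟨h2, h3⟩, m, h4, hcon2⟩, h4⟩
  have hnorm := norm_add_small hG hGf x0 y hx1 hyn hl0 hr0 hyr hM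
  have hlow : 1 + 3 * l ^ 2 ≤ ‖x + l • y‖ := by
    refine le_trans ?_ (hfle _)
    rw [map_add, map_smul, smul_eq_mul]
    have : l * (δ / 2) ≤ l * f y := mul_le_mul_of_nonneg_left hfy hl0.le
    have e : l * (δ / 2) = 4 * l ^ 2 := by rw [hl]; ring
    linarith
  have hl2 : 0 < l ^ 2 := by positivity
  have h0 : 0 ≤ 1 + 3 * l ^ 2 := by positivity
  have h1 : (1 + 3 * l ^ 2) ^ 2 ≤ ‖x + l • y‖ ^ 2 := pow_le_pow_left₀ h0 hlow 2
  have h2 : (1 + 3 * l ^ 2) ^ 2 ≤ 1 + 2 * l ^ 2 := h1.trans hnorm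
  nlinarith [sq_nonneg (l ^ 2)]

/-- TARGET (only this one is to be proved; you may of course add auxiliary lemmas before it). -/
theorem lemma3_final (f : StrongDual ℝ (Z A))
    (hbig : ∀ η : ℝ, 0 < η →
      {t : List A | t ≠ [] ∧ ∃ K : Z A, SuppCone K t ∧ ‖K‖ ≤ 1 ∧ η ≤ f K}.Finite)
    {ε : ℝ} (hε : 0 < ε) :
    ∃ F : Set (List A), SC F ∧ F.Finite ∧ ∀ K : Z A, (∀ t ∈ F, K t = 0) → |f K| ≤ ε * ‖K‖ := by
  by_cases hf : f = 0
  · refine ⟨sufCl ∅, sc_sufCl _, finite_sufCl Set.finite_empty, ?_⟩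
    intro K _
    rw [hf]
    simp only [ContinuousLinearMap.zero_apply, abs_zero]
    positivity
  · have hN : 0 < ‖f‖ := by
      rcases (norm_nonneg f).lt_or_eq with h | h
      · exact h
      · exact absurd (f.opNorm_zero_iff.1 h.symm) hf
    have hg : ∀ K, (‖f‖⁻¹ • f) K = ‖f‖⁻¹ * f K := fun K => rfl
    have hx : ∀ r : ℝ, r < 1 → ∃ x : Z A, ‖x‖ ≤ 1 ∧ r < (‖f‖⁻¹ • f) x := by
      intro r hr
      obtain ⟨x, hx1, hx2⟩ := f.exists_lt_apply_of_lt_opNorm (r := r * ‖f‖) (by nlinarith)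
      rw [Real.norm_eq_abs] at hx2
      rcases le_total 0 (f x) with h | h
      · refine ⟨x, hx1.le, ?_⟩
        rw [abs_of_nonneg h] at hx2
        rw [hg, inv_mul_eq_div, lt_div_iff₀ hN]
        exact hx2
      · refine ⟨-x, by rw [norm_neg]; exact hx1.le, ?_⟩
        rw [abs_of_nonpos h] at hx2
        rw [hg, map_neg, inv_mul_eq_div, lt_div_iff₀ hN]
        exact hx2
    obtain ⟨F, hF, hFf, hFK⟩ := lemma3_core (‖f‖⁻¹ • f) (by
        intro z
        rw [hg, inv_mul_eq_div, div_le_iff₀ hN]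
        have := f.le_opNorm z
        rw [Real.norm_eq_abs] at this
        linarith [le_abs_self (f z)]) hx (by
        intro η hη
        refine (hbig (η * ‖f‖) (by positivity)).subset ?_
        rintro t ⟨ht, K, h1, h2, h3⟩
        refine ⟨ht, K, h1, h2, ?_⟩
        rw [hg, inv_mul_eq_div, le_div_iff₀ hN] at h3
        exact h3) (δ := ε / ‖f‖) (by positivity)
    refine ⟨F, hF, hFf, ?_⟩
    intro K hK
    have h := hFK K hK
    rw [hg, abs_mul, abs_of_pos (by positivity : 0 < ‖f‖⁻¹)] at h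
    have h2 : ‖f‖ * (‖f‖⁻¹ * |f K|) ≤ ‖f‖ * (ε / ‖f‖ * ‖K‖) := mul_le_mul_of_nonneg_left h hN.le
    have e1 : ‖f‖ * (‖f‖⁻¹ * |f K|) = |f K| := by field_simp
    have e2 : ‖f‖ * (ε / ‖f‖ * ‖K‖) = ε * ‖K‖ := by field_simp
    rw [e1, e2] at h2
    exact h2

end WCGBidual
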