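import Pool.Agent.H251.W4
open Set Filter Topology
open scoped ENNReal

namespace WCGBidual
variable {A : Type}

/-- the set of big nodes -/
def SS (f : StrongDual ℝ (Z A)) (η : ℝ) : Set (List A) :=
  {t : List A | t ≠ [] ∧ ∃ K : Z A, SuppCone K t ∧ ‖K‖ ≤ 1 ∧ η ≤ f K}

lemma SS_down (f : StrongDual ℝ (Z A)) (η : ℝ) {s t : List A} (ht : t ∈ SS f η) (hst : s <:+ t)
    (hs : s ≠ []) : s ∈ SS f η := by
  obtain ⟨_, K, hK, h1, h2⟩ := ht
  refine ⟨hs, K, fun m hm => hK m (fun h => hm (hst.trans h)), h1, h2⟩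

lemma SS_letters (f : StrongDual ℝ (Z A)) {η : ℝ} (hη : 0 < η) (l : List A) :
    {a : A | a :: l ∈ SS f η}.Finite := by
  by_contra hinf
  have hinf' : {a : A | a :: l ∈ SS f η}.Infinite := hinf
  obtain ⟨N, hN⟩ := exists_nat_gt (‖f‖ ^ 2 / η ^ 2)
  obtain ⟨F, hF, hcard⟩ := hinf'.exists_subset_card_eq N
  have hch : ∀ i : F, ∃ K : Z A, SuppCone K (i.1 :: l) ∧ ‖K‖ ≤ 1 ∧ η ≤ f K := fun i =>
    (hF i.2).2
  choose K hK1 hK2 hK3 using hch
  have hanti : ∀ i j : F, i ≠ j → ¬ ((i.1 :: l) <:+ (j.1 :: l)) := by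
    intro i j hij h
    have h1 := h.eq_of_length (by simp)
    exact hij (Subtype.ext (List.cons_eq_cons.1 h1).1)
  have h1 := norm_sq_sum_cone_le K (fun i : F => i.1 :: l) hanti hK1
  have h2 : ∑ j, ‖K j‖ ^ 2 ≤ N := by
    calc ∑ j, ‖K j‖ ^ 2 ≤ ∑ _j : F, (1 : ℝ) := by
          apply Finset.sum_le_sum
          intro j _
          have := hK2 j
          have h0 := norm_nonneg (K j)
          nlinarith
      _ = N := by simp [hcard]
  have h3 : (N : ℝ) * η ≤ f (∑ j, K j) := by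
    rw [map_sum]
    calc (N : ℝ) * η = ∑ _j : F, η := by simp [hcard]
      _ ≤ _ := Finset.sum_le_sum fun j _ => hK3 j
  have h4 : f (∑ j, K j) ≤ ‖f‖ * ‖∑ j, K j‖ :=
    (le_abs_self _).trans (f.le_opNorm _)
  have h5 : (N : ℝ) * η ≤ ‖f‖ * ‖∑ j, K j‖ := h3.trans h4
  have h6 : ((N : ℝ) * η) ^ 2 ≤ (‖f‖ * ‖∑ j, K j‖) ^ 2 := by
    apply pow_le_pow_left₀ (by positivity) h5
  have h7 : ‖∑ j, K j‖ ^ 2 ≤ N := h1.trans h2
  have h8 : (‖f‖ * ‖∑ j, K j‖) ^ 2 ≤ ‖f‖ ^ 2 * N := by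
    rw [mul_pow]
    gcongr
  have hNpos : (0 : ℝ) < N := lt_of_le_of_lt (by positivity) hN
  rw [div_lt_iff₀ (by positivity)] at hN
  have h9 : (N : ℝ) * (N * η ^ 2) ≤ N * ‖f‖ ^ 2 := by nlinarith
  have h10 := le_of_mul_le_mul_left h9 hNpos
  linarith

lemma proper_ext {l t : List A} (h : l <:+ t) (hne : t ≠ l) : ∃ a, a :: l <:+ t := by
  obtain ⟨p, rfl⟩ := h
  rcases List.eq_nil_or_concat p with hp | ⟨q, a, hp⟩
  · exfalso; apply hne; rw [hp]; rfl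
  · refine ⟨a, q, ?_⟩
    rw [hp]
    simp

/-- TARGET. -/
theorem finite_big (f : StrongDual ℝ (Z A)) {η : ℝ} (hη : 0 < η)
    (hL2 : ∀ b : ℕ → A, ∃ k : ℕ, 1 ≤ k ∧
      ¬ ∃ K : Z A, SuppCone K (node b k) ∧ ‖K‖ ≤ 1 ∧ η ≤ f K) :
    {t : List A | t ≠ [] ∧ ∃ K : Z A, SuppCone K t ∧ ‖K‖ ≤ 1 ∧ η ≤ f K}.Finite := by
  by_contra hinf
  have hinf' : (SS f η).Infinite := hinf
  let Big : List A → Prop := fun l => {t | t ∈ SS f η ∧ l <:+ t}.Infinite
  have hBig0 : Big [] := by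
    have : {t | t ∈ SS f η ∧ [] <:+ t} = SS f η := by
      ext t; simp
    show {t | t ∈ SS f η ∧ [] <:+ t}.Infinite
    rw [this]; exact hinf'
  have hstep : ∀ l, Big l → ∃ a, a :: l ∈ SS f η ∧ Big (a :: l) := by
    intro l hl
    by_contra hcon
    push Not at hcon
    apply hl
    have hfin : ({l} ∪ ⋃ a ∈ {a : A | a :: l ∈ SS f η}, {t | t ∈ SS f η ∧ a :: l <:+ t}).Finite := by
      apply (Set.finite_singleton l).union
      apply (SS_letters f hη l).biUnion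
      intro a ha
      have := hcon a ha
      exact Set.not_infinite.1 this
    apply hfin.subset
    rintro t ⟨ht, hlt⟩
    by_cases h : t = l
    · left; exact h
    · right
      obtain ⟨a, ha⟩ := proper_ext hlt h
      simp only [Set.mem_iUnion]
      exact ⟨a, SS_down f η ht ha (by simp), ht, ha⟩
  choose g hg1 hg2 using hstep
  let Sq : ℕ → {l : List A // Big l} := fun k =>
    Nat.rec ⟨[], hBig0⟩ (fun _ l => ⟨g l.1 l.2 :: l.1, hg2 l.1 l.2⟩) k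
  let b : ℕ → A := fun k => g (Sq k).1 (Sq k).2
  have hnode : ∀ k, node b k = (Sq k).1 := by
    intro k
    induction k with
    | zero => rfl
    | succ k ih =>
      rw [node_succ, ih]
  obtain ⟨k, hk, hnot⟩ := hL2 b
  apply hnot
  obtain ⟨j, rfl⟩ : ∃ j, k = j + 1 := ⟨k - 1, by omega⟩
  rw [hnode]
  exact (hg1 (Sq j).1 (Sq j).2).2

end WCGBidual
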