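import Pool.Agent.H251.W0
import Pool.Agent.H251.W5
import Pool.Agent.H251.W8
import Pool.Agent.H251.W9
open Set Filter Topology
open scoped ENNReal

namespace WCGBidual
variable {A : Type}

lemma norm_sq_sum_e_le {κ : Type} [Fintype κ] (t : κ → List A)
    (ht : ∀ i j, i ≠ j → ¬ (t i <:+ t j)) (c : κ → ℝ) :
    ‖∑ i, c i • e (t i)‖ ^ 2 ≤ ∑ i, (c i) ^ 2 := by
  refine (norm_sq_sum_cone_le (fun i => c i • e (t i)) t ht ?_).trans ?_
  · intro i m hm
    rw [Z.coe_smul, e_apply_of_not hm, mul_zero]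
  · apply Finset.sum_le_sum
    intro i _
    rw [norm_smul, mul_pow, Real.norm_eq_abs, sq_abs]
    have : ‖e (t i)‖ ^ 2 ≤ 1 := by
      have h1 := norm_e_le (t i)
      have h2 := norm_nonneg (e (t i))
      nlinarith
    nlinarith [sq_nonneg (c i)]

theorem antichain_l2 (f : StrongDual ℝ (Z A)) {κ : Type} [Fintype κ] (t : κ → List A)
    (ht : ∀ i j, i ≠ j → ¬ (t i <:+ t j)) : ∑ i, (f (e (t i))) ^ 2 ≤ ‖f‖ ^ 2 := by
  have hS : 0 ≤ ∑ i, (f (e (t i))) ^ 2 := Finset.sum_nonneg fun i _ => sq_nonneg _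
  have h1 : ∑ i, (f (e (t i))) ^ 2 = f (∑ i, f (e (t i)) • e (t i)) := by
    rw [map_sum]
    apply Finset.sum_congr rfl
    intro i _
    rw [map_smul, smul_eq_mul, sq]
  have h2 : ∑ i, (f (e (t i))) ^ 2 ≤ ‖f‖ * ‖∑ i, f (e (t i)) • e (t i)‖ := by
    rw [h1]
    exact (le_abs_self _).trans (f.le_opNorm _)
  have h3 := norm_sq_sum_e_le t ht (fun i => f (e (t i)))
  have h4 : (∑ i, (f (e (t i))) ^ 2) ^ 2 ≤ ‖f‖ ^ 2 * ∑ i, (f (e (t i))) ^ 2 := by
    calc (∑ i, (f (e (t i))) ^ 2) ^ 2 ≤ (‖f‖ * ‖∑ i, f (e (t i)) • e (t i)‖) ^ 2 := by gcongr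
      _ = ‖f‖ ^ 2 * ‖∑ i, f (e (t i)) • e (t i)‖ ^ 2 := by ring
      _ ≤ _ := by gcongr
  rcases hS.eq_or_lt with h5 | h5
  · rw [← h5]; positivity
  · nlinarith

theorem bb_l2 (f : StrongDual ℝ (Z A)) (S : Finset (ℕ → A)) :
    ∑ b ∈ S, (bb b f) ^ 2 ≤ ‖f‖ ^ 2 := by
  classical
  -- separation height
  have hm : ∀ b b' : ℕ → A, ∃ m, b ≠ b' → ∀ k, m ≤ k → node b k ≠ node b' k := by
    intro b b'
    by_cases h : b = b'
    · exact ⟨0, fun hh => absurd h hh⟩
    · obtain ⟨m, hm⟩ := exists_node_ne h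
      exact ⟨m, fun _ => hm⟩
  choose m hm using hm
  have hlim : Tendsto (fun k => ∑ b ∈ S, (f (e (node b k))) ^ 2) atTop
      (𝓝 (∑ b ∈ S, (bb b f) ^ 2)) :=
    tendsto_finset_sum _ fun b _ => (tendsto_bb b f).pow 2
  refine le_of_tendsto hlim ?_
  filter_upwards [eventually_ge_atTop (∑ b ∈ S, ∑ b' ∈ S, m b b')] with k hk
  have h1 : ∀ b ∈ S, ∀ b' ∈ S, m b b' ≤ k := by
    intro b hb b' hb'
    calc m b b' ≤ ∑ b' ∈ S, m b b' := Finset.single_le_sum (f := fun b' => m b b')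
          (fun _ _ => Nat.zero_le _) hb'
      _ ≤ ∑ b ∈ S, ∑ b' ∈ S, m b b' := Finset.single_le_sum (f := fun b => ∑ b' ∈ S, m b b')
          (fun _ _ => Nat.zero_le _) hb
      _ ≤ k := hk
  have h2 := antichain_l2 f (fun b : S => node b.1 k) (by
    intro i j hij hsuf
    have h3 : node i.1 k = node j.1 k := hsuf.eq_of_length (by simp)
    exact hm i.1 j.1 (fun h => hij (Subtype.ext h)) k (h1 _ i.2 _ j.2) h3)
  rw [← Finset.sum_coe_sort S (fun b => (f (e (node b k))) ^ 2)]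
  exact h2

theorem bb_ev (b : ℕ → A) (t : List A) : bb b (ev t) = 0 := by
  refine tendsto_nhds_unique (tendsto_bb b (ev t)) ?_
  apply tendsto_const_nhds.congr'
  filter_upwards [eventually_gt_atTop t.length] with k hk
  rw [ev_apply, e_apply_of_not]
  intro h
  have := h.length_le
  simp at this
  omega

lemma evb_e (b : ℕ → A) {t : List A} (ht : t ≠ []) [Decidable (t = node b t.length)] :
    evb b (e t) = if t = node b t.length then 1 else 0 := by
  refine tendsto_nhds_unique (tendsto_evb b (e t)) ?_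
  apply tendsto_const_nhds.congr'
  filter_upwards [eventually_ge_atTop t.length] with k hk
  by_cases h : t = node b t.length
  · rw [if_pos h, e_apply_of_suf ht]
    rw [h]; exact node_suf b (by simpa using hk)
  · rw [if_neg h, e_apply_of_not]
    intro h1
    exact h (eq_node_of_suf b h1)

open Classical in
theorem bb_evb (b b' : ℕ → A) : bb b (evb b') = if b = b' then 1 else 0 := by
  refine tendsto_nhds_unique (tendsto_bb b (evb b')) ?_
  apply tendsto_const_nhds.congr'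
  by_cases h : b = b'
  · subst h
    filter_upwards [eventually_ge_atTop 1] with k hk
    rw [if_pos rfl, evb_e b (node_ne_nil b hk), if_pos (by simp)]
  · obtain ⟨m, hm⟩ := exists_node_ne h
    filter_upwards [eventually_ge_atTop (max m 1)] with k hk
    rw [if_neg h, evb_e b' (node_ne_nil b (by omega)), if_neg]
    simpa using hm k (by omega)

theorem lemma2 (f : StrongDual ℝ (Z A)) (b : ℕ → A) (hb : bb b f = 0) {η : ℝ} (hη : 0 < η) :
    ∃ k : ℕ, 1 ≤ k ∧ ¬ ∃ K : Z A, SuppCone K (node b k) ∧ ‖K‖ ≤ 1 ∧ η ≤ f K := by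
  by_contra hcon
  push Not at hcon
  apply shell f b (δ := η / 4) (C := 2) (by positivity)
  intro n
  obtain ⟨K, hK1, hK2, hK3⟩ := hcon (n + 1) (by omega)
  obtain ⟨F, hF, hfin, hG⟩ := exists_P_close K (show 0 < η / (2 * (‖f‖ + 1)) by positivity)
  have hc := hG F hF subset_rfl
  obtain ⟨N, hN⟩ : ∃ N, ∀ t ∈ F, t.length < N := by
    obtain ⟨M, hM⟩ := (hfin.image List.length).bddAbove
    exact ⟨M + 1, fun t ht => Nat.lt_succ_of_le (hM ⟨t, ht, rfl⟩)⟩
  have hNF : node b N ∉ F := by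
    intro hmem
    have := hN _ hmem
    simp at this
  set s := K (rho F (node b N)) with hs
  have hs1 : |s| ≤ 1 := (K.abs_le _).trans hK2
  have hconst : ∀ t, node b N <:+ t → (P F hF K) t = s := by
    intro t ht
    rw [P_apply, rho_eq_rho hF ht hNF]
  have hfP : η / 2 ≤ f (P F hF K) := by
    have h1 : |f (K - P F hF K)| ≤ ‖f‖ * (η / (2 * (‖f‖ + 1))) :=
      (f.le_opNorm _).trans (by gcongr)
    have h2 : ‖f‖ * (η / (2 * (‖f‖ + 1))) ≤ η / 2 := by
      have h3 : 0 < ‖f‖ + 1 := by positivity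
      rw [show ‖f‖ * (η / (2 * (‖f‖ + 1))) = (‖f‖ * η) / (2 * (‖f‖ + 1)) by ring]
      rw [div_le_div_iff₀ (by positivity) (by positivity)]
      nlinarith
    rw [map_sub] at h1
    have h4 := (abs_le.1 (h1.trans h2)).2
    linarith
  -- choose m
  have htend := (tendsto_bb b f)
  rw [hb] at htend
  have hev : ∀ᶠ k in atTop, |f (e (node b k))| ≤ η / 4 := by
    have := htend.abs
    rw [abs_zero] at this
    exact this.eventually_le_const (by positivity)
  obtain ⟨m, hm1, hm2⟩ := (hev.and (eventually_ge_atTop (max N (n + 2)))).exists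
  refine ⟨m, by omega, P F hF K - s • e (node b m), ?_, ?_, ?_, ?_⟩
  · intro t ht
    have h1 : ¬ node b m <:+ t := fun h => ht ((node_suf b (by omega)).trans h)
    have h2 : K (rho F t) = 0 := by
      apply hK1
      intro h
      exact ht (((node_suf b (by omega)).trans h).trans (rho_suf F t))
    rw [Z.coe_sub, Z.coe_smul, P_apply, h2, e_apply_of_not h1]; ring
  · intro t ht
    have h1 : node b N <:+ t := (node_suf b (by omega)).trans ht
    rw [Z.coe_sub, Z.coe_smul, hconst t h1, e_apply_of_suf (node_ne_nil b (by omega)) ht]; ring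
  · calc ‖P F hF K - s • e (node b m)‖ ≤ ‖P F hF K‖ + ‖s • e (node b m)‖ := norm_sub_le _ _
      _ ≤ 1 + 1 := by
          apply add_le_add ((norm_P_le F hF K).trans hK2)
          rw [norm_smul, Real.norm_eq_abs]
          calc |s| * ‖e (node b m)‖ ≤ 1 * 1 := by
                apply mul_le_mul hs1 (norm_e_le _) (norm_nonneg _) zero_le_one
            _ = 1 := by norm_num
      _ = 2 := by norm_num
  · rw [map_sub, map_smul, smul_eq_mul]
    have h1 : |s * f (e (node b m))| ≤ η / 4 := by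
      rw [abs_mul]
      calc |s| * |f (e (node b m))| ≤ 1 * (η / 4) := by
            apply mul_le_mul hs1 hm1 (abs_nonneg _) zero_le_one
        _ = η / 4 := one_mul _
    have := (abs_le.1 h1).2
    linarith

theorem lemma3 (f : StrongDual ℝ (Z A)) (hf : ∀ b : ℕ → A, bb b f = 0) {ε : ℝ} (hε : 0 < ε) :
    ∃ F : Set (List A), SC F ∧ F.Finite ∧ ∀ K : Z A, (∀ t ∈ F, K t = 0) → |f K| ≤ ε * ‖K‖ :=
  lemma3_final f (fun η hη => finite_big f hη (fun b => lemma2 f b (hf b) hη)) hε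

/-- elements of fixed height -/
theorem level_l2 (f : StrongDual ℝ (Z A)) (n : ℕ) (S : Finset (List A))
    (hS : ∀ t ∈ S, t.length = n) : ∑ t ∈ S, (f (e t)) ^ 2 ≤ ‖f‖ ^ 2 := by
  rw [← Finset.sum_coe_sort S (fun t => (f (e t)) ^ 2)]
  apply antichain_l2 f (fun t : S => t.1)
  intro i j hij h
  apply hij
  apply Subtype.ext
  exact h.eq_of_length (by rw [hS _ i.2, hS _ j.2])

end WCGBidual
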