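import Pool.Agent.H251.W0
import Pool.Agent.H251.W6
import Pool.Agent.H251.W13
open Set Filter Topology
open scoped ENNReal

namespace WCGBidual
variable {A : Type}

lemma ev_nil_eq : ev ([] : List A) = 0 := by
  ext z; simp

lemma UL2_fam {ι : Type*} (p : ι → List A × List A) (hp : IsFam p) :
    UL2 (fun i => ev (p i).2 - ev (p i).1) 1 := by
  apply UL2_of_dual _ zero_le_one
  intro S z
  have h1 := z.sum_le (fun i : S => p i) (hp.comp (fun i : S => (i : ι)) Subtype.val_injective)
  have h2 : ∑ i ∈ S, ((ev (p i).2 - ev (p i).1) z) ^ 2 = ∑ i : S, (D z (p i)) ^ 2 := by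
    rw [← Finset.sum_coe_sort S (fun i => ((ev (p i).2 - ev (p i).1) z) ^ 2)]
    rfl
  rw [h2, one_pow, one_mul]
  exact h1

lemma exists_pre (w : StrongDual ℝ (StrongDual ℝ (Z A))) : ∃ x : Z A, ∀ t, x t = w (ev t) := by
  refine ⟨Z.mk (fun t => w (ev t)) (by rw [ev_nil_eq, map_zero]) ‖w‖ ?_, fun t => Z.mk_apply _ _ _ _ _⟩
  intro n p hp
  have h1 := (UL2_fam p hp).dual_sum_le w Finset.univ
  rw [one_pow, one_mul] at h1
  refine le_trans (le_of_eq ?_) h1
  apply Finset.sum_congr rfl
  intro i _
  rw [map_sub]; rfl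

lemma UL2_tau {κ : Type*} (b : κ → ℕ → A) (m : κ → ℕ)
    (hm : ∀ i j, i ≠ j → ∀ k, m i ≤ k → m j ≤ k → node (b i) k ≠ node (b j) k) :
    UL2 (fun i => evb (b i) - ev (node (b i) (m i))) 1 := by
  apply UL2_of_dual _ zero_le_one
  intro S z
  rw [one_pow, one_mul]
  have hlim : Tendsto (fun k => ∑ i ∈ S, (z (node (b i) k) - z (node (b i) (m i))) ^ 2) atTop
      (𝓝 (∑ i ∈ S, ((evb (b i) - ev (node (b i) (m i))) z) ^ 2)) := by
    apply tendsto_finset_sum
    intro i _
    have h1 := ((tendsto_evb (b i) z).sub_const (z (node (b i) (m i)))).pow 2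
    exact h1
  apply le_of_tendsto hlim
  have h2 : ∀ᶠ k in atTop, ∀ i ∈ S, m i ≤ k := by
    rw [Finset.eventually_all]
    intro i _
    exact eventually_ge_atTop _
  filter_upwards [h2] with k hk
  have hfam : IsFam (fun i : S => (node (b i) (m i), node (b i) k)) := by
    constructor
    · intro i
      exact node_suf _ (hk i i.2)
    · intro i j hij q hqi hqj
      simp only [node_length]
      by_contra hcon
      push Not at hcon
      have h3 := eq_node_of_suf _ hqi
      have h4 := eq_node_of_suf _ hqj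
      exact hm i j (fun h => hij (Subtype.ext h)) q.length hcon.1.le hcon.2.le (h3 ▸ h4 ▸ rfl)
  have h5 := z.sum_le _ hfam
  rw [← Finset.sum_coe_sort S]
  exact h5

lemma exists_m_finite (S : Set (ℕ → A)) (hS : S.Finite) (b : ℕ → A) (hb : b ∉ S) :
    ∃ m, ∀ b' ∈ S, ∀ k, m ≤ k → node b k ≠ node b' k := by
  have h1 : ∀ b' ∈ S, ∃ m, ∀ k, m ≤ k → node b k ≠ node b' k := by
    intro b' hb'
    apply exists_node_ne
    rintro rfl
    exact hb hb'
  choose! m hm using h1
  obtain ⟨M, hM⟩ := (hS.image m).bddAbove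
  exact ⟨M, fun b' hb' k hk => hm b' hb' k ((hM ⟨b', hb', rfl⟩).trans hk)⟩

/-- general choice of the levels -/
lemma exists_levels (B : Set (ℕ → A)) (hB : B.Countable) :
    ∃ m : B → ℕ, ∀ i j : B, i ≠ j → ∀ k, m i ≤ k → m j ≤ k →
      node (i : ℕ → A) k ≠ node (j : ℕ → A) k := by
  haveI := hB.to_subtype
  obtain ⟨nu, hnu⟩ := exists_injective_nat B
  have h1 : ∀ i : B, ∃ m, ∀ j : B, nu j < nu i → ∀ k, m ≤ k →
      node (i : ℕ → A) k ≠ node (j : ℕ → A) k := by
    intro i
    have hfin : {j : B | nu j < nu i}.Finite := by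
      apply Set.Finite.of_finite_image (f := nu) _ hnu.injOn
      apply (Set.finite_Iio (nu i)).subset
      rintro _ ⟨j, hj, rfl⟩
      exact hj
    obtain ⟨m, hm⟩ := exists_m_finite (Subtype.val '' {j : B | nu j < nu i}) (hfin.image _)
      (i : ℕ → A) (by
        rintro ⟨j, hj, hji⟩
        have : j = i := Subtype.ext hji
        subst this
        exact lt_irrefl (nu j) hj)
    exact ⟨m, fun j hj k hk => hm j ⟨j, hj, rfl⟩ k hk⟩
  choose m hm using h1
  refine ⟨m, fun i j hij k hik hjk => ?_⟩
  rcases lt_or_gt_of_ne (fun h => hij (hnu h) : nu i ≠ nu j) with h | h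
  · exact (hm j i h k hjk).symm
  · exact hm i j h k hik

lemma UL2_bb : UL2 (fun b : ℕ → A => bb b) 1 := by
  apply UL2_of_dual _ zero_le_one
  intro S f
  rw [one_pow, one_mul]
  exact bb_l2 f S

lemma summable_g (w1 : StrongDual ℝ (StrongDual ℝ (Z A))) (hw : ∀ t, w1 (ev t) = 0) :
    Summable (fun b : ℕ → A => (w1 (evb b)) ^ 2) := by
  apply summable_of_sum_le (fun _ => sq_nonneg _) (c := ‖w1‖ ^ 2)
  intro S
  obtain ⟨m, hm⟩ := exists_levels (S : Set (ℕ → A)) S.countable_toSet
  have h1 := (UL2_tau (fun i : (S : Set (ℕ → A)) => (i : ℕ → A)) m hm).dual_sum_le w1 Finset.univ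
  rw [one_pow, one_mul] at h1
  refine le_trans (le_of_eq ?_) h1
  rw [← Finset.sum_coe_sort S]
  apply Finset.sum_congr rfl
  intro i _
  rw [map_sub, hw, sub_zero]

/-- Step 3 -/
lemma zero_of_zero (w : StrongDual ℝ (StrongDual ℝ (Z A))) (hw : ∀ t, w (ev t) = 0)
    (hwb : ∀ b, w (evb b) = 0) : w = 0 := by
  classical
  ext f
  rw [ContinuousLinearMap.zero_apply]
  have hc : Summable (fun b : ℕ → A => (bb b f) ^ 2) :=
    summable_of_sum_le (fun _ => sq_nonneg _) (fun S => bb_l2 f S)
  let B : Set (ℕ → A) := Function.support (fun b : ℕ → A => (bb b f) ^ 2)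
  have hBc : B.Countable := hc.countable_support
  obtain ⟨m, hm⟩ := exists_levels B hBc
  let tau : B → StrongDual ℝ (Z A) := fun i => evb (i : ℕ → A) - ev (node (i : ℕ → A) (m i))
  have hU : UL2 tau 1 := UL2_tau (fun i : B => (i : ℕ → A)) m hm
  have hcB : Summable (fun i : B => (bb (i : ℕ → A) f) ^ 2) := hc.subtype B
  have hsum : Summable (fun i : B => bb (i : ℕ → A) f • tau i) := hU.summable hcB
  set s : StrongDual ℝ (Z A) := ∑' i : B, bb (i : ℕ → A) f • tau i with hs
  have hws : w s = 0 := by
    have h1 : HasSum (fun i : B => w (bb (i : ℕ → A) f • tau i)) (w s) := w.hasSum hsum.hasSum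
    have h2 : (fun i : B => w (bb (i : ℕ → A) f • tau i)) = fun _ => 0 := by
      funext i
      rw [map_smul, map_sub, hw, hwb, sub_zero, smul_zero]
    rw [h2] at h1
    exact h1.unique hasSum_zero
  have hbs : ∀ b' : ℕ → A, bb b' s = bb b' f := by
    intro b'
    have h1 : HasSum (fun i : B => bb b' (bb (i : ℕ → A) f • tau i)) (bb b' s) :=
      (bb b').hasSum hsum.hasSum
    have h2 : (fun i : B => bb b' (bb (i : ℕ → A) f • tau i)) =
        fun i : B => if b' = (i : ℕ → A) then bb b' f else 0 := by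
      funext i
      rw [map_smul, map_sub, bb_ev, bb_evb, sub_zero, smul_eq_mul]
      split_ifs with h
      · rw [← h, mul_one]
      · rw [mul_zero]
    rw [h2] at h1
    by_cases hb : b' ∈ B
    · have h3 : HasSum (fun i : B => if b' = (i : ℕ → A) then bb b' f else 0)
          (if b' = ((⟨b', hb⟩ : B) : ℕ → A) then bb b' f else 0) := by
        apply hasSum_single (⟨b', hb⟩ : B)
        intro i hi
        rw [if_neg]
        intro h
        exact hi (Subtype.ext h.symm)
      rw [if_pos rfl] at h3
      exact h1.unique h3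
    · have h4 : bb b' f = 0 := by
        by_contra h5
        exact hb (by
          rw [Function.mem_support]
          exact pow_ne_zero 2 h5)
      have h3 : (fun i : B => if b' = (i : ℕ → A) then bb b' f else 0) = fun _ => 0 := by
        funext i
        rw [h4]; split_ifs <;> rfl
      rw [h3] at h1
      rw [h4]
      exact h1.unique hasSum_zero
  have hf' : ∀ b : ℕ → A, bb b (f - s) = 0 := by
    intro b
    rw [map_sub, hbs, sub_self]
  have key : w (f - s) = 0 := by
    by_contra hne
    have hpos : 0 < |w (f - s)| := abs_pos.2 hne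
    have hwpos : 0 ≤ ‖w‖ := norm_nonneg w
    have hε : 0 < |w (f - s)| / (2 * (‖w‖ + 1)) := by positivity
    obtain ⟨F, hF, hfin, hK⟩ := lemma3 (f - s) hf' hε
    set g := f - s with hg
    have hrho : ∀ z : Z A, |g (z - P F hF z)| ≤ |w g| / (2 * (‖w‖ + 1)) * ‖z - P F hF z‖ := by
      intro z
      apply hK
      intro t ht
      rw [Z.coe_sub, P_apply, rho_eq t ht, sub_self]
    have h1 : ‖g - g.comp (P F hF)‖ ≤ |w g| / (2 * (‖w‖ + 1)) := by
      apply ContinuousLinearMap.opNorm_le_bound _ hε.le
      intro z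
      have h2 : (g - g.comp (P F hF)) z = g (z - P F hF z) := by
        rw [ContinuousLinearMap.sub_apply, ContinuousLinearMap.comp_apply, map_sub]
      rw [h2, Real.norm_eq_abs]
      refine (hrho z).trans ?_
      have := norm_sub_P_le F hF z
      gcongr
    have h2 : w (g.comp (P F hF)) = 0 := by
      haveI : Finite F := hfin
      have h3 : (g.comp (P F hF)).toLinearMap ∈
          Submodule.span ℝ (Set.range (fun t : F => (ev (t : List A)).toLinearMap)) := by
        apply mem_span_of_iInf_ker_le_ker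
        intro z hz
        rw [Submodule.mem_iInf] at hz
        rw [LinearMap.mem_ker]
        show g (P F hF z) = 0
        have h4 : P F hF z = 0 := by
          apply Z.ext'
          intro t
          rw [P_apply, Z.coe_zero]
          exact hz ⟨rho F t, rho_mem hF t⟩
        rw [h4, map_zero]
      haveI := Fintype.ofFinite F
      rw [Submodule.mem_span_range_iff_exists_fun] at h3
      obtain ⟨c, hc⟩ := h3
      have h5 : g.comp (P F hF) = ∑ t : F, c t • ev (t : List A) := by
        apply ContinuousLinearMap.coe_injective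
        have h6 : ((∑ t : F, c t • ev (t : List A) : StrongDual ℝ (Z A)) : Z A →ₗ[ℝ] ℝ) =
            ∑ t : F, c t • ((ev (t : List A) : StrongDual ℝ (Z A)) : Z A →ₗ[ℝ] ℝ) := by
          ext z
          simp
        exact hc.symm.trans h6.symm
      rw [h5, map_sum]
      apply Finset.sum_eq_zero
      intro t _
      rw [map_smul, hw, smul_zero]
    have h3 : w g = w (g - g.comp (P F hF)) := by
      have h30 : w (g - g.comp (P F hF)) = w g - w (g.comp (P F hF)) := map_sub w _ _
      rw [h30, h2, sub_zero]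
    have h4 : |w g| ≤ ‖w‖ * (|w g| / (2 * (‖w‖ + 1))) := by
      calc |w g| = ‖w (g - g.comp (P F hF))‖ := by rw [Real.norm_eq_abs, ← h3]
        _ ≤ ‖w‖ * ‖g - g.comp (P F hF)‖ := w.le_opNorm _
        _ ≤ _ := by gcongr
    have h5 : ‖w‖ * (|w g| / (2 * (‖w‖ + 1))) < |w g| := by
      rw [mul_div_assoc', div_lt_iff₀ (by positivity)]
      nlinarith
    linarith
  have : w f = w (f - s) + w s := by rw [← map_add, sub_add_cancel]
  rw [this, key, hws, add_zero]

/-- TARGET -/
theorem bidual_dense : (Submodule.span ℝ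
    (Set.range (fun t : List A => NormedSpace.inclusionInDoubleDual ℝ (Z A) (e t)) ∪
      Set.range (fun b : ℕ → A => bb b))).topologicalClosure = ⊤ := by
  classical
  rw [eq_top_iff]
  intro w _
  set V := (Submodule.span ℝ
    (Set.range (fun t : List A => NormedSpace.inclusionInDoubleDual ℝ (Z A) (e t)) ∪
      Set.range (fun b : ℕ → A => bb b))).topologicalClosure with hV
  have hVc : IsClosed (V : Set (StrongDual ℝ (StrongDual ℝ (Z A)))) := by
    rw [hV]
    exact isClosed_closure
  have hsub : ∀ v, v ∈ (Set.range (fun t : List A => NormedSpace.inclusionInDoubleDual ℝ (Z A) (e t)) ∪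
      Set.range (fun b : ℕ → A => bb b)) → v ∈ V := fun v hv =>
    Submodule.le_topologicalClosure _ (Submodule.subset_span hv)
  obtain ⟨x, hx⟩ := exists_pre w
  set J := NormedSpace.inclusionInDoubleDual ℝ (Z A) with hJ
  set w1 := w - J x with hw1
  have hw1e : ∀ t, w1 (ev t) = 0 := by
    intro t
    rw [hw1, ContinuousLinearMap.sub_apply]
    have : J x (ev t) = x t := rfl
    rw [this, hx, sub_self]
  have hg := summable_g w1 hw1e
  have hG : Summable (fun b : ℕ → A => w1 (evb b) • bb b) := UL2_bb.summable hg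
  set G : StrongDual ℝ (StrongDual ℝ (Z A)) := ∑' b : ℕ → A, w1 (evb b) • bb b with hGdef
  have hGapp : ∀ f, HasSum (fun b : ℕ → A => w1 (evb b) * bb b f) (G f) := by
    intro f
    exact (ContinuousLinearMap.apply ℝ ℝ f).hasSum hG.hasSum
  have hz : w1 - G = 0 := by
    apply zero_of_zero
    · intro t
      rw [ContinuousLinearMap.sub_apply, hw1e, zero_sub, neg_eq_zero]
      have h1 := hGapp (ev t)
      have h2 : (fun b : ℕ → A => w1 (evb b) * bb b (ev t)) = fun _ => 0 := by
        funext b; rw [bb_ev, mul_zero]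
      rw [h2] at h1
      exact h1.unique hasSum_zero
    · intro b'
      rw [ContinuousLinearMap.sub_apply, sub_eq_zero]
      have h1 := hGapp (evb b')
      have h3 : HasSum (fun b : ℕ → A => w1 (evb b) * bb b (evb b')) (w1 (evb b') * bb b' (evb b')) := by
        apply hasSum_single b'
        intro b hb
        rw [bb_evb, if_neg hb, mul_zero]
      rw [bb_evb, if_pos rfl, mul_one] at h3
      exact h3.unique h1
  have hw : w = J x + G := by
    have : w1 = G := sub_eq_zero.1 hz
    rw [← this, hw1]; abel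
  have hGV : G ∈ V := by
    apply hVc.mem_of_tendsto hG.hasSum
    apply Eventually.of_forall
    intro S
    apply Submodule.sum_mem
    intro b _
    exact Submodule.smul_mem _ _ (hsub _ (Or.inr ⟨b, rfl⟩))
  have hJV : J x ∈ V := by
    have h1 : x ∈ (Submodule.span ℝ (Set.range (e : List A → Z A))).topologicalClosure := by
      rw [dense_e]; trivial
    have h2 : (Submodule.span ℝ (Set.range (e : List A → Z A))).topologicalClosure ≤
        V.comap J.toLinearMap := by
      apply Submodule.topologicalClosure_minimal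
      · rw [Submodule.span_le]
        rintro _ ⟨t, rfl⟩
        exact hsub _ (Or.inl ⟨t, rfl⟩)
      · exact hVc.preimage J.continuous
    exact h2 h1
  rw [hw]
  exact V.add_mem hJV hGV

end WCGBidual
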