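import Pool.Agent.H251.W14
open Set Filter Topology
open scoped ENNReal

namespace WCGBidual
variable {A : Type}

lemma fin_level (f : StrongDual ℝ (Z A)) (n : ℕ) {ε : ℝ} (hε : 0 < ε) :
    {t : List A | t.length = n ∧ ε ≤ |f (e t)|}.Finite := by
  by_contra h
  obtain ⟨M, hM⟩ := exists_nat_gt (‖f‖ ^ 2 / ε ^ 2)
  obtain ⟨S, hS, hcard⟩ := Set.Infinite.exists_subset_card_eq h M
  have h1 := level_l2 f n S (fun t ht => (hS ht).1)
  have h2 : (M : ℝ) * ε ^ 2 ≤ ∑ t ∈ S, (f (e t)) ^ 2 := by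
    rw [← hcard, ← nsmul_eq_mul]
    apply Finset.card_nsmul_le_sum
    intro t ht
    have h3 := (hS ht).2
    rw [← sq_abs (f (e t))]
    gcongr
  rw [div_lt_iff₀ (by positivity)] at hM
  linarith

lemma tendsto_e_scaled (f : StrongDual ℝ (Z A)) :
    Tendsto (fun t : List A => (1 / 2 : ℝ) ^ t.length * f (e t)) cofinite (𝓝 0) := by
  rw [Metric.tendsto_nhds]
  intro ε hε
  rw [Filter.eventually_cofinite]
  obtain ⟨N, hN⟩ := exists_pow_lt_of_lt_one (show 0 < ε / (‖f‖ + 1) by positivity)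
    (show (1 / 2 : ℝ) < 1 by norm_num)
  have hfin : (⋃ n ∈ Finset.range N, {t : List A | t.length = n ∧ ε ≤ |f (e t)|}).Finite :=
    Set.Finite.biUnion (Finset.finite_toSet _) (fun n _ => fin_level f n hε)
  refine hfin.subset ?_
  intro t ht
  have ht' : ε ≤ |(1 / 2 : ℝ) ^ t.length * f (e t)| := by
    have : ¬ dist ((1 / 2 : ℝ) ^ t.length * f (e t)) 0 < ε := ht
    rw [dist_zero_right, Real.norm_eq_abs] at this
    exact not_lt.1 this
  rw [abs_mul, abs_of_nonneg (by positivity : (0 : ℝ) ≤ (1 / 2 : ℝ) ^ t.length)] at ht'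
  have h1 : (1 / 2 : ℝ) ^ t.length ≤ 1 := pow_le_one₀ (by norm_num) (by norm_num)
  have h2 : t.length < N := by
    by_contra hcon
    push Not at hcon
    have h3 : (1 / 2 : ℝ) ^ t.length ≤ (1 / 2 : ℝ) ^ N :=
      pow_le_pow_of_le_one (by norm_num) (by norm_num) hcon
    have h4 : (1 / 2 : ℝ) ^ t.length * |f (e t)| ≤ (1 / 2 : ℝ) ^ N * (‖f‖ + 1) := by
      gcongr
      exact (abs_fe_le f t).trans (by linarith)
    have h5 : (1 / 2 : ℝ) ^ N * (‖f‖ + 1) < ε := by
      rwa [lt_div_iff₀ (by positivity)] at hN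
    linarith
  simp only [Finset.mem_range, mem_iUnion]
  refine ⟨t.length, h2, rfl, ?_⟩
  nlinarith [abs_nonneg (f (e t))]

lemma UL2_bb' : UL2 (fun b : ℕ → A => bb b) 1 := by
  apply UL2_of_dual _ zero_le_one
  intro S z
  rw [one_pow, one_mul]
  exact bb_l2 z S

/-- the generators -/
noncomputable def gen : List A ⊕ (ℕ → A) → StrongDual ℝ (StrongDual ℝ (Z A))
  | Sum.inl t => ((1 / 2 : ℝ) ^ t.length) • NormedSpace.inclusionInDoubleDual ℝ (Z A) (e t)
  | Sum.inr b => bb b

theorem isWCG_bidual_Z : IsWCG (StrongDual ℝ (StrongDual ℝ (Z A))) := by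
  apply isWCG_of_cofinite (gen (A := A))
  · intro φ
    rw [Metric.tendsto_nhds]
    intro ε hε
    rw [Filter.eventually_cofinite]
    rw [← Set.finite_preimage_inl_and_inr]
    constructor
    · have h1 := tendsto_e_scaled (φ.comp (NormedSpace.inclusionInDoubleDual ℝ (Z A)))
      rw [Metric.tendsto_nhds] at h1
      have h2 := Filter.eventually_cofinite.1 (h1 ε hε)
      refine h2.subset ?_
      intro t ht
      have ht' : ¬ dist (φ (gen (Sum.inl t))) 0 < ε := ht
      show ¬ _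
      have h3 : φ (gen (Sum.inl t)) = (1 / 2 : ℝ) ^ t.length *
          (φ.comp (NormedSpace.inclusionInDoubleDual ℝ (Z A))) (e t) := by
        rw [gen, map_smul, smul_eq_mul]
        rfl
      rwa [h3] at ht'
    · have h1 := (UL2_bb' (A := A)).tendsto_zero φ
      rw [Metric.tendsto_nhds] at h1
      exact Filter.eventually_cofinite.1 (h1 ε hε)
  · rw [eq_top_iff, ← bidual_dense]
    apply Submodule.topologicalClosure_mono
    rw [Submodule.span_le]
    rintro _ (⟨t, rfl⟩ | ⟨b, rfl⟩)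
    · have h1 : NormedSpace.inclusionInDoubleDual ℝ (Z A) (e t) =
          ((2 : ℝ) ^ t.length) • gen (Sum.inl t) := by
        rw [gen, smul_smul, ← mul_pow]
        norm_num
      show NormedSpace.inclusionInDoubleDual ℝ (Z A) (e t) ∈ _
      rw [h1]
      exact Submodule.smul_mem _ _ (Submodule.subset_span ⟨_, rfl⟩)
    · exact Submodule.subset_span ⟨Sum.inr b, rfl⟩

end WCGBidual
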