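import Pool.Agent.H251.W12
import Pool.Agent.H251.W15
open Set Filter Topology
open scoped ENNReal

namespace WCGBidual

lemma exists_k_ne (K : Set XT) (hd : (Submodule.span ℝ K).topologicalClosure = ⊤) (g : ℕ → ℝ) :
    ∃ k ∈ K, (JJ k) [Sum.inr g] ≠ 0 := by
  by_contra hcon
  push Not at hcon
  have h1 : (Submodule.span ℝ K).topologicalClosure ≤
      LinearMap.ker ((ev [Sum.inr g]).comp JJ).toLinearMap := by
    apply Submodule.topologicalClosure_minimal
    · rw [Submodule.span_le]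
      intro k hk
      exact hcon k hk
    · exact isClosed_eq ((ev [Sum.inr g]).comp JJ).continuous continuous_const
  obtain ⟨x, hx⟩ := exists_JJ (xg_mem g)
  rw [hd] at h1
  have h2 : (JJ x) [Sum.inr g] = 0 := h1 (Submodule.mem_top (x := x))
  rw [hx, xg_apply] at h2
  exact one_ne_zero h2

lemma baire_diag (Γ : ℕ → Set (ℕ → ℝ)) (hΓ : ∀ g, ∃ m, g ∈ Γ m) :
    ∃ (m : ℕ) (s : ℕ → ℝ), ∀ ξ : ℝ, ∃ g ∈ Γ m, (∀ i < m, g i = s i) ∧ g m = ξ := by
  by_contra hcon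
  push Not at hcon
  choose ξ hξ using hcon
  let G : ℕ → (ℕ → ℝ) := fun n => Nat.rec (fun _ => 0)
    (fun m s => Function.update s m (ξ m s)) n
  have hG : ∀ m, G (m + 1) = Function.update (G m) m (ξ m (G m)) := fun m => rfl
  let gg : ℕ → ℝ := fun m => G (m + 1) m
  have h1 : ∀ m, gg m = ξ m (G m) := by
    intro m
    show G (m + 1) m = _
    rw [hG, Function.update_self]
  have h2 : ∀ m i, i < m → gg i = G m i := by
    intro m
    induction m with
    | zero => intro i hi; omega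
    | succ m ih =>
      intro i hi
      rcases Nat.lt_succ_iff_lt_or_eq.1 hi with h | h
      · rw [ih i h, hG, Function.update_of_ne (by omega)]
      · rw [h]
  obtain ⟨m, hm⟩ := hΓ gg
  exact hξ m (G m) gg hm (h2 m) (h1 m)

theorem not_isWCG_XT : ¬ IsWCG XT := by
  rintro ⟨K, hK, hd⟩
  obtain ⟨m, s, hms⟩ := baire_diag
    (fun m => {g | ∃ k ∈ K, 1 / ((m : ℝ) + 1) ≤ |(JJ k) [Sum.inr g]|}) (by
      intro g
      obtain ⟨k, hk, hne⟩ := exists_k_ne K hd g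
      obtain ⟨m, hm⟩ := exists_nat_one_div_lt (abs_pos.2 hne)
      exact ⟨m, k, hk, hm.le⟩)
  have hc : 0 < (1 / 2 : ℝ) ^ m * (1 / ((m : ℝ) + 1)) / 2 := by positivity
  refine fusion JJ K hK [Sum.inl m] _ hc ?_
  intro t ht
  obtain ⟨l, rfl⟩ := ht
  obtain ⟨ξ, rfl⟩ := uu_surj l
  obtain ⟨g, ⟨k, hk, hkg⟩, -, hgm⟩ := hms ξ
  have hpar : par m g = uu ξ ++ [Sum.inl m] := by rw [par, hgm]
  refine ⟨k, hk, ?_⟩
  have h1 : theta (m, g) (JJ k) = 0 := mem_XX.1 (JJ_mem k) (m, g)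
  have h2 : evb (br m g) (JJ k) - (JJ k) (par m g) - (1 / 2 : ℝ) ^ m * (JJ k) [Sum.inr g] = 0 := h1
  have h3 := tendsto_blk (JJ k) m g
  rw [Metric.tendsto_atTop] at h3
  obtain ⟨j, hj⟩ := h3 _ hc
  have hj' := hj j le_rfl
  rw [Real.dist_eq] at hj'
  refine ⟨blk m g j, ?_, ?_⟩
  · rw [← hpar]; exact par_suf_blk m g j
  · rw [← hpar]
    have h4 : (1 / 2 : ℝ) ^ m * (1 / ((m : ℝ) + 1)) ≤ |evb (br m g) (JJ k) - (JJ k) (par m g)| := by
      have h5 : evb (br m g) (JJ k) - (JJ k) (par m g) = (1 / 2 : ℝ) ^ m * (JJ k) [Sum.inr g] := by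
        linarith
      rw [h5, abs_mul, abs_of_nonneg (by positivity : (0 : ℝ) ≤ (1 / 2 : ℝ) ^ m)]
      gcongr
    have h6 : evb (br m g) (JJ k) - (JJ k) (par m g) =
        ((JJ k) (blk m g j) - (JJ k) (par m g)) - ((JJ k) (blk m g j) - evb (br m g) (JJ k)) := by
      ring
    rw [h6] at h4
    have h7 := abs_sub ((JJ k) (blk m g j) - (JJ k) (par m g))
      ((JJ k) (blk m g j) - evb (br m g) (JJ k))
    linarith

theorem main : ∃ (X : Type) (_ : NormedAddCommGroup X) (_ : NormedSpace ℝ X) (_ : CompleteSpace X),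
    ¬ IsWCG X ∧ IsWCG (StrongDual ℝ (StrongDual ℝ X)) :=
  ⟨XT, inferInstance, inferInstance, inferInstance, not_isWCG_XT,
    isWCG_bidual_XT isWCG_bidual_Z⟩

end WCGBidual
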