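import Mathlib
open Set Filter Topology
open scoped ENNReal

namespace WCGBidual

/-- difference of `K` along the pair `p = (s,t)` -/
def D {A : Type} (K : List A → ℝ) (p : List A × List A) : ℝ := K p.2 - K p.1

/-- a family of pairwise disjoint segments `(s,t]` of the tree `List A` (parent of `a :: l` is `l`) -/
structure IsFam {A : Type} {ι : Type*} (p : ι → List A × List A) : Prop where
  suf : ∀ i, (p i).1 <:+ (p i).2
  disj : ∀ i j, i ≠ j → ∀ m : List A, m <:+ (p i).2 → m <:+ (p j).2 →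
    m.length ≤ (p i).1.length ∨ m.length ≤ (p j).1.length

lemma IsFam.comp {A : Type} {ι κ : Type*} {p : ι → List A × List A} (hp : IsFam p) (f : κ → ι)
    (hf : Function.Injective f) : IsFam (p ∘ f) :=
  ⟨fun i => hp.suf _, fun i j hij => hp.disj _ _ (fun h => hij (hf h))⟩

lemma isFam_single {A : Type} (s t : List A) (h : s <:+ t) :
    IsFam (fun _ : Fin 1 => (s, t)) :=
  ⟨fun _ => h, fun i j hij => absurd (Subsingleton.elim i j) hij⟩

/-- index type of all finite families -/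
def FamIdx (A : Type) : Type := Σ n : ℕ, {p : Fin n → List A × List A // IsFam p}

/-- ambient space -/
noncomputable abbrev Amb (A : Type) := lp (fun F : FamIdx A => EuclideanSpace ℝ (Fin F.1)) ⊤

def single {A : Type} (t : List A) : FamIdx A :=
  ⟨1, ⟨fun _ => ([], t), isFam_single [] t (List.nil_suffix)⟩⟩

/-- value at a node -/
noncomputable def val {A : Type} (w : Amb A) (t : List A) : ℝ :=
  (w (single t) : EuclideanSpace ℝ (Fin 1)) (0 : Fin 1)

lemma val_add {A : Type} (a b : Amb A) (t : List A) : val (a + b) t = val a t + val b t := rfl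
lemma val_sub {A : Type} (a b : Amb A) (t : List A) : val (a - b) t = val a t - val b t := rfl
lemma val_neg {A : Type} (a : Amb A) (t : List A) : val (-a) t = - val a t := rfl
lemma val_smul {A : Type} (c : ℝ) (a : Amb A) (t : List A) : val (c • a) t = c * val a t := rfl
lemma val_zero {A : Type} (t : List A) : val (0 : Amb A) t = 0 := rfl

/-- The James tree space, as a submodule of the ambient space -/
noncomputable def Zsub (A : Type) : Submodule ℝ (Amb A) where
  carrier := {w | ∀ (F : FamIdx A) (i : Fin F.1),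
    w F i = val w (F.2.1 i).2 - val w (F.2.1 i).1}
  add_mem' := by
    intro a b ha hb F i
    have h1 := ha F i
    have h2 := hb F i
    have h3 : (a + b : Amb A) F i = a F i + b F i := rfl
    rw [h3, h1, h2, val_add, val_add]; ring
  zero_mem' := by
    intro F i
    have h3 : (0 : Amb A) F i = 0 := rfl
    rw [h3, val_zero, val_zero, sub_zero]
  smul_mem' := by
    intro c a ha F i
    have h1 := ha F i
    have h3 : (c • a : Amb A) F i = c * a F i := rfl
    rw [h3, h1, val_smul, val_smul]; ring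

lemma isClosed_Zsub (A : Type) : IsClosed (Zsub A : Set (Amb A)) := by
  have hcont : ∀ (F : FamIdx A) (i : Fin F.1), Continuous (fun w : Amb A => w F i) := by
    intro F i
    have h1 : LipschitzWith 1 (fun w : Amb A => w F i) := by
      apply LipschitzWith.of_dist_le_mul
      intro x y
      rw [NNReal.coe_one, one_mul, dist_eq_norm, dist_eq_norm]
      have : x F i - y F i = (x - y : Amb A) F i := by simp
      rw [this]
      calc ‖(x - y : Amb A) F i‖ ≤ ‖(x - y : Amb A) F‖ := PiLp.norm_apply_le _ _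
        _ ≤ ‖x - y‖ := lp.norm_apply_le_norm (by simp) _ _
    exact h1.continuous
  have : (Zsub A : Set (Amb A)) = ⋂ (F : FamIdx A), ⋂ (i : Fin F.1),
      {w : Amb A | w F i = val w (F.2.1 i).2 - val w (F.2.1 i).1} := by
    ext w
    simp only [mem_iInter]
    exact Iff.rfl
  rw [this]
  exact isClosed_iInter fun F => isClosed_iInter fun i =>
    isClosed_eq (hcont F i) ((hcont _ _).sub (hcont _ _))

/-- The James tree space over the tree of finite words over `A`; an element is a function on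
nodes, vanishing at the root, of bounded disjoint segments 2-variation. -/
def Z (A : Type) : Type := ↥(Zsub A)

noncomputable instance (A : Type) : NormedAddCommGroup (Z A) :=
  inferInstanceAs (NormedAddCommGroup ↥(Zsub A))

noncomputable instance (A : Type) : NormedSpace ℝ (Z A) :=
  inferInstanceAs (NormedSpace ℝ ↥(Zsub A))

instance (A : Type) : CompleteSpace (Z A) := (isClosed_Zsub A).completeSpace_coe

/-- underlying element of the ambient space -/
def Z.toAmb {A : Type} (z : Z A) : Amb A := Subtype.val (p := fun w => w ∈ Zsub A) z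

noncomputable instance (A : Type) : CoeFun (Z A) (fun _ => List A → ℝ) :=
  ⟨fun z => val z.toAmb⟩

variable {A : Type}

lemma Z.norm_def (z : Z A) : ‖z‖ = ‖z.toAmb‖ := rfl

@[simp] lemma Z.coe_add (z w : Z A) (t : List A) : (z + w) t = z t + w t := rfl
@[simp] lemma Z.coe_sub (z w : Z A) (t : List A) : (z - w) t = z t - w t := rfl
@[simp] lemma Z.coe_neg (z : Z A) (t : List A) : (-z) t = - z t := rfl
@[simp] lemma Z.coe_smul (c : ℝ) (z : Z A) (t : List A) : (c • z) t = c * z t := rfl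
@[simp] lemma Z.coe_zero (t : List A) : (0 : Z A) t = 0 := rfl

lemma Z.apply_fam (z : Z A) (F : FamIdx A) (i : Fin F.1) :
    z.toAmb F i = z (F.2.1 i).2 - z (F.2.1 i).1 := z.2 F i

@[simp] lemma Z.nil (z : Z A) : z [] = 0 := by
  have := z.apply_fam (single ([] : List A)) (0 : Fin 1)
  simp only [single, sub_self] at this
  exact this

lemma Z.sum_fin_le (z : Z A) {n : ℕ} (p : Fin n → List A × List A) (hp : IsFam p) :
    ∑ i, (D z (p i)) ^ 2 ≤ ‖z‖ ^ 2 := by
  have h1 : ‖z.toAmb ⟨n, ⟨p, hp⟩⟩‖ ≤ ‖z‖ := lp.norm_apply_le_norm (by simp) _ _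
  have h2 : ‖z.toAmb ⟨n, ⟨p, hp⟩⟩‖ ^ 2 = ∑ i, (D z (p i)) ^ 2 := by
    rw [EuclideanSpace.norm_sq_eq]
    apply Finset.sum_congr rfl
    intro i _
    have := z.apply_fam ⟨n, ⟨p, hp⟩⟩ i
    rw [Real.norm_eq_abs, sq_abs]
    rw [this]
    rfl
  rw [← h2]
  gcongr

lemma Z.sum_le (z : Z A) {ι : Type*} [Fintype ι] (p : ι → List A × List A) (hp : IsFam p) :
    ∑ i, (D z (p i)) ^ 2 ≤ ‖z‖ ^ 2 := by
  have e := (Fintype.equivFin ι).symm
  rw [← Equiv.sum_comp e]
  exact z.sum_fin_le (p ∘ e) (hp.comp e e.injective)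

lemma Z.norm_le (z : Z A) {C : ℝ} (hC : 0 ≤ C)
    (h : ∀ (n : ℕ) (p : Fin n → List A × List A), IsFam p → ∑ i, (D z (p i)) ^ 2 ≤ C ^ 2) :
    ‖z‖ ≤ C := by
  apply lp.norm_le_of_forall_le hC
  intro F
  have h2 : ‖z.toAmb F‖ ^ 2 = ∑ i, (D z (F.2.1 i)) ^ 2 := by
    rw [EuclideanSpace.norm_sq_eq]
    apply Finset.sum_congr rfl
    intro i _
    have := z.apply_fam F i
    rw [Real.norm_eq_abs, sq_abs]
    rw [this]
    rfl
  have h3 := h F.1 F.2.1 F.2.2
  rw [← h2] at h3
  exact (pow_le_pow_iff_left₀ (norm_nonneg _) hC (by norm_num)).1 h3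

/-- constructor -/
noncomputable def Z.mk (K : List A → ℝ) (h0 : K [] = 0) (C : ℝ)
    (h : ∀ (n : ℕ) (p : Fin n → List A × List A), IsFam p → ∑ i, (D K (p i)) ^ 2 ≤ C ^ 2) : Z A :=
  (⟨⟨fun F => WithLp.toLp 2 (fun i => D K (F.2.1 i)), by
      apply memℓp_infty
      refine ⟨|C|, ?_⟩
      rintro _ ⟨F, rfl⟩
      have h2 : ‖(WithLp.toLp 2 (fun i => D K (F.2.1 i)) : EuclideanSpace ℝ (Fin F.1))‖ ^ 2
          = ∑ i, (D K (F.2.1 i)) ^ 2 := by
        rw [EuclideanSpace.norm_sq_eq]
        apply Finset.sum_congr rfl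
        intro i _
        rw [Real.norm_eq_abs, sq_abs]
      have h3 := h F.1 F.2.1 F.2.2
      rw [← h2] at h3
      have h4 := sq_le_sq.1 h3
      rwa [abs_of_nonneg (norm_nonneg _)] at h4⟩, by
    intro F i
    simp [val, D, single, h0]⟩ : ↥(Zsub A))

lemma Z.mk_apply (K : List A → ℝ) (h0 : K [] = 0) (C : ℝ)
    (h : ∀ (n : ℕ) (p : Fin n → List A × List A), IsFam p → ∑ i, (D K (p i)) ^ 2 ≤ C ^ 2)
    (t : List A) : (Z.mk K h0 C h) t = K t := by
  simp [Z.mk, Z.toAmb, val, single, D, h0]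

lemma Z.ext' {z w : Z A} (h : ∀ t, z t = w t) : z = w := by
  apply Subtype.ext
  apply lp.ext
  funext F
  ext i
  have h1 := z.apply_fam F i
  have h2 := w.apply_fam F i
  rw [h, h, ← h2] at h1
  exact h1

/-! ### suffix combinatorics -/

lemma suf_total {s s' t : List A} (h : s <:+ t) (h' : s' <:+ t) : s <:+ s' ∨ s' <:+ s :=
  List.suffix_or_suffix_of_suffix h h'

lemma suf_of_len {s s' t : List A} (h : s <:+ t) (h' : s' <:+ t) (hl : s.length ≤ s'.length) :
    s <:+ s' :=
  List.suffix_of_suffix_length_le h h' hl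

lemma suf_eq {s s' t : List A} (h : s <:+ t) (h' : s' <:+ t) (hl : s.length = s'.length) :
    s = s' := (suf_of_len h h' hl.le).eq_of_length hl

lemma suf_cons_iff {s : List A} {a : A} {l : List A} : s <:+ a :: l ↔ s = a :: l ∨ s <:+ l :=
  List.suffix_cons_iff

/-- sub-family lemma -/
lemma IsFam.sub {ι : Type*} {p q : ι → List A × List A} (hp : IsFam p)
    (hq : ∀ i, (q i).1 <:+ (q i).2 ∧
      (((q i).2 <:+ (p i).2 ∧ (p i).1.length ≤ (q i).1.length) ∨ (q i).1 = (q i).2)) :
    IsFam q := by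
  refine ⟨fun i => (hq i).1, fun i j hij m hmi hmj => ?_⟩
  rcases (hq i).2 with ⟨h1, h2⟩ | h1
  · rcases (hq j).2 with ⟨h3, h4⟩ | h3
    · rcases hp.disj i j hij m (hmi.trans h1) (hmj.trans h3) with h | h
      · left; omega
      · right; omega
    · right; rw [h3]; exact hmj.length_le
  · left; rw [h1]; exact hmi.length_le

/-- domination of `K` by `z` along segments -/
def Dom (K : List A → ℝ) (z : Z A) : Prop :=
  ∀ s t : List A, s <:+ t → ∃ q : List A × List A, q.1 <:+ q.2 ∧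
    ((q.2 <:+ t ∧ s.length ≤ q.1.length) ∨ q.1 = q.2) ∧ |K t - K s| ≤ |z q.2 - z q.1|

lemma Dom.sum_le {K : List A → ℝ} {z : Z A} (h : Dom K z) (n : ℕ)
    (p : Fin n → List A × List A) (hp : IsFam p) : ∑ i, (D K (p i)) ^ 2 ≤ ‖z‖ ^ 2 := by
  choose q hq1 hq2 hq3 using fun i => h (p i).1 (p i).2 (hp.suf i)
  have hq : IsFam q := hp.sub (fun i => ⟨hq1 i, hq2 i⟩)
  refine le_trans (Finset.sum_le_sum fun i _ => ?_) (z.sum_le q hq)
  exact sq_le_sq.2 (hq3 i)

/-- build an element dominated by `z` -/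
noncomputable def Z.ofDom (K : List A → ℝ) (h0 : K [] = 0) (z : Z A) (h : Dom K z) : Z A :=
  Z.mk K h0 ‖z‖ (fun n p hp => h.sum_le n p hp)

lemma Z.ofDom_apply (K : List A → ℝ) (h0 : K [] = 0) (z : Z A) (h : Dom K z) (t : List A) :
    (Z.ofDom K h0 z h) t = K t := Z.mk_apply _ _ _ _ _

lemma Z.norm_le_of_dom {w z : Z A} (h : Dom w z) : ‖w‖ ≤ ‖z‖ :=
  w.norm_le (norm_nonneg _) (fun n p hp => h.sum_le n p hp)

lemma Z.norm_ofDom_le (K : List A → ℝ) (h0 : K [] = 0) (z : Z A) (h : Dom K z) :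
    ‖Z.ofDom K h0 z h‖ ≤ ‖z‖ := by
  apply Z.norm_le_of_dom
  intro s t hst
  obtain ⟨q, h1, h2, h3⟩ := h s t hst
  exact ⟨q, h1, h2, by simpa only [Z.ofDom_apply] using h3⟩

lemma Z.abs_le (z : Z A) (t : List A) : |z t| ≤ ‖z‖ := by
  have h := z.sum_le _ (isFam_single [] t List.nil_suffix)
  simp only [D, Finset.univ_unique, Finset.sum_const, Finset.card_singleton, one_smul, Z.nil,
    sub_zero] at h
  have := sq_le_sq.1 h
  rwa [abs_of_nonneg (norm_nonneg z)] at this

lemma Z.abs_D_le (z : Z A) {s t : List A} (hst : s <:+ t) : |z t - z s| ≤ ‖z‖ := by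
  have h := z.sum_le _ (isFam_single s t hst)
  simp only [D, Finset.univ_unique, Finset.sum_const, Finset.card_singleton, one_smul] at h
  have := sq_le_sq.1 h
  rwa [abs_of_nonneg (norm_nonneg z)] at this

/-- evaluation functional -/
noncomputable def ev (t : List A) : StrongDual ℝ (Z A) :=
  LinearMap.mkContinuous
    { toFun := fun z => z t
      map_add' := fun z w => rfl
      map_smul' := fun c z => rfl } 1 (fun z => by
        rw [one_mul, Real.norm_eq_abs]; exact z.abs_le t)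

@[simp] lemma ev_apply (t : List A) (z : Z A) : ev t z = z t := rfl

@[simp] lemma Z.coe_sum {ι : Type*} (S : Finset ι) (z : ι → Z A) (t : List A) :
    (∑ i ∈ S, z i) t = ∑ i ∈ S, z i t := by
  rw [← ev_apply, map_sum]; rfl

/-- near optimal family -/
lemma Z.exists_fam (z : Z A) {ε : ℝ} (hε : 0 < ε) :
    ∃ (n : ℕ) (p : Fin n → List A × List A), IsFam p ∧ ‖z‖ ^ 2 - ε < ∑ i, (D z (p i)) ^ 2 := by
  by_contra hcon
  push Not at hcon
  have h1 : ∀ (n : ℕ) (p : Fin n → List A × List A), IsFam p →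
      ∑ i, (D z (p i)) ^ 2 ≤ (Real.sqrt (‖z‖ ^ 2 - ε)) ^ 2 := by
    intro n p hp
    have h2 := hcon n p hp
    have h3 : 0 ≤ ‖z‖ ^ 2 - ε := le_trans (Finset.sum_nonneg fun i _ => sq_nonneg _) h2
    rwa [Real.sq_sqrt h3]
  have h4 := z.norm_le (Real.sqrt_nonneg _) h1
  have h5 : 0 ≤ ‖z‖ ^ 2 - ε :=
    le_trans (Finset.sum_nonneg fun i _ => sq_nonneg _)
      (hcon 0 (fun i => i.elim0) ⟨fun i => i.elim0, fun i => i.elim0⟩)
  have h6 : ‖z‖ ^ 2 ≤ ‖z‖ ^ 2 - ε := by
    calc ‖z‖ ^ 2 ≤ (Real.sqrt (‖z‖ ^ 2 - ε)) ^ 2 := by gcongr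
      _ = _ := Real.sq_sqrt h5
  linarith

/-- orthogonal sums: if every segment sees at most one of the `z j` -/
lemma norm_sq_sum_le {κ : Type*} [Fintype κ] (z : κ → Z A)
    (h : ∀ s t : List A, s <:+ t → ∀ i j, i ≠ j → D (z i) (s, t) = 0 ∨ D (z j) (s, t) = 0) :
    ‖∑ j, z j‖ ^ 2 ≤ ∑ j, ‖z j‖ ^ 2 := by
  classical
  have hS : 0 ≤ ∑ j, ‖z j‖ ^ 2 := Finset.sum_nonneg fun j _ => sq_nonneg _
  have h1 : ‖∑ j, z j‖ ≤ Real.sqrt (∑ j, ‖z j‖ ^ 2) := by
    apply Z.norm_le _ (Real.sqrt_nonneg _)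
    intro n p hp
    rw [Real.sq_sqrt hS]
    have h2 : ∀ i, (D ((∑ j, z j : Z A)) (p i)) ^ 2 = ∑ j, (D (z j) (p i)) ^ 2 := by
      intro i
      have h3 : D ((∑ j, z j : Z A)) (p i) = ∑ j, D (z j) (p i) := by
        simp only [D, Z.coe_sum, Finset.sum_sub_distrib]
      rw [h3]
      by_cases h4 : ∃ j, D (z j) (p i) ≠ 0
      · obtain ⟨j, hj⟩ := h4
        have h5 : ∀ k, k ≠ j → D (z k) (p i) = 0 := fun k hk =>
          (h _ _ (hp.suf i) k j hk).resolve_right hj
        rw [Finset.sum_eq_single j (fun k _ hk => h5 k hk) (fun hh => absurd (Finset.mem_univ _) hh),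
          Finset.sum_eq_single j (fun k _ hk => by rw [h5 k hk]; ring)
            (fun hh => absurd (Finset.mem_univ _) hh)]
      · push Not at h4
        simp [h4]
    calc ∑ i, (D ((∑ j, z j : Z A)) (p i)) ^ 2 = ∑ i, ∑ j, (D (z j) (p i)) ^ 2 :=
          Finset.sum_congr rfl fun i _ => h2 i
      _ = ∑ j, ∑ i, (D (z j) (p i)) ^ 2 := Finset.sum_comm
      _ ≤ ∑ j, ‖z j‖ ^ 2 := Finset.sum_le_sum fun j _ => (z j).sum_le p hp
  calc ‖∑ j, z j‖ ^ 2 ≤ (Real.sqrt (∑ j, ‖z j‖ ^ 2)) ^ 2 := by gcongr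
    _ = _ := Real.sq_sqrt hS

/-- `z` is supported in the cone above `t` -/
def SuppCone (z : Z A) (t : List A) : Prop := ∀ m, ¬ (t <:+ m) → z m = 0

/-- antichain of cones -/
lemma norm_sq_sum_cone_le {κ : Type*} [Fintype κ] (z : κ → Z A) (t : κ → List A)
    (ht : ∀ i j, i ≠ j → ¬ (t i <:+ t j)) (hz : ∀ i, SuppCone (z i) (t i)) :
    ‖∑ j, z j‖ ^ 2 ≤ ∑ j, ‖z j‖ ^ 2 := by
  apply norm_sq_sum_le
  intro s m hsm i j hij
  by_contra hcon
  push Not at hcon
  obtain ⟨h1, h2⟩ := hcon
  have key : ∀ k, D (z k) (s, m) ≠ 0 → t k <:+ m := by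
    intro k hk
    by_contra hkm
    apply hk
    have h3 : z k m = 0 := hz k m hkm
    have h4 : z k s = 0 := hz k s (fun hh => hkm (hh.trans hsm))
    simp [D, h3, h4]
  rcases suf_total (key i h1) (key j h2) with h | h
  · exact ht i j hij h
  · exact ht j i (Ne.symm hij) h

open Classical in
/-- indicator of the cone above `t` -/
noncomputable def coneInd (t : List A) : List A → ℝ := fun m => if t <:+ m then 1 else 0

lemma coneInd_nil {t : List A} (ht : t ≠ []) : coneInd t [] = 0 := by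
  simp only [coneInd]
  rw [if_neg]
  intro h
  exact ht (List.eq_nil_of_suffix_nil h)

lemma coneInd_sum_le (t : List A) (n : ℕ) (p : Fin n → List A × List A) (hp : IsFam p) :
    ∑ i, (D (coneInd t) (p i)) ^ 2 ≤ 1 ^ 2 := by
  classical
  have hv : ∀ i, (D (coneInd t) (p i)) ^ 2 =
      if (t <:+ (p i).2 ∧ (p i).1.length < t.length) then 1 else 0 := by
    intro i
    simp only [D, coneInd]
    by_cases h1 : t <:+ (p i).2
    · by_cases h2 : t <:+ (p i).1
      · have := h2.length_le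
        rw [if_pos h1, if_pos h2, if_neg (by rintro ⟨_, h⟩; omega)]; norm_num
      · have h3 : (p i).1.length < t.length := by
          by_contra h4
          exact h2 (suf_of_len h1 (hp.suf i) (by omega))
        rw [if_pos h1, if_neg h2, if_pos ⟨h1, h3⟩]; norm_num
    · have h2 : ¬ t <:+ (p i).1 := fun h => h1 (h.trans (hp.suf i))
      rw [if_neg h1, if_neg h2, if_neg (by rintro ⟨h, _⟩; exact h1 h)]; norm_num
  have h1 : ∑ i, (D (coneInd t) (p i)) ^ 2 =
      ((Finset.univ.filter fun i => (t <:+ (p i).2 ∧ (p i).1.length < t.length)).card : ℝ) := by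
    rw [Finset.sum_congr rfl (fun i _ => hv i), Finset.sum_ite]
    simp
  rw [h1]
  have h2 : (Finset.univ.filter fun i => (t <:+ (p i).2 ∧ (p i).1.length < t.length)).card ≤ 1 := by
    rw [Finset.card_le_one]
    intro i hi j hj
    by_contra hij
    simp only [Finset.mem_filter, Finset.mem_univ, true_and] at hi hj
    rcases hp.disj i j hij t hi.1 hj.1 with h | h
    · omega
    · omega
  have h3 : ((Finset.univ.filter fun i =>
    (t <:+ (p i).2 ∧ (p i).1.length < t.length)).card : ℝ) ≤ 1 := by exact_mod_cast h2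
  linarith

open Classical in
/-- unit vector `e_t` (the indicator of the cone above `t`; `0` if `t = []`) -/
noncomputable def e (t : List A) : Z A :=
  if ht : t = [] then 0 else Z.mk (coneInd t) (coneInd_nil ht) 1 (coneInd_sum_le t)

lemma e_apply {t : List A} (ht : t ≠ []) (m : List A) : e t m = coneInd t m := by
  unfold e
  rw [dif_neg ht]
  exact Z.mk_apply _ _ _ _ _

lemma e_nil : e ([] : List A) = 0 := by
  unfold e
  rw [dif_pos rfl]

lemma e_apply_of_suf {t m : List A} (ht : t ≠ []) (h : t <:+ m) : e t m = 1 := by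
  rw [e_apply ht, coneInd, if_pos h]

lemma e_apply_of_not {t m : List A} (h : ¬ t <:+ m) : e t m = 0 := by
  by_cases ht : t = []
  · subst ht; rw [e_nil]; rfl
  · rw [e_apply ht, coneInd, if_neg h]

lemma suppCone_e (t : List A) : SuppCone (e t) t := fun _ h => e_apply_of_not h

lemma norm_e_le (t : List A) : ‖e t‖ ≤ 1 := by
  by_cases ht : t = []
  · subst ht; rw [e_nil]; simp
  · apply Z.norm_le _ zero_le_one
    intro n p hp
    have h := coneInd_sum_le t n p hp
    have h2 : ∀ i, D (e t) (p i) = D (coneInd t) (p i) := by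
      intro i
      simp only [D, e_apply ht]
    simpa only [h2] using h

end WCGBidual
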