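import Pool.Agent.H251.W2
open Set Filter Topology
open scoped ENNReal

namespace WCGBidual
variable {A : Type}

open Classical in
/-- longest suffix of `t` in `F` -/
noncomputable def rho (F : Set (List A)) : List A → List A
  | [] => []
  | a :: l => if a :: l ∈ F then a :: l else rho F l

/-- suffix-closed set containing the root -/
structure SC (F : Set (List A)) : Prop where
  nil : ([] : List A) ∈ F
  down : ∀ t ∈ F, ∀ s, s <:+ t → s ∈ F

lemma rho_suf (F : Set (List A)) (t : List A) : rho F t <:+ t := by
  induction t with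
  | nil => simp [rho]
  | cons a l ih =>
    unfold rho
    split_ifs
    · exact List.suffix_rfl
    · exact ih.trans (List.suffix_cons a l)

lemma rho_mem {F : Set (List A)} (hF : SC F) (t : List A) : rho F t ∈ F := by
  induction t with
  | nil => simpa [rho] using hF.nil
  | cons a l ih =>
    unfold rho
    split_ifs with h
    · exact h
    · exact ih

lemma rho_eq {F : Set (List A)} (t : List A) (ht : t ∈ F) : rho F t = t := by
  cases t with
  | nil => simp [rho]
  | cons a l => unfold rho; rw [if_pos ht]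

lemma suf_rho {F : Set (List A)} (hF : SC F) {s t : List A} (hst : s <:+ t) (hs : s ∈ F) :
    s <:+ rho F t := by
  induction t with
  | nil =>
    have := List.eq_nil_of_suffix_nil hst
    subst this
    simp [rho]
  | cons a l ih =>
    unfold rho
    split_ifs with h
    · exact hst
    · rcases suf_cons_iff.1 hst with h1 | h1
      · subst h1; exact absurd hs h
      · exact ih h1

lemma rho_eq_rho {F : Set (List A)} (hF : SC F) {s t : List A} (hst : s <:+ t) (hs : s ∉ F) :
    rho F t = rho F s := by
  have h1 : rho F s <:+ rho F t := suf_rho hF ((rho_suf F s).trans hst) (rho_mem hF s)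
  have h2 : rho F t <:+ s := by
    rcases suf_total (rho_suf F t) hst with h | h
    · exact h
    · exact absurd (hF.down _ (rho_mem hF t) _ h) hs
  have h3 : rho F t <:+ rho F s := suf_rho hF h2 (rho_mem hF t)
  exact h3.eq_of_length (le_antisymm h3.length_le h1.length_le)

lemma rho_nil (F : Set (List A)) : rho F [] = [] := by simp [rho]

lemma rho_dom {F : Set (List A)} (hF : SC F) (z : Z A) : Dom (fun t => z (rho F t)) z := by
  intro s t hst
  by_cases hs : s ∈ F
  · refine ⟨(s, rho F t), suf_rho hF hst hs, Or.inl ⟨rho_suf F t, le_rfl⟩, ?_⟩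
    simp only [rho_eq s hs]; exact le_rfl
  · refine ⟨([], []), List.suffix_rfl, Or.inr rfl, ?_⟩
    simp [rho_eq_rho hF hst hs]

/-- complement part: `K - K ∘ ρ` -/
lemma rho_compl_dom {F : Set (List A)} (hF : SC F) (z : Z A) :
    Dom (fun t => z t - z (rho F t)) z := by
  intro s t hst
  by_cases hs : s ∈ F
  · refine ⟨(rho F t, t), rho_suf F t, Or.inl ⟨List.suffix_rfl, (suf_rho hF hst hs).length_le⟩, ?_⟩
    simp only [rho_eq s hs]
    apply le_of_eq; congr 1; ring
  · refine ⟨(s, t), hst, Or.inl ⟨List.suffix_rfl, le_rfl⟩, ?_⟩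
    simp only [rho_eq_rho hF hst hs]
    apply le_of_eq; congr 1; ring

/-- projection onto finite type part -/
noncomputable def P (F : Set (List A)) (hF : SC F) : Z A →L[ℝ] Z A :=
  LinearMap.mkContinuous
    { toFun := fun z => Z.ofDom (fun t => z (rho F t)) (by simp [rho_nil]) z (rho_dom hF z)
      map_add' := fun z w => by
        apply Z.ext'; intro t
        simp only [Z.ofDom_apply, Z.coe_add]
      map_smul' := fun c z => by
        apply Z.ext'; intro t
        simp only [Z.ofDom_apply, Z.coe_smul, RingHom.id_apply] } 1 (fun z => by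
        rw [one_mul]
        exact Z.norm_ofDom_le (fun t => z (rho F t)) (by simp [rho_nil]) z (rho_dom hF z))

@[simp] lemma P_apply (F : Set (List A)) (hF : SC F) (z : Z A) (t : List A) :
    (P F hF z) t = z (rho F t) :=
  Z.ofDom_apply (fun t => z (rho F t)) (by simp [rho_nil]) z (rho_dom hF z) t

lemma norm_P_le (F : Set (List A)) (hF : SC F) (z : Z A) : ‖P F hF z‖ ≤ ‖z‖ :=
  Z.norm_ofDom_le (fun t => z (rho F t)) (by simp [rho_nil]) z (rho_dom hF z)

lemma norm_sub_P_le (F : Set (List A)) (hF : SC F) (z : Z A) : ‖z - P F hF z‖ ≤ ‖z‖ := by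
  apply Z.norm_le_of_dom
  have h : val (z - P F hF z).toAmb = fun t => z t - z (rho F t) := by
    funext t
    rw [Z.coe_sub, P_apply]
  rw [h]
  exact rho_compl_dom hF z

/-- suffix closure of a finite set -/
def sufCl (S : Set (List A)) : Set (List A) := {s | s = [] ∨ ∃ t ∈ S, s <:+ t}

lemma sc_sufCl (S : Set (List A)) : SC (sufCl S) :=
  ⟨Or.inl rfl, by
    rintro t (rfl | ⟨u, hu, htu⟩) s hs
    · left; exact List.eq_nil_of_suffix_nil hs
    · right; exact ⟨u, hu, hs.trans htu⟩⟩

lemma subset_sufCl (S : Set (List A)) : S ⊆ sufCl S := fun t ht => Or.inr ⟨t, ht, List.suffix_rfl⟩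

lemma finite_suffixes (t : List A) : {s | s <:+ t}.Finite := by
  apply (t.tails.finite_toSet).subset
  intro s hs
  simpa [List.mem_tails] using hs

lemma finite_sufCl {S : Set (List A)} (hS : S.Finite) : (sufCl S).Finite := by
  have : sufCl S = {([] : List A)} ∪ ⋃ t ∈ S, {s | s <:+ t} := by
    ext s
    simp [sufCl]
  rw [this]
  exact (Set.finite_singleton _).union (hS.biUnion fun t _ => finite_suffixes t)

/-- Lemma D -/
lemma exists_P_close (z : Z A) {ε : ℝ} (hε : 0 < ε) :
    ∃ (F : Set (List A)) (_ : SC F), F.Finite ∧ ∀ (G : Set (List A)) (hG : SC G), F ⊆ G →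
      ‖z - P G hG z‖ ≤ ε := by
  classical
  obtain ⟨n, p, hp, hlt⟩ := z.exists_fam (show 0 < ε ^ 2 by positivity)
  refine ⟨sufCl (Set.range fun i => (p i).2), sc_sufCl _, finite_sufCl (Set.finite_range _), ?_⟩
  intro G hG hsub
  have hmem : ∀ i, (p i).2 ∈ G := fun i => hsub (subset_sufCl _ ⟨i, rfl⟩)
  apply Z.norm_le _ hε.le
  intro k r hr
  -- transformed family
  let r' : Fin k → List A × List A := fun i =>
    if (r i).1 ∈ G then (rho G (r i).2, (r i).2) else r i
  have hD : ∀ i, D (z - P G hG z : Z A) (r i) = D z (r' i) := by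
    intro i
    simp only [D, Z.coe_sub, P_apply, r']
    by_cases hs : (r i).1 ∈ G
    · rw [if_pos hs, rho_eq _ hs]; ring
    · rw [if_neg hs, rho_eq_rho hG (hr.suf i) hs]; ring
  have hsuf : ∀ i, (r' i).1 <:+ (r' i).2 := by
    intro i
    simp only [r']
    by_cases hs : (r i).1 ∈ G
    · rw [if_pos hs]; exact rho_suf _ _
    · rw [if_neg hs]; exact hr.suf i
  have hlen : ∀ i, (r' i).2 = (r i).2 ∧ (r i).1.length ≤ (r' i).1.length := by
    intro i
    simp only [r']
    by_cases hs : (r i).1 ∈ G
    · rw [if_pos hs]; exact ⟨rfl, (suf_rho hG (hr.suf i) hs).length_le⟩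
    · rw [if_neg hs]; exact ⟨rfl, le_rfl⟩
  -- nodes of G are not strictly above r'.1
  have hG' : ∀ i m, m ∈ G → m <:+ (r' i).2 → m.length ≤ (r' i).1.length := by
    intro i m hm hmi
    simp only [r'] at hmi ⊢
    by_cases hs : (r i).1 ∈ G
    · rw [if_pos hs] at hmi ⊢
      exact (suf_rho hG hmi hm).length_le
    · rw [if_neg hs] at hmi ⊢
      rcases suf_total hmi (hr.suf i) with h | h
      · exact h.length_le
      · exact absurd (hG.down _ hm _ h) hs
  let q : Fin n ⊕ Fin k → List A × List A := Sum.elim p r'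
  have hq : IsFam q := by
    constructor
    · rintro (i | i)
      · exact hp.suf i
      · exact hsuf i
    · rintro (i | i) (j | j) hij m hmi hmj
      · exact hp.disj i j (fun h => hij (by rw [h])) m hmi hmj
      · right
        exact hG' j m (hG.down _ (hmem i) _ hmi) hmj
      · left
        exact hG' i m (hG.down _ (hmem j) _ hmj) hmi
      · simp only [q, Sum.elim_inr] at hmi hmj ⊢
        have h1 := hr.disj i j (fun h => hij (by rw [h])) m
          (by rw [← (hlen i).1]; exact hmi) (by rw [← (hlen j).1]; exact hmj)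
        rcases h1 with h | h
        · left; have := (hlen i).2; omega
        · right; have := (hlen j).2; omega
  have h1 := z.sum_le q hq
  rw [Fintype.sum_sum_type] at h1
  simp only [q, Sum.elim_inl, Sum.elim_inr] at h1
  have h2 : ∑ i, (D (z - P G hG z : Z A) (r i)) ^ 2 = ∑ i, (D z (r' i)) ^ 2 :=
    Finset.sum_congr rfl fun i _ => by rw [hD]
  rw [h2]
  linarith

end WCGBidual
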