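import Pool.Agent.H251.W3
open Set Filter Topology
open scoped ENNReal

namespace WCGBidual
variable {A : Type}

/-- node of height `k` on the branch `b` -/
def node (b : ℕ → A) : ℕ → List A
  | 0 => []
  | k + 1 => b k :: node b k

@[simp] lemma node_zero (b : ℕ → A) : node b 0 = [] := rfl
lemma node_succ (b : ℕ → A) (k : ℕ) : node b (k + 1) = b k :: node b k := rfl

@[simp] lemma node_length (b : ℕ → A) (k : ℕ) : (node b k).length = k := by
  induction k with
  | zero => rfl
  | succ k ih => rw [node_succ, List.length_cons, ih]

lemma node_suf (b : ℕ → A) {j k : ℕ} (h : j ≤ k) : node b j <:+ node b k := by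
  induction k, h using Nat.le_induction with
  | base => exact List.suffix_rfl
  | succ k _ ih => exact ih.trans (List.suffix_cons _ _)

lemma node_suf_iff (b : ℕ → A) {j k : ℕ} : node b j <:+ node b k ↔ j ≤ k :=
  ⟨fun h => by simpa using h.length_le, node_suf b⟩

lemma node_ne_nil (b : ℕ → A) {k : ℕ} (hk : 1 ≤ k) : node b k ≠ [] := by
  intro h
  have := congrArg List.length h
  simp at this
  omega

/-- a suffix of a node on the branch is a node on the branch -/
lemma eq_node_of_suf (b : ℕ → A) {k : ℕ} {t : List A} (h : t <:+ node b k) :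
    t = node b t.length := by
  have h1 : t.length ≤ k := by simpa using h.length_le
  exact suf_eq h (node_suf b h1) (by simp)

lemma node_congr {b b' : ℕ → A} {k : ℕ} (h : node b k = node b' k) {j : ℕ} (hj : j ≤ k) :
    node b j = node b' j := by
  have h1 : node b j <:+ node b' k := h ▸ node_suf b hj
  have := eq_node_of_suf b' h1
  simpa using this

lemma node_injective {b b' : ℕ → A} (h : ∀ k, node b k = node b' k) : b = b' := by
  funext k
  have := h (k + 1)
  rw [node_succ, node_succ] at this
  exact (List.cons_eq_cons.1 this).1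

/-- distinct branches have incomparable nodes far out -/
lemma exists_node_ne {b b' : ℕ → A} (h : b ≠ b') : ∃ m, ∀ k, m ≤ k → node b k ≠ node b' k := by
  by_contra hcon
  push Not at hcon
  apply h
  apply node_injective
  intro k
  obtain ⟨j, hj, hjj⟩ := hcon k
  exact node_congr hjj hj

/-- values along a branch converge -/
lemma cauchy_node (z : Z A) (b : ℕ → A) : CauchySeq (fun k => z (node b k)) := by
  rw [Metric.cauchySeq_iff]
  intro ε hε
  obtain ⟨F, hF, hfin, hG⟩ := exists_P_close z (show 0 < ε / 3 by positivity)
  have hc := hG F hF subset_rfl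
  -- heights in F bounded
  obtain ⟨N, hN⟩ : ∃ N, ∀ t ∈ F, t.length < N := by
    obtain ⟨M, hM⟩ := (hfin.image List.length).bddAbove
    exact ⟨M + 1, fun t ht => Nat.lt_succ_of_le (hM ⟨t, ht, rfl⟩)⟩
  refine ⟨N, fun m hm n hn => ?_⟩
  have hconst : ∀ k, N ≤ k → rho F (node b k) = rho F (node b N) := by
    intro k hk
    apply rho_eq_rho hF (node_suf b hk)
    intro hmem
    have := hN _ hmem
    simp at this
  have h1 : ∀ k, |z (node b k) - z (rho F (node b k))| ≤ ε / 3 := by
    intro k
    have := (z - P F hF z).abs_le (node b k)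
    rw [Z.coe_sub, P_apply] at this
    exact this.trans hc
  have h2 := h1 m
  have h3 := h1 n
  rw [hconst m hm] at h2
  rw [hconst n hn] at h3
  rw [Real.dist_eq]
  rw [abs_le] at h2 h3
  rw [abs_lt]
  constructor <;> linarith [h2.1, h2.2, h3.1, h3.2]

/-- functional `1_b` : limit of the values along the branch -/
noncomputable def evb (b : ℕ → A) : StrongDual ℝ (Z A) :=
  LinearMap.mkContinuous
    { toFun := fun z => limUnder atTop (fun k => z (node b k))
      map_add' := fun z w => by
        apply Tendsto.limUnder_eq
        have h1 := (cauchy_node z b).tendsto_limUnder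
        have h2 := (cauchy_node w b).tendsto_limUnder
        exact h1.add h2
      map_smul' := fun c z => by
        apply Tendsto.limUnder_eq
        exact (cauchy_node z b).tendsto_limUnder.const_mul c } 1 (fun z => by
        rw [one_mul, Real.norm_eq_abs]
        exact le_of_tendsto ((cauchy_node z b).tendsto_limUnder.abs)
          (Eventually.of_forall fun k => z.abs_le _))

lemma tendsto_evb (b : ℕ → A) (z : Z A) :
    Tendsto (fun k => z (node b k)) atTop (𝓝 (evb b z)) :=
  (cauchy_node z b).tendsto_limUnder

lemma abs_evb_le (b : ℕ → A) (z : Z A) : |evb b z| ≤ ‖z‖ :=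
  le_of_tendsto ((tendsto_evb b z).abs) (Eventually.of_forall fun k => z.abs_le _)

/-- avoidance: some letter direction above `p` where `z` is nearly constant -/
lemma exists_letter [Infinite A] (z : Z A) (p : List A) {ε : ℝ} (hε : 0 < ε) :
    ∃ a : A, ∀ t, a :: p <:+ t → |z t - z p| ≤ ε := by
  obtain ⟨F, hF, hfin, hG⟩ := exists_P_close z (show 0 < ε / 2 by positivity)
  have hc := hG F hF subset_rfl
  have hinj : Function.Injective (fun a : A => a :: p) := fun a b h => (List.cons_eq_cons.1 h).1
  obtain ⟨a, ha⟩ : ∃ a : A, a :: p ∉ F := by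
    by_contra hcon
    push Not at hcon
    have : Set.Infinite F := (Set.infinite_range_of_injective hinj).mono (by
      rintro _ ⟨a, rfl⟩; exact hcon a)
    exact this hfin
  refine ⟨a, fun t ht => ?_⟩
  have h1 : ∀ t, |z t - z (rho F t)| ≤ ε / 2 := by
    intro t
    have := (z - P F hF z).abs_le t
    rw [Z.coe_sub, P_apply] at this
    exact this.trans hc
  have h2 : rho F t = rho F p := by
    rw [rho_eq_rho hF ht ha]
    conv_lhs => unfold rho
    rw [if_neg ha]
  have h3 := h1 t
  have h4 := h1 p
  rw [h2] at h3
  rw [abs_le] at *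
  constructor <;> linarith [h3.1, h3.2, h4.1, h4.2]

end WCGBidual
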